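import Pool.Agent.MP_1d62fe_al.Mg.Main
import Pool.Agent.MP_1d62fe_al.Alt.A

attribute [-instance] SMulZeroClass.toSMul MonTypeEquivalenceMon.monMonoid Semiring.toMonoid
  IsMulCommutative.is_comm instDistribOfSemiring SemigroupWithZero.toSemigroup
  DivisionCommMonoid.toDivisionMonoid AddCommGroup.toGrindIntModule MonoidWithZero.toMonoid
  SemilatticeInf.toPartialOrder littleWedderburn RKHS.instFunLike Algebra.toSMul MulZeroClass.toMul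
  CompletePartialOrder.toPartialOrder NonUnitalNonAssocSemiring.toAddCommMonoid
  ESeminormedAddCommMonoid.toAddCommMonoid AddMonoidWithOne.toOne CommRing.toGrindCommRing
  FiniteField.instGrindPowIdentity NonUnitalRing.toNonUnitalNonAssocRing Semiring.toAddCommMonoid
  BooleanRing.instIdempotentOpHMul Ring.toGrindRing CommSemiring.toSemiring
  DivisionRing.toDivInvMonoid Ring.toSemiring NonAssocSemiring.toNonUnitalNonAssocSemiring
  NonUnitalSemiring.toNonUnitalNonAssocSemiring MonoidWithZero.toMulZeroOneClass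
  GroupWithZero.toDivInvMonoid TestFunctionClass.toDFunLike
  Group.IsPerfect.subsingleton_of_isMulCommutative AddSubmonoidWithOneClass.toOneMemClass
  ContDiffMapSupportedInClass.toDFunLike NonUnitalNormedCommRing.toNonUnitalCommRing
  SemilatticeSup.toPartialOrder NonAssocSemiring.toMulZeroOneClass
  LieAdmissibleRing.toNonUnitalNonAssocRing GroupWithZero.toDivisionMonoid Field.toGrindField
  NonUnitalNonAssocCommSemiring.toNonUnitalNonAssocSemiring AddCommGroup.toAddCommMonoid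
  OmegaCompletePartialOrder.toPartialOrder DivisionSemiring.toSemiring
  NonUnitalSeminormedCommRing.toNonUnitalCommRing NonAssocRing.toNonUnitalNonAssocRing
  Std.PreorderPackage.toLE IdemSemiring.toSemiring ChainCompletePartialOrder.toPartialOrder
  NonAssocCommRing.toNonUnitalNonAssocCommRing

-- part MP_1d62fe_al.Alt.D
section

-- part AmDef
section

set_option autoImplicit false
set_option linter.unusedSectionVars false

namespace Pool.Agent.MP_1d62fe_al.W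

open Equiv

/-- a locally primitive action whose local groups are embedded in `Sym Ω` through a cocycle -/
structure Alt (G V Ω I : Type) [Group G] [MulAction G V] [Fintype Ω] [DecidableEq Ω]
    [DecidableEq I] extends Setup G V where
  fib : Ω → I
  κ : G → V → Perm Ω
  κ_mul : ∀ g h v, κ (g * h) v = κ g (h • v) * κ h v
  ker : ∀ g v, g • v = v → (κ g v = 1 ↔ g ∈ toSetup.K v)
  fibp : ∀ g v a b, fib a = fib b → fib (κ g v a) = fib (κ g v b)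
  three : ∀ v a b c, D3 fib a b c → ∃ g : G, g • v = v ∧ κ g v = c3 a b c
  big : Big fib
  surj : Function.Surjective fib
  max : ∀ x y, adj x y → ∀ M : Subgroup G, (∀ g : G, g • x = x → g • y = y → g ∈ M) →
    (∀ g ∈ M, g • x = x) → (∀ g ∈ M, g • y = y) ∨ ∀ g : G, g • x = x → g ∈ M

namespace Alt

variable {G V Ω I : Type} [Group G] [MulAction G V] [Fintype Ω] [DecidableEq Ω] [DecidableEq I]
  (S : Alt G V Ω I)

theorem κ_one (v : V) : S.κ 1 v = 1 := by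
  have := S.κ_mul 1 1 v
  rw [one_mul, one_smul] at this
  exact mul_eq_left.1 this.symm

theorem κ_inv (g : G) (v : V) : S.κ g⁻¹ (g • v) = (S.κ g v)⁻¹ := by
  rw [eq_inv_iff_mul_eq_one, ← S.κ_mul, inv_mul_cancel, κ_one]

theorem κ_mul' {g h : G} {v : V} (hh : h • v = v) : S.κ (g * h) v = S.κ g v * S.κ h v := by
  rw [S.κ_mul, hh]

theorem κ_inv' {g : G} {v : V} (hg : g • v = v) : S.κ g⁻¹ v = (S.κ g v)⁻¹ := by
  rw [← S.κ_inv, hg]

theorem κ_conj (g : G) {h : G} {v : V} (hh : h • v = v) :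
    S.κ (g * h * g⁻¹) (g • v) = S.κ g v * S.κ h v * (S.κ g v)⁻¹ := by
  rw [S.κ_mul, S.κ_inv, inv_smul_smul, S.κ_mul' hh]

theorem D2_map (g : G) (v : V) {a b : Ω} (h : D2 S.fib a b) :
    D2 S.fib (S.κ g v a) (S.κ g v b) :=
  ⟨(S.κ g v).injective.ne h.ab, S.fibp g v _ _ h.fb⟩

theorem D3_map (g : G) (v : V) {a b c : Ω} (h : D3 S.fib a b c) :
    D3 S.fib (S.κ g v a) (S.κ g v b) (S.κ g v c) :=
  ⟨(S.κ g v).injective.ne h.ab, (S.κ g v).injective.ne h.ac, (S.κ g v).injective.ne h.bc,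
    S.fibp g v _ _ h.fb, S.fibp g v _ _ h.fc⟩

/-- the subgroup generated by the `Q w`, `w ~ y` -/
def EE (p : ℕ) (y : V) : Subgroup G := Subgroup.closure {g | ∃ w, S.adj y w ∧ g ∈ S.Q p w}

theorem EE_fix [Finite G] {p : ℕ} {y : V} {g : G} (h : g ∈ S.EE p y) : g • y = y := by
  have : S.EE p y ≤ MulAction.stabilizer G y := by
    rw [EE, Subgroup.closure_le]
    rintro g ⟨w, hw, hg⟩
    exact S.Q_fix p hw hg
  exact this h

theorem Q_le_EE {p : ℕ} {y w : V} (h : S.adj y w) : S.Q p w ≤ S.EE p y :=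
  fun _ hg => Subgroup.subset_closure ⟨w, h, hg⟩

theorem EE_conj [Finite G] {p : ℕ} {y : V} {g : G} (h : g ∈ S.EE p y) (k : G) :
    k * g * k⁻¹ ∈ S.EE p (k • y) := by
  induction h using Subgroup.closure_induction with
  | mem g hg =>
    obtain ⟨w, hw, hg⟩ := hg
    exact S.Q_le_EE (S.inv k hw) (by rw [← S.cj_Q]; exact conj_mem_cj.2 hg)
  | one => simp
  | mul a b _ _ ha hb =>
    have := Subgroup.mul_mem _ ha hb
    rwa [show k * a * k⁻¹ * (k * b * k⁻¹) = k * (a * b) * k⁻¹ by group] at this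
  | inv a _ ha =>
    have := Subgroup.inv_mem _ ha
    rwa [show (k * a * k⁻¹)⁻¹ = k * a⁻¹ * k⁻¹ by group] at this

/-- `{a, a'}` is a block of the arc `(y, v)` -/
def Bl (y v : V) (a a' : Ω) : Prop := a ≠ a' ∧ ∃ q ∈ S.Q 2 v, S.κ q y a = a'

/-- `g` represents the canonical lift of `(a b c)` at `y` -/
def IsT (y : V) (g : G) (a b c : Ω) : Prop :=
  g ∈ S.EE 2 y ∧ S.κ g y = c3 a b c ∧ ∃ h ∈ S.EE 2 y, h * g * h⁻¹ * g ∈ S.Q 2 y

theorem Bl.smul [Finite G] {S : Alt G V Ω I} {y v : V} {a a' : Ω} (hyv : S.adj y v)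
    (h : S.Bl y v a a') (g : G) : S.Bl (g • y) (g • v) (S.κ g y a) (S.κ g y a') := by
  obtain ⟨h1, q, hq, h2⟩ := h
  refine ⟨(S.κ g y).injective.ne h1, g * q * g⁻¹, by rw [← S.cj_Q]; exact conj_mem_cj.2 hq, ?_⟩
  rw [S.κ_conj g (S.Q_fix 2 hyv hq)]
  simp only [Perm.coe_mul, Perm.coe_inv, Function.comp_apply, symm_apply_apply, h2]

theorem Bl.symm [Finite G] {S : Alt G V Ω I} {y v : V} {a a' : Ω} (hyv : S.adj y v)
    (h : S.Bl y v a a') : S.Bl y v a' a := by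
  obtain ⟨h1, q, hq, h2⟩ := h
  refine ⟨h1.symm, q⁻¹, Subgroup.inv_mem _ hq, ?_⟩
  rw [S.κ_inv' (S.Q_fix 2 hyv hq), ← h2]
  simp

theorem IsT.smul [Finite G] {S : Alt G V Ω I} {y : V} {g : G} {a b c : Ω} (h : S.IsT y g a b c)
    (k : G) : S.IsT (k • y) (k * g * k⁻¹) (S.κ k y a) (S.κ k y b) (S.κ k y c) := by
  obtain ⟨h1, h2, h, h3, h4⟩ := h
  refine ⟨S.EE_conj h1 k, by rw [S.κ_conj k (S.EE_fix h1), h2, c3_conj], k * h * k⁻¹,
    S.EE_conj h3 k, ?_⟩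
  rw [← S.cj_Q, mem_cj]
  convert h4 using 1
  group

/-- commutator notation -/
def cc (g h : G) : G := g * h * g⁻¹ * h⁻¹

/-- type M for the arc -/
def TyM (y v : V) : Prop := ∀ a, ∃ a', S.Bl y v a a'

/-- type D for the arc -/
def TyD (y v : V) : Prop := ∀ a₀, ∃ a a', S.fib a = S.fib a₀ ∧ S.Bl y v a a' ∧
  ∀ x x', S.fib x = S.fib a₀ → S.Bl y v x x' → x = a ∨ x = a'

/-- the output of the local analysis for `p = 2` -/
structure Am where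
  s : V → Ω → Ω → G
  s_mem : ∀ v a b, D2 S.fib a b → s v a b ∈ S.Z 2 v
  s_eqv : ∀ (g : G) v a b, D2 S.fib a b →
    s (g • v) (S.κ g v a) (S.κ g v b) = g * s v a b * g⁻¹
  s_symm : ∀ v a b, D2 S.fib a b → s v a b = s v b a
  s_ne : ∀ v a b, D2 S.fib a b → s v a b ≠ 1
  s_mul : ∀ v a b c, D3 S.fib a b c → s v a b * s v b c = s v a c
  wo : ∀ y g g' a b c d e f, D3 S.fib a b c → D3 S.fib d e f → S.IsT y g a b c →
    S.IsT y g' d e f → d ∉ [a, b, c] → e ∉ [a, b, c] → f ∉ [a, b, c] →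
    ∀ z ∈ S.Z 2 y, g' * cc g z = cc g z * g'
  fp : ∀ y v, S.adj y v → ∀ q ∈ S.Q 2 v, FP S.fib (S.κ q y)
  two : ∀ y v, S.adj y v → ∀ a a' a'', S.Bl y v a a' → S.Bl y v a a'' → a' = a''
  ty : (∀ y v, S.adj y v → S.TyM y v) ∨ ∀ y v, S.adj y v → S.TyD y v
  b2 : ∀ y v, S.adj y v → ∀ g : G, g • y = y →
    (∀ a a', S.Bl y v a a' → S.Bl y v (S.κ g y a) (S.κ g y a')) → g • v = v
  trb : ∀ y v y' v', S.adj y v → S.adj y' v' → ∀ a a' b b', S.Bl y v a a' → S.Bl y' v' b b' →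
    ∃ g : G, g • y = y' ∧ g • v = v' ∧ (S.κ g y a = b ∨ S.κ g y a = b')
  t_ex : ∀ y v, S.adj y v → ∀ a b c, D3 S.fib a b c → ∃ g, S.IsT y g a b c
  t_cube : ∀ y g a b c, D3 S.fib a b c → S.IsT y g a b c → g ^ 3 ∈ S.Q 2 y
  t_uniq : ∀ y g g' a b c, D3 S.fib a b c → S.IsT y g a b c → S.IsT y g' a b c →
    g⁻¹ * g' ∈ S.Q 2 y
  t_tt : ∀ y t u a b c, D3 S.fib a b c → t ∈ S.EE 2 y → u ∈ S.EE 2 y → t * t ∈ S.Q 2 y →
    u * u ∈ S.Q 2 y → S.κ t y = swap a b → S.κ u y = swap b c → S.IsT y (t * u) a b c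
  inv_u : ∀ y t t', t ∈ S.EE 2 y → t' ∈ S.EE 2 y → t * t ∈ S.Q 2 y → t' * t' ∈ S.Q 2 y →
    S.κ t y = S.κ t' y → t⁻¹ * t' ∈ S.Q 2 y
  wv4 : ∀ (y : V) (A : Subgroup G), S.Z 2 y ≤ A → (∀ g : G, g • y = y → ∀ z ∈ A, g * z * g⁻¹ ∈ A) →
    (∀ z ∈ A, z • y = y) → (∀ z ∈ A, ∀ z' ∈ A, z * z' = z' * z) → (∀ z ∈ A, z * z = 1) →
    (∀ q ∈ S.Q 2 y, ∀ z ∈ A, cc q z ∈ S.Z 2 y) →
    ∀ u a : G, u • y = y → a • y = y → S.κ u y * S.κ a y = S.κ a y * S.κ u y →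
    ∀ α α' β, D2 S.fib α α' → S.κ u y α = α' → S.κ u y α' = α → ∀ l : List Ω, l.length ≤ 8 →
    (∀ x, S.fib x = S.fib α → x ∉ l → S.κ u y x = x) → S.fib β = S.fib α → S.κ u y β = β →
    S.κ a y β ≠ β → S.fib (S.κ a y β) = S.fib β → (∀ z ∈ A, cc a (cc u z) ∈ S.Z 2 y) →
    ∀ (t g : G) (a₁ a₂ a₃ a₄ : Ω), S.fib a₁ = S.fib α → D3 S.fib a₁ a₂ a₃ → S.fib a₄ = S.fib a₁ →
    a₄ ∉ [a₁, a₂, a₃] → t ∈ S.EE 2 y → t * t ∈ S.Q 2 y → S.κ t y = swap a₁ a₂ * swap a₃ a₄ →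
    S.IsT y g a₁ a₂ a₃ → ∀ z ∈ A, cc t z ∈ S.Z 2 y → cc (g * t * g⁻¹) z ∈ S.Z 2 y →
    cc g z ∈ S.Z 2 y

/-- the standing assumptions of the amalgam analysis (`b = n + 1 ≥ 3`) -/
structure Ctx [Finite G] (n : ℕ) extends S.Am where
  hn : S.toSetup.NT 2
  hb : S.toSetup.IsB 2 n
  h2 : 2 ≤ n

/-- a critical pair with chosen neighbours -/
structure CC (n : ℕ) (x x₁ y' y : V) : Prop where
  a1 : S.adj x x₁
  d1 : Dn S.adj n x₁ y
  a2 : S.adj y y'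
  d2 : Dn S.adj n y' x
  cr : ¬ S.Z 2 x ≤ S.Q 2 y

end Alt

end Pool.Agent.MP_1d62fe_al.W

end

-- part Am1
section

set_option autoImplicit false
set_option linter.unusedSectionVars false

namespace Pool.Agent.MP_1d62fe_al.W

open Equiv

namespace Alt

variable {G V Ω I : Type} [Group G] [MulAction G V] [Fintype Ω] [DecidableEq Ω] [DecidableEq I]
  [Finite G] {S : Alt G V Ω I} {n : ℕ}

namespace Ctx

variable (D : S.Ctx n)
include D

theorem cc_symm {x x₁ y' y : V} (h : S.CC n x x₁ y' y) : S.CC n y y' x₁ x :=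
  haveI : Fact (Nat.Prime 2) := ⟨Nat.prime_two⟩
  ⟨h.a2, h.d2, h.a1, h.d1, (Setup.Crit.symm D.hn D.hb ⟨⟨x₁, h.a1, h.d1⟩, h.cr⟩).2⟩

theorem ZQ {m : ℕ} (hm : m ≤ n) {x y : V} (h : Dn S.adj m x y) : S.Z 2 x ≤ S.Q 2 y :=
  D.hb m hm x y h

theorem ZQ1 {x y : V} (h : S.adj x y) : S.Z 2 x ≤ S.Q 2 y :=
  D.ZQ (m := 1) (by have := D.h2; omega) ⟨y, h, rfl⟩

theorem ZQ2 {x y z : V} (h : S.adj x y) (h' : S.adj y z) : S.Z 2 x ≤ S.Q 2 z :=
  D.ZQ (m := 2) D.h2 ⟨y, h, z, h', rfl⟩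

theorem s_sq (v : V) {a b : Ω} (h : D2 S.fib a b) : D.s v a b * D.s v a b = 1 := by
  rw [← pow_two]; exact (D.s_mem v a b h).2.1

theorem s_conj {g : G} {v : V} (hg : g • v = v) {a b : Ω} (h : D2 S.fib a b) :
    g * D.s v a b * g⁻¹ = D.s v (S.κ g v a) (S.κ g v b) := by
  rw [← D.s_eqv g v a b h, hg]

variable (S) in
/-- `u` is centralised by every element of `G_x` fixing the points of `l` -/
def _root_.Pool.Agent.MP_1d62fe_al.W.Alt.Av (x : V) (u : G) (l : List Ω) : Prop :=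
  ∀ k : G, k • x = x → (∀ a ∈ l, S.κ k x a = a) → k * u * k⁻¹ = u

theorem av_s (x : V) {a b : Ω} (h : D2 S.fib a b) : S.Av x (D.s x a b) [a, b] :=
  fun k hk hl => by rw [D.s_conj hk h, hl a (by simp), hl b (by simp)]

theorem av_one (x : V) (l : List Ω) : S.Av x 1 l := fun _ _ _ => by simp

theorem av_mul {x : V} {u u' : G} {l l' : List Ω} (h : S.Av x u l) (h' : S.Av x u' l') :
    S.Av x (u * u') (l ++ l') := fun k hk hl => by
  rw [show k * (u * u') * k⁻¹ = k * u * k⁻¹ * (k * u' * k⁻¹) by group,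
    h k hk fun a ha => hl a (by simp [ha]), h' k hk fun a ha => hl a (by simp [ha])]

/-- a duad vector is not supported away from one of its points -/
theorem ne_of_av {x : V} {p q : Ω} (h : D2 S.fib p q) {w : G} {l : List Ω} (hw : S.Av x w l)
    (hl : l.length ≤ 13) (hp : p ∉ l) : D.s x p q ≠ w := by
  intro e
  obtain ⟨a, fa, ha⟩ := S.big.avoid p (p :: q :: l) (by simp; omega)
  obtain ⟨b, fb, hb⟩ := S.big.avoid p (a :: p :: q :: l) (by simp; omega)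
  simp only [List.mem_cons, not_or] at ha hb
  have h3 : D3 S.fib p a b := ⟨Ne.symm ha.1, Ne.symm hb.2.1, Ne.symm hb.1, fa, fb⟩
  obtain ⟨k, hk, hκ⟩ := S.three x p a b h3
  have e1 := hw k hk fun z hz => by
    rw [hκ]
    exact c3_ne (fun e => hp (e ▸ hz)) (fun e => ha.2.2 (e ▸ hz)) (fun e => hb.2.2.2 (e ▸ hz))
  rw [← e, D.s_conj hk h, hκ, c3_a h3.ab h3.ac,
    c3_ne h.ab.symm (Ne.symm ha.2.1) (Ne.symm hb.2.2.1)] at e1
  have e2 := D.s_mul x p a q ⟨h3.ab, h.ab, ha.2.1, fa, h.fb⟩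
  rw [e1] at e2
  exact D.s_ne x p a ⟨h3.ab, fa⟩ (mul_eq_right.1 e2)

theorem s_inj {v : V} {a b a' b' : Ω} (h : D2 S.fib a b) (h' : D2 S.fib a' b')
    (e : D.s v a b = D.s v a' b') : (a = a' ∧ b = b') ∨ (a = b' ∧ b = a') := by
  have h1 : a ∈ [a', b'] := by
    by_contra hc
    exact D.ne_of_av h (D.av_s v h') (by simp) hc e
  have h2 : b ∈ [a', b'] := by
    by_contra hc
    exact D.ne_of_av ⟨h.ab.symm, h.fb.symm⟩ (D.av_s v h') (by simp) hc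
      ((D.s_symm v a b h).symm.trans e)
  have := h.ab
  simp only [List.mem_cons, List.not_mem_nil, or_false] at h1 h2
  grind

omit D in
theorem am1_av_conj {x : V} {g : G} (hg : g • x = x) {w : G} {l : List Ω} (hw : S.Av x w l) :
    S.Av x (g * w * g⁻¹) (l.map (S.κ g x)) := fun k hk hl => by
  have hg' : g⁻¹ • x = x := by rw [inv_smul_eq_iff, hg]
  have := hw (g⁻¹ * k * g) (by rw [mul_smul, mul_smul, hg, hk, hg']) fun a ha => by
    rw [S.κ_mul' hg, S.κ_mul' hk, S.κ_inv' hg, Perm.mul_apply, Perm.mul_apply,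
      hl _ (List.mem_map_of_mem ha), Perm.inv_eq_iff_eq]
  calc k * (g * w * g⁻¹) * k⁻¹ = g * (g⁻¹ * k * g * w * (g⁻¹ * k * g)⁻¹) * g⁻¹ := by group
    _ = g * w * g⁻¹ := by rw [this]

omit D in
theorem am1_av_inv {x : V} {w : G} {l : List Ω} (hw : S.Av x w l) : S.Av x w⁻¹ l :=
  fun k hk hl => by
    rw [show k * w⁻¹ * k⁻¹ = (k * w * k⁻¹)⁻¹ by group, hw k hk hl]

omit D in
theorem am1_comm {x : V} {u w : G} (hu : u ∈ S.Z 2 x) (hw : w ∈ S.Z 2 x) : u * w = w * u :=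
  hw.2.2 u hu.1

theorem bl_D2 {y v : V} (h : S.adj y v) {a a' : Ω} (hb : S.Bl y v a a') : D2 S.fib a a' := by
  obtain ⟨h1, q, hq, rfl⟩ := hb
  exact ⟨h1, D.fp y v h q hq a⟩

theorem act {y v : V} {q : G} (hq : q ∈ S.Q 2 v) (a : Ω) :
    S.κ q y a = a ∨ S.Bl y v a (S.κ q y a) := by
  by_cases h : S.κ q y a = a
  · exact Or.inl h
  · exact Or.inr ⟨fun e => h e.symm, q, hq, rfl⟩

/-- elements of `Q v` fix or swap the two points of a block -/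
theorem act_bl {y v : V} (h : S.adj y v) {q : G} (hq : q ∈ S.Q 2 v) {a a' : Ω}
    (hb : S.Bl y v a a') :
    (S.κ q y a = a ∧ S.κ q y a' = a') ∨ (S.κ q y a = a' ∧ S.κ q y a' = a) := by
  have h1 : S.κ q y a = a ∨ S.κ q y a = a' :=
    (D.act hq a).imp id fun h1 => D.two y v h a _ _ h1 hb
  have h2 : S.κ q y a' = a' ∨ S.κ q y a' = a :=
    (D.act hq a').imp id fun h2 => D.two y v h a' _ _ h2 (hb.symm h)
  have h3 : S.κ q y a ≠ S.κ q y a' := (S.κ q y).injective.ne hb.1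
  grind

/-- block vectors of the arc `(v, y)` -/
def InL (v y : V) (ρ : G) : Prop := ∃ a a', S.Bl v y a a' ∧ ρ = D.s v a a'

variable {D} in
theorem InL.mem {v y : V} (h : S.adj v y) {ρ : G} (hρ : D.InL v y ρ) :
    ρ ∈ S.Z 2 v ∧ ρ ∈ S.Z 2 y := by
  obtain ⟨a, a', h1, rfl⟩ := hρ
  have h2 := D.bl_D2 h h1
  have h3 := D.s_mem v a a' h2
  refine ⟨h3, D.ZQ1 h h3, h3.2.1, fun q hq => ?_⟩
  rw [← mul_inv_eq_iff_eq_mul, D.s_conj (S.Q_fix 2 h hq) h2]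
  rcases D.act_bl h hq h1 with ⟨e1, e2⟩ | ⟨e1, e2⟩
  · rw [e1, e2]
  · rw [e1, e2, D.s_symm v a a' h2]

variable {D} in
theorem InL.smul {v y : V} (h : S.adj v y) {ρ : G} (hρ : D.InL v y ρ) (g : G) :
    D.InL (g • v) (g • y) (g * ρ * g⁻¹) := by
  obtain ⟨a, a', h1, rfl⟩ := hρ
  exact ⟨_, _, h1.smul h g, (D.s_eqv g v a a' (D.bl_D2 h h1)).symm⟩

/-- duad vectors, extended by `1` on the diagonal -/
def am1_t (v : V) (a b : Ω) : G := if a = b then 1 else D.s v a b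

theorem am1_t_mul (v : V) {a b c : Ω} (hb : S.fib b = S.fib a) (hc : S.fib c = S.fib a) :
    D.am1_t v a b * D.am1_t v b c = D.am1_t v a c := by
  unfold am1_t
  by_cases h1 : a = b
  · subst h1; simp
  by_cases h2 : b = c
  · subst h2; simp
  by_cases h3 : a = c
  · subst h3
    rw [if_neg h1, if_neg h2, if_pos rfl, ← D.s_symm v a b ⟨h1, hb⟩, D.s_sq v ⟨h1, hb⟩]
  rw [if_neg h1, if_neg h2, if_neg h3, D.s_mul v a b c ⟨h1, h3, h2, hb, hc⟩]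

theorem am1_t_mem {v y : V} (h : S.adj v y) {q : G} (hq : q ∈ S.Q 2 y) (a : Ω) :
    D.am1_t v a (S.κ q v a) ∈ S.Z 2 v ∧ D.am1_t v a (S.κ q v a) ∈ S.Z 2 y := by
  unfold am1_t
  split_ifs with h1
  · exact ⟨Subgroup.one_mem _, Subgroup.one_mem _⟩
  · exact InL.mem h ⟨a, _, ⟨h1, q, hq, rfl⟩, rfl⟩

theorem cc_Q {v y : V} (h : S.adj v y) {q : G} (hq : q ∈ S.Q 2 y) {a b : Ω} (hab : D2 S.fib a b) :
    cc q (D.s v a b) ∈ S.Z 2 y := by
  have fa := D.fp v y h q hq a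
  have fb := D.fp v y h q hq b
  have e1 := D.am1_t_mul v fa (fb.trans hab.fb)
  have e2 := D.am1_t_mul v hab.fb (fb.trans hab.fb)
  have h2 := S.D2_map q v hab
  rw [← e2, show D.am1_t v a b = D.s v a b from if_neg hab.ab,
    show D.am1_t v (S.κ q v a) (S.κ q v b) = D.s v _ _ from if_neg h2.ab,
    am1_comm (D.s_mem v a b hab) (D.am1_t_mem h hq b).1] at e1
  rw [cc, D.s_conj (S.Q_fix 2 h hq) hab, eq_inv_mul_of_mul_eq e1, ← mul_assoc,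
    mul_inv_cancel_right]
  exact Subgroup.mul_mem _ (Subgroup.inv_mem _ (D.am1_t_mem h hq a).2) (D.am1_t_mem h hq b).2

/-- an element of `Q y'` outside `Q y` moves a point at `y` -/
theorem exists_moved {y y' : V} (h : S.adj y y') {c : G} (hc : c ∈ S.Q 2 y') (hn : c ∉ S.Q 2 y) :
    ∃ a, S.κ c y a ≠ a := by
  by_contra hh
  push Not at hh
  exact hn (S.Q_inf_K 2 h ⟨hc, (S.ker c y (S.Q_fix 2 h hc)).1 (Equiv.ext hh)⟩)

theorem exists_duad {x x₁ y' y : V} (h : S.CC n x x₁ y' y) :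
    ∃ a b, D2 S.fib a b ∧ D.s x a b ∉ S.Q 2 y := by
  by_contra hc
  push Not at hc
  obtain ⟨c, hc1, hc2⟩ := SetLike.not_le_iff_exists.1 (D.cc_symm h).cr
  have hq : c ∈ S.Q 2 x₁ := D.ZQ le_rfl (S.Dn_symm h.d1) hc1
  obtain ⟨a, ha⟩ := D.exists_moved h.a1 hq hc2
  obtain ⟨b, fb, hb⟩ := S.big.avoid a [a, S.κ c x a] (by simp)
  simp only [List.mem_cons, List.not_mem_nil, not_or] at hb
  have h2 : D2 S.fib a b := ⟨Ne.symm hb.1, fb⟩
  have e := D.s_conj (S.Q_fix 2 h.a1 hq) h2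
  rw [← hc1.2.2 _ (hc a b h2), mul_inv_cancel_right] at e
  rcases D.s_inj h2 (S.D2_map c x h2) e with ⟨e1, -⟩ | ⟨-, e1⟩
  · exact ha e1.symm
  · exact hb.2.1 e1

/-- Ind -/
theorem ind {x : V} {g : G} (hg : g • x = x) {p q : Ω} (h : D2 S.fib p q) {w : G} {l : List Ω}
    (hw : S.Av x w l) (hl : l.length ≤ 4) (hp : p ∉ l)
    (hp' : p ∉ (p :: q :: l).map (S.κ g x)) : g * (D.s x p q * w) ≠ D.s x p q * w * g := by
  intro e
  refine D.ne_of_av h (D.av_mul (am1_av_conj hg (D.av_mul (D.av_s x h) hw)) (am1_av_inv hw))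
    (by simp; omega) (fun hm => ?_) ?_
  · rcases List.mem_append.1 hm with h1 | h1
    · exact hp' h1
    · exact hp h1
  · rw [e]; group

theorem am1_av_of {u w : V} (h : S.adj u w) {a a' : Ω} (hb : S.Bl u w a a') {ρ : G}
    (h2 : D.InL u w ρ ∨ ρ = 1) (hne : D.s u a a' ≠ ρ) :
    ∃ l : List Ω, l.length ≤ 2 ∧ a ∉ l ∧ S.Av u ρ l := by
  rcases h2 with ⟨b, b', h2, rfl⟩ | rfl
  · refine ⟨[b, b'], le_rfl, fun hm => hne ?_, D.av_s u (D.bl_D2 h h2)⟩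
    simp only [List.mem_cons, List.not_mem_nil, or_false] at hm
    rcases hm with rfl | rfl
    · rw [D.two u w h _ _ _ hb h2]
    · rw [D.two u w h _ _ _ hb (h2.symm h), D.s_symm u b a (D.bl_D2 h h2)]
  · exact ⟨[], by simp, by simp, D.av_one u _⟩

/-- Ind4 -/
theorem ind4 {u w : V} (h : S.adj u w) {ρ₁ ρ₂ ρ₃ ρ₄ : G} (h1 : D.InL u w ρ₁)
    (h2 : D.InL u w ρ₂ ∨ ρ₂ = 1) (h3 : D.InL u w ρ₃ ∨ ρ₃ = 1) (h4 : D.InL u w ρ₄ ∨ ρ₄ = 1)
    (e : ρ₁ = ρ₂ * ρ₃ * ρ₄) : ρ₁ = ρ₂ ∨ ρ₁ = ρ₃ ∨ ρ₁ = ρ₄ := by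
  by_contra hc
  simp only [not_or] at hc
  obtain ⟨a, a', hb, rfl⟩ := h1
  obtain ⟨l₂, a2, b2, c2⟩ := D.am1_av_of h hb h2 hc.1
  obtain ⟨l₃, a3, b3, c3⟩ := D.am1_av_of h hb h3 hc.2.1
  obtain ⟨l₄, a4, b4, c4⟩ := D.am1_av_of h hb h4 hc.2.2
  exact D.ne_of_av (D.bl_D2 h hb) (D.av_mul (D.av_mul c2 c3) c4) (by simp; omega)
    (by simp [b2, b3, b4]) e

/-- some non-empty product of the `wᵢ` commutes with `g` -/
def _root_.Pool.Agent.MP_1d62fe_al.W.Alt.Some3 (g w₁ w₂ w₃ : G) : Prop :=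
  ∃ u₁ u₂ u₃ : G, (u₁ = w₁ ∨ u₁ = 1) ∧ (u₂ = w₂ ∨ u₂ = 1) ∧ (u₃ = w₃ ∨ u₃ = 1) ∧
    (u₁ = w₁ ∨ u₂ = w₂ ∨ u₃ = w₃) ∧ g * (u₁ * u₂ * u₃) = u₁ * u₂ * u₃ * g

theorem am1_hom {v y : V} (h : S.adj v y) {q q' : G} (hq : q ∈ S.Q 2 y) (hq' : q' ∈ S.Q 2 y)
    (a : Ω) : S.κ (q * q') v a = a ↔ (S.κ q v a = a ↔ S.κ q' v a = a) := by
  rw [S.κ_mul' (S.Q_fix 2 h hq'), Perm.mul_apply]
  rcases D.act hq' a with h1 | h1
  · rw [h1]; simp
  · have := D.act_bl h hq h1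
    have := h1.1
    grind

/-- Pig3 -/
theorem pig3 {v y : V} (h : S.adj v y) {w₁ w₂ w₃ : G} (h1 : w₁ ∈ S.Q 2 y) (h2 : w₂ ∈ S.Q 2 y)
    (h3 : w₃ ∈ S.Q 2 y) {a b : Ω} (hab : D2 S.fib a b) : Some3 (D.s v a b) w₁ w₂ w₃ := by
  have key : ∀ q ∈ S.Q 2 y, S.κ q v a = a ∧ S.κ q v b = b → D.s v a b * q = q * D.s v a b :=
    fun q hq e => by
      rw [eq_comm, ← mul_inv_eq_iff_eq_mul, D.s_conj (S.Q_fix 2 h hq) hab, e.1, e.2]
  have h12 := Subgroup.mul_mem _ h1 h2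
  by_contra hc
  have n1 := fun e => hc ⟨w₁, 1, 1, .inl rfl, .inr rfl, .inr rfl, .inl rfl, by
    simpa only [mul_one] using key _ h1 e⟩
  have n2 := fun e => hc ⟨1, w₂, 1, .inr rfl, .inl rfl, .inr rfl, .inr (.inl rfl), by
    simpa only [one_mul, mul_one] using key _ h2 e⟩
  have n3 := fun e => hc ⟨1, 1, w₃, .inr rfl, .inr rfl, .inl rfl, .inr (.inr rfl), by
    simpa only [mul_one, one_mul] using key _ h3 e⟩
  have n12 := fun e => hc ⟨w₁, w₂, 1, .inl rfl, .inl rfl, .inr rfl, .inl rfl, by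
    simpa only [mul_one] using key _ h12 e⟩
  have n13 := fun e => hc ⟨w₁, 1, w₃, .inl rfl, .inr rfl, .inl rfl, .inl rfl, by
    simpa only [mul_one] using key _ (Subgroup.mul_mem _ h1 h3) e⟩
  have n23 := fun e => hc ⟨1, w₂, w₃, .inr rfl, .inl rfl, .inl rfl, .inr (.inl rfl), by
    simpa only [one_mul] using key _ (Subgroup.mul_mem _ h2 h3) e⟩
  have n123 := fun e => hc ⟨w₁, w₂, w₃, .inl rfl, .inl rfl, .inl rfl, .inl rfl,
    key _ (Subgroup.mul_mem _ h12 h3) e⟩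
  rw [D.am1_hom h h12 h3, D.am1_hom h h12 h3] at n123
  rw [D.am1_hom h h1 h2, D.am1_hom h h1 h2] at n12 n123
  rw [D.am1_hom h h1 h3, D.am1_hom h h1 h3] at n13
  rw [D.am1_hom h h2 h3, D.am1_hom h h2 h3] at n23
  clear hc key
  by_cases S.κ w₁ v a = a <;> by_cases S.κ w₂ v a = a <;> by_cases S.κ w₃ v a = a <;> grind

/-- Ind3 -/
theorem ind3 {x : V} {g : G} (hg : g • x = x) {p₁ p₂ p₃ q₁ q₂ q₃ : Ω} (h1 : D2 S.fib p₁ q₁)
    (h2 : D2 S.fib p₂ q₂) (h3 : D2 S.fib p₃ q₃) (hn : [p₁, p₂, p₃].Nodup)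
    (hq : ∀ p ∈ [p₁, p₂, p₃], p ∉ [q₁, q₂, q₃])
    (hm : ∀ p ∈ [p₁, p₂, p₃], p ∉ [p₁, p₂, p₃, q₁, q₂, q₃].map (S.κ g x)) :
    ¬ Some3 g (D.s x p₁ q₁) (D.s x p₂ q₂) (D.s x p₃ q₃) := by
  rintro ⟨u₁, u₂, u₃, e1, e2, e3, e4, e⟩
  have aux : ∀ {p q : Ω} {u : G}, D2 S.fib p q → (u = D.s x p q ∨ u = 1) →
      u ∈ S.Z 2 x ∧ S.Av x u [p, q] := fun {p q u} h e => by
    rcases e with rfl | rfl
    · exact ⟨D.s_mem x p q h, D.av_s x h⟩
    · exact ⟨Subgroup.one_mem _, D.av_one x _⟩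
  obtain ⟨z1, a1⟩ := aux h1 e1
  obtain ⟨z2, a2⟩ := aux h2 e2
  obtain ⟨z3, a3⟩ := aux h3 e3
  have m1 := hm p₁ (by simp)
  have m2 := hm p₂ (by simp)
  have m3 := hm p₃ (by simp)
  have k1 := hq p₁ (by simp)
  have k2 := hq p₂ (by simp)
  have k3 := hq p₃ (by simp)
  simp only [List.nodup_cons, List.mem_cons, List.not_mem_nil, not_or, List.map_cons,
    List.map_nil] at hn m1 m2 m3 k1 k2 k3
  rcases e4 with rfl | rfl | rfl
  · refine D.ind hg h1 (D.av_mul a2 a3) (by simp) ?_ ?_ (by rwa [mul_assoc _ u₂] at e)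
    all_goals simp; grind
  · refine D.ind hg h2 (D.av_mul a1 a3) (by simp) ?_ ?_ (by rwa [am1_comm z1 z2, mul_assoc _ u₁] at e)
    all_goals simp; grind
  · refine D.ind hg h3 (D.av_mul a1 a2) (by simp) ?_ ?_
      (by rwa [am1_comm (Subgroup.mul_mem _ z1 z2) z3] at e)
    all_goals simp; grind

/-- W2 -/
theorem W2 {x x₁ y' y : V} (h : S.CC n x x₁ y' y) {a b : Ω} (hab : D2 S.fib a b) {p₁ p₂ p₃ : Ω}
    (m1 : S.κ (D.s x a b) y p₁ ≠ p₁) (m2 : S.κ (D.s x a b) y p₂ ≠ p₂)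
    (m3 : S.κ (D.s x a b) y p₃ ≠ p₃) (hn : [p₁, p₂, p₃].Nodup)
    (n12 : S.κ (D.s x a b) y p₁ ≠ p₂) (n13 : S.κ (D.s x a b) y p₁ ≠ p₃)
    (n23 : S.κ (D.s x a b) y p₂ ≠ p₃) : False := by
  have hq : D.s x a b ∈ S.Q 2 y' := D.ZQ le_rfl (S.Dn_symm h.d2) (D.s_mem x a b hab)
  have hy := S.Q_fix 2 h.a2 hq
  have hi : ∀ z, S.κ (D.s x a b) y (S.κ (D.s x a b) y z) = z := fun z => by
    rw [← Perm.mul_apply, ← S.κ_mul' hy, D.s_sq x hab, S.κ_one, Perm.one_apply]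
  have ex := fun p => S.big.avoid p [p₁, p₂, p₃, S.κ (D.s x a b) y p₁, S.κ (D.s x a b) y p₂,
    S.κ (D.s x a b) y p₃] (by simp)
  obtain ⟨q₁, f1, k1⟩ := ex p₁
  obtain ⟨q₂, f2, k2⟩ := ex p₂
  obtain ⟨q₃, f3, k3⟩ := ex p₃
  simp only [List.mem_cons, List.not_mem_nil, not_or] at k1 k2 k3
  have d1 : D2 S.fib p₁ q₁ := ⟨Ne.symm k1.1, f1⟩
  have d2 : D2 S.fib p₂ q₂ := ⟨Ne.symm k2.2.1, f2⟩
  have d3 : D2 S.fib p₃ q₃ := ⟨Ne.symm k3.2.2.1, f3⟩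
  have zq := D.ZQ le_rfl (S.Dn_symm h.d1)
  refine D.ind3 hy d1 d2 d3 hn ?_ ?_ (D.pig3 h.a1 (zq (D.s_mem y _ _ d1)) (zq (D.s_mem y _ _ d2))
    (zq (D.s_mem y _ _ d3)) hab)
  · simp only [List.mem_cons, List.not_mem_nil, or_false, not_or, forall_eq_or_imp, forall_eq]; grind
  · intro p hp hm
    obtain ⟨z, hz, e⟩ := List.mem_map.1 hm
    have e' : z = S.κ (D.s x a b) y p := by rw [← e, hi]
    have i1 := hi p₁
    have i2 := hi p₂
    clear hm ex hi hn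
    simp only [List.mem_cons, List.not_mem_nil, or_false] at hp hz
    rcases hp with rfl | rfl | rfl <;> grind

/-- the subgroup generated by the duad vectors -/
def U (v : V) : Subgroup G := Subgroup.closure {g | ∃ a b, D2 S.fib a b ∧ g = D.s v a b}

theorem am1_cj_U (g : G) (v : V) : D.U (g • v) = cj g (D.U v) := by
  rw [U, U, cj_closure]
  congr 1
  ext r
  simp only [Set.mem_ofPred_eq]
  constructor
  · rintro ⟨a, b, hab, rfl⟩
    have := D.s_eqv g⁻¹ (g • v) a b hab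
    rw [inv_smul_smul, inv_inv] at this
    exact ⟨_, _, S.D2_map _ _ hab, this.symm⟩
  · rintro ⟨a, b, hab, e⟩
    refine ⟨_, _, S.D2_map g v hab, ?_⟩
    rw [D.s_eqv g v a b hab, ← e]; group

theorem am1_U_le (v : V) : D.U v ≤ S.Z 2 v := by
  rw [U, Subgroup.closure_le]
  rintro _ ⟨a, b, hab, rfl⟩
  exact D.s_mem v a b hab

theorem am1_nrm {u v : V} {k : G} (hk : k • u = u)
    (hc : ∀ a b, D2 S.fib a b → cc k (D.s v a b) ∈ S.Z 2 u) :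
    ∀ z ∈ D.U v ⊔ S.Z 2 u, k * z * k⁻¹ ∈ D.U v ⊔ S.Z 2 u := by
  have : D.U v ⊔ S.Z 2 u ≤ cj k⁻¹ (D.U v ⊔ S.Z 2 u) := by
    refine sup_le ?_ fun z hz => ?_
    · rw [U, Subgroup.closure_le]
      rintro _ ⟨a, b, hab, rfl⟩
      rw [SetLike.mem_coe, mem_cj, inv_inv,
        show k * D.s v a b * k⁻¹ = cc k (D.s v a b) * D.s v a b by rw [cc]; group]
      exact Subgroup.mul_mem _ (Subgroup.mem_sup_right (hc a b hab))
        (Subgroup.mem_sup_left (Subgroup.subset_closure ⟨a, b, hab, rfl⟩))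
    · rw [mem_cj, inv_inv]
      exact Subgroup.mem_sup_right (conj_mem_of_cj_eq (by rw [S.cj_Z, hk]) hz)
  intro z hz
  simpa only [inv_inv] using mem_cj.1 (this hz)

/-- NCG -/
theorem NCG {x x₁ y' y : V} (h : S.CC n x x₁ y' y) {u v : V} (huv : S.adj u v) {k : G}
    (hk : k • u = u) (hm : k • v ≠ v)
    (hc : ∀ a b, D2 S.fib a b → cc k (D.s v a b) ∈ S.Z 2 u) : False := by
  have hk' : k⁻¹ • u = u := by rw [inv_smul_eq_iff, hk]
  have hc' : ∀ a b, D2 S.fib a b → cc k⁻¹ (D.s v a b) ∈ S.Z 2 u := fun a b hab => by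
    rw [show cc k⁻¹ (D.s v a b) = k⁻¹ * (cc k (D.s v a b))⁻¹ * k⁻¹⁻¹ by simp only [cc]; group]
    exact conj_mem_of_cj_eq (by rw [S.cj_Z, hk']) (Subgroup.inv_mem _ (hc a b hab))
  obtain ⟨m, rfl⟩ : ∃ m, n = m + 1 := ⟨n - 1, by have := D.h2; omega⟩
  obtain ⟨x₂, h1, h2⟩ := h.d1
  have e := S.const (fun u v => D.U v ⊔ S.Z 2 u)
    (fun g x y => by rw [cj_sup, D.am1_cj_U, S.cj_Z]) huv hk hm
    (cj_eq_of_le (D.am1_nrm hk hc) fun z hz => by simpa only [inv_inv] using D.am1_nrm hk' hc' z hz)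
    (S.symm h.a1) h1
  obtain ⟨a, b, hab, hs⟩ := D.exists_duad h
  refine hs ((sup_le ((D.am1_U_le x₂).trans (D.ZQ (Nat.le_succ m) h2)) (D.ZQ le_rfl h.d1) :
    D.U x₂ ⊔ S.Z 2 x₁ ≤ S.Q 2 y) ?_)
  rw [← e]
  exact Subgroup.mem_sup_left (Subgroup.subset_closure ⟨a, b, hab, rfl⟩)

end Ctx

end Alt

end Pool.Agent.MP_1d62fe_al.W

end

-- part AmM
section

set_option autoImplicit false
set_option linter.unusedSectionVars false

namespace Pool.Agent.MP_1d62fe_al.W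

open Equiv

namespace Alt

variable {G V Ω I : Type} [Group G] [MulAction G V] [Fintype Ω] [DecidableEq Ω] [DecidableEq I]
  [Finite G] {S : Alt G V Ω I} {n : ℕ}

namespace Ctx

variable (D : S.Ctx n)
include D

/-- the configuration of case M1 -/
def M1 : Prop := ∃ x x₁ y' y a b a' b' p₁ p₂, S.CC n x x₁ y' y ∧ D2 S.fib a b ∧ D2 S.fib a' b' ∧
  S.fib p₂ = S.fib p₁ ∧ S.κ (D.s x a b) y p₁ ≠ p₁ ∧ S.κ (D.s x a' b') y p₁ = p₁ ∧
  S.κ (D.s x a' b') y p₂ ≠ p₂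

/-- an even permutation of a fibre is induced by an element of the stabiliser -/
theorem exists_even (v : V) {o : Ω} {σ : Perm Ω} (h : σ ∈ AF (fbr S.fib o)) :
    ∃ g : G, g • v = v ∧ S.κ g v = σ := by
  let H : Subgroup (Perm Ω) :=
    { carrier := {σ | ∃ g : G, g • v = v ∧ S.κ g v = σ}
      one_mem' := ⟨1, one_smul _ _, S.κ_one v⟩
      mul_mem' := by
        rintro _ _ ⟨g, hg, rfl⟩ ⟨g', hg', rfl⟩
        exact ⟨g * g', by rw [mul_smul, hg', hg], S.κ_mul' hg'⟩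
      inv_mem' := by
        rintro _ ⟨g, hg, rfl⟩
        exact ⟨g⁻¹, by rw [inv_smul_eq_iff, hg], S.κ_inv' hg⟩ }
  exact AF_le (D := H) (fun a ha b hb c hc h1 h2 h3 => S.three v a b c
    ⟨h1, h2, h3, (mem_fbr.1 hb).trans (mem_fbr.1 ha).symm,
      (mem_fbr.1 hc).trans (mem_fbr.1 ha).symm⟩) h

/-- two blocks through a common point agree; two blocks are equal or disjoint -/
theorem AmM_disj {u v : V} (huv : S.adj u v) {a a' e e' : Ω} (ha : S.Bl u v a a')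
    (he : S.Bl u v e e') (h1 : e ≠ a) (h2 : e ≠ a') : e' ≠ a ∧ e' ≠ a' :=
  ⟨fun h => h2 (D.two u v huv _ _ _ (h ▸ he.symm huv) ha),
    fun h => h1 (D.two u v huv _ _ _ (h ▸ he.symm huv) (ha.symm huv))⟩

/-- a block swap fixes the second vertex of the arc -/
theorem AmM_b2 {u v : V} (huv : S.adj u v) {a a' e e' : Ω} (ha : S.Bl u v a a')
    (he : S.Bl u v e e') (h1 : e ≠ a) (h2 : e ≠ a') {k : G} (hk : k • u = u)
    (hκ : S.κ k u = swap a e * swap a' e') : k • v = v := by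
  obtain ⟨h3, h4⟩ := D.AmM_disj huv ha he h1 h2
  have h5 := ha.1
  have h6 := he.1
  have k1 : S.κ k u a = e := by rw [hκ]; simp only [Perm.mul_apply, swap_apply_def]; grind
  have k2 : S.κ k u a' = e' := by rw [hκ]; simp only [Perm.mul_apply, swap_apply_def]; grind
  have k3 : S.κ k u e = a := by rw [hκ]; simp only [Perm.mul_apply, swap_apply_def]; grind
  have k4 : S.κ k u e' = a' := by rw [hκ]; simp only [Perm.mul_apply, swap_apply_def]; grind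
  have k5 : ∀ z, z ≠ a → z ≠ a' → z ≠ e → z ≠ e' → S.κ k u z = z := fun z _ _ _ _ => by
    rw [hκ]; simp only [Perm.mul_apply, swap_apply_def]; grind
  refine D.b2 u v huv k hk fun b b' hb => ?_
  by_cases e1 : b = a
  · subst e1; rw [D.two u v huv _ _ _ hb ha, k1, k2]; exact he
  by_cases e2 : b = a'
  · subst e2; rw [D.two u v huv _ _ _ hb (ha.symm huv), k1, k2]; exact he.symm huv
  by_cases e3 : b = e
  · subst e3; rw [D.two u v huv _ _ _ hb he, k3, k4]; exact ha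
  by_cases e4 : b = e'
  · subst e4; rw [D.two u v huv _ _ _ hb (he.symm huv), k3, k4]; exact ha.symm huv
  obtain ⟨f1, f2⟩ := D.AmM_disj huv ha hb e1 e2
  obtain ⟨f3, f4⟩ := D.AmM_disj huv he hb e3 e4
  rw [k5 b e1 e2 e3 e4, k5 b' f1 f2 f3 f4]; exact hb

theorem AmM_swap {u v : V} (huv : S.adj u v) {a a' e e' : Ω} (ha : S.Bl u v a a')
    (he : S.Bl u v e e') (hf : S.fib e = S.fib a) (h1 : e ≠ a) (h2 : e ≠ a') :
    ∃ k : G, k • u = u ∧ k • v = v ∧ S.κ k u = swap a e * swap a' e' := by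
  obtain ⟨k, hk, hκ⟩ := D.exists_even u (o := a) (dt_mem_AF h1.symm
    (D.AmM_disj huv ha he h1 h2).2.symm (mem_fbr.2 rfl) (mem_fbr.2 hf)
    (mem_fbr.2 (D.bl_D2 huv ha).fb) (mem_fbr.2 ((D.bl_D2 huv he).fb.trans hf)))
  exact ⟨k, hk, D.AmM_b2 huv ha he h1 h2 hk hκ, hκ⟩

omit D in
theorem AmM_cjQ {k q : G} {v : V} (hq : q ∈ S.Q 2 v) : k * q * k⁻¹ ∈ S.Q 2 (k • v) := by
  rw [← S.cj_Q]; exact conj_mem_cj.2 hq

omit D in
theorem AmM_cjZ {k q : G} {v : V} (hq : q ∈ S.Z 2 v) : k * q * k⁻¹ ∈ S.Z 2 (k • v) := by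
  rw [← S.cj_Z]; exact conj_mem_cj.2 hq

/-- a duad of `x` moves at most four points at `y` -/
theorem AmM_few {x x₁ y' y : V} (h : S.CC n x x₁ y' y) {a b : Ω} (hab : D2 S.fib a b) {p : Ω}
    (hp : S.κ (D.s x a b) y p ≠ p) :
    ∃ l : List Ω, l.length ≤ 8 ∧ ∀ r, r ∉ l → S.κ (D.s x a b) y r = r := by
  by_cases h1 : ∀ r, r ∉ [p, S.κ (D.s x a b) y p] → S.κ (D.s x a b) y r = r
  · exact ⟨_, by simp, h1⟩
  push Not at h1
  obtain ⟨r, hr, hm⟩ := h1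
  refine ⟨[p, S.κ (D.s x a b) y p, r, S.κ (D.s x a b) y r], by simp, fun z hz => ?_⟩
  by_contra hz'
  simp only [List.mem_cons, List.not_mem_nil, not_or] at hr hz
  refine D.W2 h hab hp hm hz' ?_ (Ne.symm hr.2.1) (Ne.symm hz.2.1) (Ne.symm hz.2.2.2.1)
  simp only [List.nodup_cons, List.mem_cons, List.not_mem_nil, not_or, List.nodup_nil]
  exact ⟨⟨Ne.symm hr.1, Ne.symm hz.1, id⟩, ⟨Ne.symm hz.2.2.1, id⟩, id, trivial⟩

theorem AmM_sQ {x x₁ y' y : V} (h : S.CC n x x₁ y' y) {a b : Ω} (hab : D2 S.fib a b) :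
    D.s x a b ∈ S.Q 2 y' :=
  D.ZQ le_rfl (S.Dn_symm h.d2) (D.s_mem x a b hab)

/-- in type M, `Q v` induces all products of two block transpositions of a fibre -/
theorem PT0 {x x₁ y' y : V} (h : S.CC n x x₁ y' y) (hM : ∀ y v, S.adj y v → S.TyM y v)
    {u v : V} (huv : S.adj u v) {a a' e e' : Ω} (ha : S.Bl u v a a') (he : S.Bl u v e e')
    (hf : S.fib e = S.fib a) (hn : e ∉ [a, a']) :
    ∃ q ∈ S.Q 2 v, S.κ q u = swap a a' * swap e e' := by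
  simp only [List.mem_cons, List.not_mem_nil, not_or] at hn
  obtain ⟨n1, n2, -⟩ := hn
  obtain ⟨n3, n4⟩ := D.AmM_disj huv ha he n1 n2
  -- one product of two block transpositions at the arc `(y, y')`
  obtain ⟨p, p', f, f', hp, hf', ff, m1, m2, q, hq, hκ⟩ : ∃ p p' f f', S.Bl y y' p p' ∧
      S.Bl y y' f f' ∧ S.fib f = S.fib p ∧ f ≠ p ∧ f ≠ p' ∧
      ∃ q ∈ S.Q 2 y', S.κ q y = swap p p' * swap f f' := by
    obtain ⟨α, β, hab, hc⟩ := D.exists_duad h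
    have hQ := D.AmM_sQ h hab
    obtain ⟨p, hp⟩ := D.exists_moved h.a2 hQ hc
    obtain ⟨l, hl, hfix⟩ := D.AmM_few h hab hp
    obtain ⟨f, ff, hfl⟩ := S.big.avoid p l (by omega)
    obtain ⟨f', hf'⟩ := hM y y' h.a2 f
    have hb := (D.act (y := y) hQ p).resolve_left hp
    generalize D.s x α β = c at *
    have t1 := ((D.act_bl h.a2 hQ hb).resolve_left fun hh => hp hh.1).2
    have t2 := hfix f hfl
    have t3 := ((D.act_bl h.a2 hQ hf').resolve_right fun hh => hf'.1 (t2.symm.trans hh.1)).2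
    have m1 : f ≠ p := fun e => hp (e ▸ t2)
    have m2 : f ≠ S.κ c y p := fun e => hp (by rw [← e, t2] at t1; exact e.symm.trans t1)
    obtain ⟨m3, m4⟩ := D.AmM_disj h.a2 hb hf' m1 m2
    obtain ⟨k, hk, hk', hκ⟩ := D.AmM_swap h.a2 hb hf' ff m1 m2
    have hcy := S.Q_fix 2 h.a2 hQ
    have hki : k⁻¹ • y = y := by rw [inv_smul_eq_iff, hk]
    have hci : c⁻¹ • y = y := by rw [inv_smul_eq_iff, hcy]
    refine ⟨p, _, f, f', hb, hf', ff, m1, m2, c * (k * c⁻¹ * k⁻¹), Subgroup.mul_mem _ hQ ?_, ?_⟩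
    · have := AmM_cjQ (k := k) (Subgroup.inv_mem _ hQ)
      rwa [hk'] at this
    · rw [show c * (k * c⁻¹ * k⁻¹) = c * k * c⁻¹ * k⁻¹ by group, S.κ_mul' hki, S.κ_mul' hci,
        S.κ_mul' hk, S.κ_inv' hk, S.κ_inv' hcy, hκ, mul_inv_eq_iff_eq_mul,
        show ∀ τ σ σ' : Perm Ω, τ * (σ * σ') * τ⁻¹ = τ * σ * τ⁻¹ * (τ * σ' * τ⁻¹) from
          fun _ _ _ => by group, ← swap_apply_apply, ← swap_apply_apply, t1, t2, t3]
      have := hf'.1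
      ext z; simp only [Perm.mul_apply, swap_apply_def]; grind
  -- transport to the arc `(u, v)`
  obtain ⟨r, r', hr, fr, m3, m4, q, hq, hκ⟩ : ∃ r r', S.Bl u v r r' ∧ S.fib r = S.fib a ∧
      r ≠ a ∧ r ≠ a' ∧ ∃ q ∈ S.Q 2 v, S.κ q u = swap a a' * swap r r' := by
    obtain ⟨g, rfl, rfl, hg⟩ := D.trb y y' u v h.a2 huv p p' a a' hp ha
    have b1 := hp.smul h.a2 g
    have e : swap (S.κ g y p) (S.κ g y p') = swap a a' ∧ S.fib (S.κ g y p) = S.fib a ∧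
        S.κ g y f ≠ a ∧ S.κ g y f ≠ a' := by
      have i1 := (S.κ g y).injective.ne m1
      have i2 := (S.κ g y).injective.ne m2
      rcases hg with hg | hg
      · have := D.two _ _ huv _ _ _ (hg ▸ b1) ha
        rw [hg] at i1; rw [this] at i2
        exact ⟨by rw [hg, this], by rw [hg], i1, i2⟩
      · have := D.two _ _ huv _ _ _ (hg ▸ b1) (ha.symm huv)
        rw [hg] at i1; rw [this] at i2
        exact ⟨by rw [hg, this, swap_comm], by rw [hg, (D.bl_D2 huv ha).fb], i2, i1⟩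
    refine ⟨_, _, hf'.smul h.a2 g, (S.fibp g y _ _ ff).trans e.2.1, e.2.2.1, e.2.2.2,
      g * q * g⁻¹, AmM_cjQ hq, ?_⟩
    rw [S.κ_conj g (S.Q_fix 2 h.a2 hq), hκ, ← e.1, swap_apply_apply, swap_apply_apply]
    group
  by_cases c1 : e = r
  · subst c1; exact ⟨q, hq, by rw [hκ, D.two _ _ huv _ _ _ hr he]⟩
  by_cases c2 : e = r'
  · subst c2
    exact ⟨q, hq, by rw [hκ, D.two _ _ huv _ _ _ (hr.symm huv) he, swap_comm e' e]⟩
  obtain ⟨k, hk, hk', hκ'⟩ := D.AmM_swap huv hr he (hf.trans fr.symm) c1 c2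
  obtain ⟨m5, m6⟩ := D.AmM_disj huv ha hr m3 m4
  obtain ⟨m7, m8⟩ := D.AmM_disj huv hr he c1 c2
  refine ⟨k * q * k⁻¹, by simpa only [hk'] using AmM_cjQ (k := k) hq, ?_⟩
  have := S.κ_conj k (S.Q_fix 2 huv hq)
  rw [hk] at this
  rw [this, hκ, hκ', mul_inv_eq_iff_eq_mul]
  have := ha.1; have := he.1; have := hr.1
  ext z; simp only [Perm.mul_apply, swap_apply_def]; grind

omit D in
theorem AmM_Zfix {v : V} {z : G} (hz : z ∈ S.Z 2 v) : z • v = v := (S.Q_le_K 2 v hz.1).1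

omit D in
theorem AmM_cjZ' {k q : G} {v : V} (hk : k • v = v) (hq : q ∈ S.Z 2 v) :
    k * q * k⁻¹ ∈ S.Z 2 v := by
  simpa only [hk] using AmM_cjZ (k := k) hq

theorem AmM_s_inv (v : V) {a b : Ω} (h : D2 S.fib a b) : (D.s v a b)⁻¹ = D.s v a b :=
  inv_eq_of_mul_eq_one_right (D.s_sq v h)

/-- the abelian group `V_y Z_y` -/
def AmMA (y : V) : Subgroup G := Subgroup.closure
  {g | g ∈ S.Z 2 y ∨ ∃ v a b, S.adj y v ∧ D2 S.fib a b ∧ g = D.s v a b}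

theorem AmMA_le {y : V} {H : Subgroup G} (h1 : S.Z 2 y ≤ H)
    (h2 : ∀ v, S.adj y v → S.Z 2 v ≤ H) : D.AmMA y ≤ H := by
  rw [AmMA, Subgroup.closure_le]
  rintro g (hg | ⟨v, a, b, hv, hab, rfl⟩)
  · exact h1 hg
  · exact h2 v hv (D.s_mem v a b hab)

theorem AmMA_s {y v : V} (h : S.adj y v) {a b : Ω} (hab : D2 S.fib a b) : D.s v a b ∈ D.AmMA y :=
  Subgroup.subset_closure (Or.inr ⟨v, a, b, h, hab, rfl⟩)

theorem AmMA_fix {y : V} {z : G} (hz : z ∈ D.AmMA y) : z • y = y :=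
  D.AmMA_le (H := MulAction.stabilizer G y) (fun _ hg => AmM_Zfix hg)
    (fun _ hv _ hg => S.Q_fix 2 hv hg.1) hz

theorem AmMA_conj {y : V} {g : G} (hg : g • y = y) {z : G} (hz : z ∈ D.AmMA y) :
    g * z * g⁻¹ ∈ D.AmMA y := by
  have : D.AmMA y ≤ cj g⁻¹ (D.AmMA y) := by
    rw [AmMA, Subgroup.closure_le]
    rintro z (hz | ⟨v, a, b, hv, hab, rfl⟩)
    · rw [SetLike.mem_coe, mem_cj, inv_inv]
      exact Subgroup.subset_closure (Or.inl (AmM_cjZ' hg hz))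
    · rw [SetLike.mem_coe, mem_cj, inv_inv, ← D.s_eqv g v a b hab]
      exact D.AmMA_s (by simpa only [hg] using S.inv g hv) (S.D2_map g v hab)
  simpa only [mem_cj, inv_inv] using this hz

theorem AmMA_comm {y : V} {z z' : G} (hz : z ∈ D.AmMA y) (hz' : z' ∈ D.AmMA y) :
    z * z' = z' * z := by
  have key : ∀ w, D.AmMA y ≤ S.Q 2 w → S.Z 2 w ≤ Subgroup.centralizer (D.AmMA y) :=
    fun w hw c hc => Subgroup.mem_centralizer_iff.2 fun g hg => hc.2.2 g (hw hg)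
  exact Subgroup.mem_centralizer_iff.1 (D.AmMA_le
    (key y (D.AmMA_le (S.Z_le_Q 2 y) fun v hv => D.ZQ1 (S.symm hv)))
    (fun v hv => key v (D.AmMA_le (D.ZQ1 hv) fun w hw => D.ZQ2 (S.symm hw) hv)) hz') z hz

theorem AmMA_sq {y : V} {z : G} (hz : z ∈ D.AmMA y) : z * z = 1 := by
  induction hz using Subgroup.closure_induction with
  | mem g hg =>
    rcases hg with hg | ⟨v, a, b, -, hab, rfl⟩
    · rw [← pow_two]; exact hg.2.1
    · exact D.s_sq v hab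
  | one => simp
  | mul a b ha hb h1 h2 =>
    rw [show a * b * (a * b) = a * (b * a) * b by group, D.AmMA_comm hb ha,
      show a * (a * b) * b = a * a * (b * b) by group, h1, h2, one_mul]
  | inv a _ h1 => rw [← mul_inv_rev, h1, inv_one]

theorem AmMA_cc {y : V} {q : G} (hq : q ∈ S.Q 2 y) {z : G} (hz : z ∈ D.AmMA y) :
    cc q z ∈ S.Z 2 y := by
  induction hz using Subgroup.closure_induction with
  | mem g hg =>
    rcases hg with hg | ⟨v, a, b, hv, hab, rfl⟩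
    · rw [cc, hg.2.2 q hq]; simp
    · exact D.cc_Q (S.symm hv) hq hab
  | one => simp [cc]
  | mul a b ha _ h1 h2 =>
    rw [show cc q (a * b) = cc q a * (a * cc q b * a⁻¹) by simp only [cc]; group]
    exact Subgroup.mul_mem _ h1 (AmM_cjZ' (D.AmMA_fix ha) h2)
  | inv a ha h1 =>
    rw [show cc q a⁻¹ = a⁻¹ * (cc q a)⁻¹ * a⁻¹⁻¹ by simp only [cc]; group]
    exact AmM_cjZ' (by rw [inv_smul_eq_iff, D.AmMA_fix ha]) (Subgroup.inv_mem _ h1)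

theorem AmM_step {v y : V} (h : S.adj v y) {a a₁ b : Ω} (h1 : D2 S.fib a b) (h2 : D2 S.fib a₁ b)
    (hb : a₁ = a ∨ S.Bl v y a a₁) : D.s v a₁ b * D.s v a b ∈ S.Z 2 y := by
  rcases hb with rfl | hb
  · rw [D.s_sq v h1]; exact Subgroup.one_mem _
  · rw [D.s_symm v a b h1, D.s_mul v a₁ b a ⟨h2.ab, hb.1.symm, h1.ab.symm, h2.fb,
      h1.fb.symm.trans h2.fb⟩]
    exact (InL.mem h ⟨a₁, a, hb.symm h, rfl⟩).2

/-- an element fixing all blocks at `v` centralises the duads modulo `Z y` -/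
theorem AmM_blfix {v y : V} (h : S.adj v y) {k : G} (hk : k • v = v)
    (hb : ∀ a, S.κ k v a = a ∨ S.Bl v y a (S.κ k v a)) {a b : Ω} (hab : D2 S.fib a b) :
    cc k (D.s v a b) ∈ S.Z 2 y := by
  have hab' := S.D2_map k v hab
  rw [cc, D.s_conj hk hab, D.AmM_s_inv v hab]
  have fb : S.fib (S.κ k v b) = S.fib a := by
    rcases hb b with e | e
    · rw [e, hab.fb]
    · rw [(D.bl_D2 h e).fb, hab.fb]
  by_cases e : S.κ k v b = a
  · have e1 := (hb b).resolve_left fun e' => hab.ab (e.symm.trans e')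
    have e2 := (hb a).resolve_left fun e' => hab'.ab (e'.trans e.symm)
    rw [e] at e1
    rw [D.two v y h _ _ _ e2 (e1.symm h), e, ← D.s_symm v a b hab, D.s_sq v hab]
    exact Subgroup.one_mem _
  · have h3 : D2 S.fib a (S.κ k v b) := ⟨Ne.symm e, fb⟩
    have s1 := D.AmM_step h h3 hab' (hb a)
    have s2 := D.AmM_step h (a := b) (a₁ := S.κ k v b) (b := a) ⟨hab.ab.symm, hab.fb.symm⟩
      ⟨e, fb.symm⟩ (hb b)
    rw [← D.s_symm v a b hab, ← D.s_symm v a _ h3] at s2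
    have := Subgroup.mul_mem _ s1 s2
    rwa [mul_assoc, ← mul_assoc (D.s v a _), D.s_sq v h3, one_mul] at this

theorem not_M1 : ¬ D.M1 := by
  rintro ⟨x, x₁, v, y, a, b, a', b', p₁, p₂, h, hab, hab', hf, m1, f2, m2⟩
  have hyv := h.a2
  have hvy := S.symm hyv
  have q1 := D.AmM_sQ h hab
  have q2 := D.AmM_sQ h hab'
  have z1 := D.s_mem x a b hab
  have z2 := D.s_mem x a' b' hab'
  obtain ⟨l, hl, hfix⟩ := D.AmM_few h hab' m2
  generalize D.s x a b = c₁ at *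
  generalize D.s x a' b' = c₂ at *
  have B1 := (D.act (y := y) q1 p₁).resolve_left m1
  have B2 := (D.act (y := y) q2 p₂).resolve_left m2
  have n1 : p₁ ≠ p₂ := fun e => m2 (e ▸ f2)
  have n2 : p₁ ≠ S.κ c₂ y p₂ := fun e => n1 ((S.κ c₂ y).injective (f2.trans e))
  have hM : ∀ y v, S.adj y v → S.TyM y v := by
    refine D.ty.resolve_right fun hD => ?_
    obtain ⟨e, e', -, he, hu⟩ := hD y v hyv p₁
    have hb : S.Bl y v p₂ p₁ := by
      rcases hu _ _ rfl B1 with e1 | e1 <;> rcases hu _ _ hf B2 with e2 | e2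
      · exact absurd (e1.trans e2.symm) n1
      · rw [e1, e2]; exact he.symm hyv
      · rw [e1, e2]; exact he
      · exact absurd (e1.trans e2.symm) n1
    exact n2 (D.two y v hyv _ _ _ hb B2)
  have c1y := S.Q_fix 2 hyv q1
  have c2y := S.Q_fix 2 hyv q2
  have t2 := ((D.act_bl hyv q2 B2).resolve_left fun hh => m2 hh.1).2
  have hquad : ∀ z ∈ D.AmMA y, cc c₁ (cc c₂ z) ∈ S.Z 2 y := by
    intro z hz
    have hx : z • x₁ = x₁ := D.AmMA_le (H := MulAction.stabilizer G x₁)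
      (fun g hg => (S.Q_le_K 2 x₁ (D.ZQ le_rfl (S.Dn_symm h.d1) hg)).1)
      (fun w hw g hg => D.hb.fix (Dn_snoc h.d1 hw) hg) hz
    have h1 : z * c₂⁻¹ * z⁻¹ ∈ S.Q 2 x :=
      D.ZQ2 (by simpa only [hx] using S.inv z h.a1) (S.symm h.a1)
        (AmM_cjZ (Subgroup.inv_mem _ z2))
    have h2 : cc c₂ z ∈ S.Q 2 x := by
      rw [show cc c₂ z = c₂ * (z * c₂⁻¹ * z⁻¹) by simp only [cc]; group]
      exact Subgroup.mul_mem _ z2.1 h1
    rw [cc, ← z1.2.2 _ h2]; simp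
  have V4 := D.wv4 y (D.AmMA y) (fun g hg => Subgroup.subset_closure (Or.inl hg))
    (fun g hg z hz => D.AmMA_conj hg hz) (fun z hz => D.AmMA_fix hz)
    (fun z hz z' hz' => D.AmMA_comm hz hz') (fun z hz => D.AmMA_sq hz)
    (fun q hq z hz => D.AmMA_cc hq hz) c₂ c₁ c2y c1y
    (by rw [← S.κ_mul' c1y, ← S.κ_mul' c2y, z1.2.2 _ z2.1]) p₂ _ p₁ (D.bl_D2 hyv B2) rfl t2 l hl
    (fun r _ hr => hfix r hr) hf.symm f2 m1 (D.bl_D2 hyv B1).fb hquad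
  generalize S.κ c₁ y p₁ = p₁' at *
  generalize S.κ c₂ y p₂ = p₂' at *
  obtain ⟨n3, n4⟩ := D.AmM_disj hyv B2 B1 n1 n2
  obtain ⟨q, hq, hκ⟩ := D.PT0 h hM hyv B2 B1 hf.symm (by simp [n1, n2])
  have h3 : D3 S.fib p₂ p₂' p₁ := ⟨B2.1, n1.symm, n2.symm, (D.bl_D2 hyv B2).fb, hf.symm⟩
  obtain ⟨g, hg⟩ := D.t_ex y v hyv _ _ _ h3
  have gy := S.EE_fix hg.1
  have gy' : g⁻¹ • y = y := by rw [inv_smul_eq_iff, gy]
  have qy := S.Q_fix 2 hyv hq
  have hqq : q * q ∈ S.Q 2 y := by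
    refine S.Q_inf_K 2 hyv ⟨Subgroup.mul_mem _ hq hq, (S.ker _ y (by rw [mul_smul, qy, qy])).1 ?_⟩
    rw [S.κ_mul' qy, hκ]
    have := B1.1; have := B2.1
    ext z; simp only [Perm.mul_apply, swap_apply_def, Perm.one_apply]; grind
  replace V4 := V4 q g p₂ p₂' p₁ p₁' rfl h3 ((D.bl_D2 hyv B1).fb.trans hf.symm)
    (by simp [n3, n4, B1.1.symm]) (S.Q_le_EE hyv hq) hqq hκ hg
  have ky : (g * q * g⁻¹) • y = y := by rw [mul_smul, mul_smul, gy', qy, gy]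
  have kv : (g * q * g⁻¹) • v = v := by
    refine D.AmM_b2 hyv B2 (B1.symm hyv) n3 n4 ky ?_
    have := S.κ_conj g qy
    rw [gy] at this
    rw [this, hκ, hg.2.1, mul_inv_eq_iff_eq_mul]
    have := B1.1; have := B2.1
    ext z; simp only [c3, Perm.mul_apply, swap_apply_def]; grind
  have kk : g * q * g⁻¹ * (g * q * g⁻¹) ∈ S.Q 2 y := by
    have := AmM_cjQ (k := g) hqq
    rw [gy] at this
    rwa [show g * q * g⁻¹ * (g * q * g⁻¹) = g * (q * q) * g⁻¹ by group]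
  have V5 : ∀ z ∈ D.AmMA y, z ∈ S.Z 2 v → cc (g * q * g⁻¹) z ∈ S.Z 2 y → cc g z ∈ S.Z 2 y :=
    fun z hz hz' hc => V4 z hz (by rw [cc, hz'.2.2 q hq]; simp) hc
  -- the conjugate centralises `[z, Q y]`
  have cen : ∀ z ∈ S.Z 2 v, cc g z ∈ S.Z 2 y → ∀ q' ∈ S.Q 2 y,
      g * q * g⁻¹ * cc q' z * (g * q * g⁻¹)⁻¹ = cc q' z := by
    intro z hz hc q' hq'
    have hζ : g⁻¹ * cc g z * g⁻¹⁻¹ ∈ S.Z 2 y := AmM_cjZ' gy' hc
    have hq'' : g⁻¹ * q' * g⁻¹⁻¹ ∈ S.Q 2 y := by simpa only [gy'] using AmM_cjQ (k := g⁻¹) hq'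
    have e0 : g⁻¹ * z * g = (g⁻¹ * cc g z * g⁻¹⁻¹)⁻¹ * z := by simp only [cc]; group
    have e1 : g⁻¹ * cc q' z * g = cc (g⁻¹ * q' * g⁻¹⁻¹) (g⁻¹ * z * g) := by
      simp only [cc]; group
    generalize g⁻¹ * cc g z * g⁻¹⁻¹ = ζ at *
    generalize g⁻¹ * q' * g⁻¹⁻¹ = q'' at *
    have e2 : cc q'' (ζ⁻¹ * z) = ζ⁻¹ * (q'' * z * q''⁻¹ * z⁻¹) * ζ⁻¹⁻¹ := by
      rw [cc, ← mul_assoc q'', (Subgroup.inv_mem _ hζ).2.2 _ hq'']; group
    have e3 : g⁻¹ * cc q' z * g ∈ S.Z 2 v := by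
      rw [e1, e0, e2]
      exact AmM_cjZ' (S.Q_fix 2 hvy (Subgroup.inv_mem _ hζ.1)) (Subgroup.mul_mem _
        (AmM_cjZ' (S.Q_fix 2 hvy hq'') hz) (Subgroup.inv_mem _ hz))
    rw [show g * q * g⁻¹ * cc q' z * (g * q * g⁻¹)⁻¹ = g * (q * (g⁻¹ * cc q' z * g)) * q⁻¹ * g⁻¹ by
      group, e3.2.2 q hq]
    group
  generalize g * q * g⁻¹ = k at *
  have hbl : ∀ α, S.κ k v α = α ∨ S.Bl v y α (S.κ k v α) := by
    intro α
    choose pt hpt using hM v y hvy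
    by_contra hc
    push Not at hc
    have c1 := hc.1
    have c2 : S.κ k v α ≠ pt α := fun e => hc.2 (e ▸ hpt α)
    obtain ⟨β, fβ, hβ⟩ := S.big.avoid α [α, pt α, (S.κ k v)⁻¹ α, (S.κ k v)⁻¹ (pt α)] (by simp)
    obtain ⟨ε, fε, hε⟩ := S.big.avoid α [α, pt α, β, pt β, S.κ k v α, pt (S.κ k v α),
      S.κ k v β, pt (S.κ k v β)] (by simp)
    simp only [List.mem_cons, List.not_mem_nil, not_or] at hβ hε
    obtain ⟨b1, b2, b3, b4, -⟩ := hβ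
    obtain ⟨e1, e2, e3, e4, e5, e6, e7, e8, -⟩ := hε
    have b3' : S.κ k v β ≠ α := fun e => b3 (by rw [← e]; simp)
    have b4' : S.κ k v β ≠ pt α := fun e => b4 (by rw [← e]; simp)
    have d0 := D.AmM_disj hvy (hpt α) (hpt ε) e1 e2
    have d1 := (D.AmM_disj hvy (hpt β) (hpt ε) e3 e4).1
    have d2 := (D.AmM_disj hvy (hpt _) (hpt ε) e5 e6).1
    have d3 := (D.AmM_disj hvy (hpt _) (hpt ε) e7 e8).1
    obtain ⟨q', hq', hκ'⟩ := D.PT0 h hM hvy (hpt α) (hpt ε) fε (by simp [e1, e2])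
    have q'v := S.Q_fix 2 hvy hq'
    have hαβ : D2 S.fib α β := ⟨(Ne.symm b1), fβ⟩
    have hαα := D.bl_D2 hvy (hpt α)
    have hαβ' := S.D2_map k v hαβ
    have k1 : S.κ q' v α = pt α := by
      rw [hκ', Perm.mul_apply, swap_apply_of_ne_of_ne (Ne.symm e1) d0.1.symm, swap_apply_left]
    have k2 : ∀ z, z ≠ α → z ≠ pt α → z ≠ ε → z ≠ pt ε → S.κ q' v z = z := fun z i1 i2 i3 i4 => by
      rw [hκ', Perm.mul_apply, swap_apply_of_ne_of_ne i3 i4, swap_apply_of_ne_of_ne i1 i2]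
    have s1 := D.s_mem v _ _ hαβ
    have s2 := D.s_mem v _ _ hαβ'
    have hz := Subgroup.mul_mem _ s1 s2
    have hk : cc k (D.s v α β * D.s v (S.κ k v α) (S.κ k v β)) ∈ S.Z 2 y := by
      have i1 := D.cc_Q hvy kk hαβ
      have i2 : k * D.s v α β * k⁻¹ = _ := D.s_conj kv hαβ
      have i3 := AmM_cjZ' kv s2
      rw [show cc k (D.s v α β * D.s v (S.κ k v α) (S.κ k v β)) = k * D.s v α β * k⁻¹ *
        (k * D.s v (S.κ k v α) (S.κ k v β) * k⁻¹) * (D.s v (S.κ k v α) (S.κ k v β))⁻¹ *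
        (D.s v α β)⁻¹ by simp only [cc]; group, i2, i3.2.2 _ s2.1, ← i2]
      convert i1 using 1
      simp only [cc]; group
    have := cen _ hz (V5 _ (Subgroup.mul_mem _ (D.AmMA_s hyv hαβ) (D.AmMA_s hyv hαβ')) hz hk) q' hq'
    have e : cc q' (D.s v α β * D.s v (S.κ k v α) (S.κ k v β)) = D.s v (pt α) α := by
      rw [show cc q' (D.s v α β * D.s v (S.κ k v α) (S.κ k v β)) = q' * D.s v α β * q'⁻¹ *
        (q' * D.s v (S.κ k v α) (S.κ k v β) * q'⁻¹) * (D.s v (S.κ k v α) (S.κ k v β))⁻¹ *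
        (D.s v α β)⁻¹ by simp only [cc]; group, D.s_conj q'v hαβ, D.s_conj q'v hαβ', k1,
        k2 β b1 b2 (Ne.symm e3) d1.symm, k2 _ c1 c2 (Ne.symm e5) d2.symm, k2 _ b3' b4' (Ne.symm e7) d3.symm,
        mul_inv_cancel_right, D.AmM_s_inv v hαβ, D.s_symm v α β hαβ]
      exact D.s_mul v _ _ _ ⟨(Ne.symm b2), hαα.ab.symm, b1, fβ.trans hαα.fb.symm, hαα.fb.symm⟩
    have hαα' : D2 S.fib (pt α) α := ⟨hαα.ab.symm, hαα.fb.symm⟩
    rw [e, D.s_conj kv hαα'] at this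
    rcases D.s_inj (S.D2_map k v hαα') hαα' this with i | i
    · exact c1 i.2
    · exact c2 i.2
  refine D.NCG h hyv gy (fun gv => ?_) fun e e' he =>
    V5 _ (D.AmMA_s hyv he) (D.s_mem v _ _ he) (D.AmM_blfix hvy kv hbl he)
  have := B2.smul hyv g
  rw [gy, gv, hg.2.1, c3_a h3.ab h3.ac, c3_b h3.ac h3.bc] at this
  exact n1 (D.two y v hyv _ _ _ this (B2.symm hyv))

end Ctx

end Alt

end Pool.Agent.MP_1d62fe_al.W

end

end

-- part MP_1d62fe_al.Alt.E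
section

-- part Am2
section

set_option autoImplicit false
set_option linter.unusedSectionVars false

namespace Pool.Agent.MP_1d62fe_al.W

open Equiv

namespace Alt

variable {G V Ω I : Type} [Group G] [MulAction G V] [Fintype Ω] [DecidableEq Ω] [DecidableEq I]
  [Finite G] {S : Alt G V Ω I} {n : ℕ}

namespace Ctx

variable (D : S.Ctx n)
include D

theorem Am2_D2s {a b : Ω} (h : D2 S.fib a b) : D2 S.fib b a := ⟨h.ab.symm, h.fb.symm⟩

theorem Am2_ZQ {x x₁ y' y : V} (h : S.CC n x x₁ y' y) : S.Z 2 x ≤ S.Q 2 y' :=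
  D.ZQ le_rfl (S.Dn_symm h.d2)

theorem Am2_fix {x x₁ y' y : V} (h : S.CC n x x₁ y' y) {a b : Ω} (hab : D2 S.fib a b) :
    D.s x a b • y = y :=
  S.Q_fix 2 h.a2 (D.Am2_ZQ h (D.s_mem x a b hab))

theorem Am2_inv (v : V) {a b : Ω} (h : D2 S.fib a b) : (D.s v a b)⁻¹ = D.s v a b :=
  inv_eq_of_mul_eq_one_right (D.s_sq v h)

theorem Am2_invol {g : G} {v : V} (hg : g • v = v) (h2 : g * g = 1) (a : Ω) :
    S.κ g v (S.κ g v a) = a := by
  have := S.κ_mul' (g := g) hg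
  rw [h2, S.κ_one] at this
  rw [← Perm.mul_apply, ← this, Perm.one_apply]

theorem Am2_map {σ : Perm Ω} (h : ∀ a, σ (σ a) = a) {p : Ω} {l : List Ω} (hp : σ p ∉ l) :
    p ∉ l.map σ := by
  intro hm
  obtain ⟨a, ha, rfl⟩ := List.mem_map.1 hm
  exact hp (by rwa [h])

theorem Am2_mv {x : V} {w : G} (hw : w • x = x) {a b : Ω} (hab : D2 S.fib a b)
    (hn : D.s x a b * w ≠ w * D.s x a b) : S.κ w x a ≠ a ∨ S.κ w x b ≠ b := by
  by_contra hh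
  push Not at hh
  have := D.s_conj hw hab
  rw [hh.1, hh.2, mul_inv_eq_iff_eq_mul] at this
  exact hn this.symm

theorem Am2_agree {x x₁ y' y : V} (h : S.CC n x x₁ y' y) {p₁ q₁ p₂ q₂ a b : Ω}
    (h1 : D2 S.fib p₁ q₁) (h2 : D2 S.fib p₂ q₂) (hab : S.fib b = S.fib a)
    (m1 : S.κ (D.s y p₁ q₁) x a ≠ a ∨ S.κ (D.s y p₁ q₁) x b ≠ b)
    (m2 : S.κ (D.s y p₂ q₂) x a ≠ a ∨ S.κ (D.s y p₂ q₂) x b ≠ b) :
    S.κ (D.s y p₁ q₁) x a = S.κ (D.s y p₂ q₂) x a := by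
  have h' := D.cc_symm h
  rcases D.act (y := x) (D.Am2_ZQ h' (D.s_mem y _ _ h1)) a with e1 | e1 <;>
    rcases D.act (y := x) (D.Am2_ZQ h' (D.s_mem y _ _ h2)) a with e2 | e2
  · rw [e1, e2]
  · exact (D.not_M1 ⟨y, y', x₁, x, p₂, q₂, p₁, q₁, a, b, h', h2, h1, hab, e2.1.symm, e1,
      m1.resolve_left (not_not.2 e1)⟩).elim
  · exact (D.not_M1 ⟨y, y', x₁, x, p₁, q₁, p₂, q₂, a, b, h', h1, h2, hab, e1.1.symm, e2,
      m2.resolve_left (not_not.2 e2)⟩).elim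
  · exact D.two x x₁ h.a1 a _ _ e1 e2

/-- T1a -/
theorem T1a {x x₁ y' y : V} (h : S.CC n x x₁ y' y) {a b : Ω} (hab : D2 S.fib a b)
    (hc : D.s x a b ∉ S.Q 2 y) : ∃ β β', S.Bl y y' β β' ∧ S.κ (D.s x a b) y = swap β β' := by
  have hcQ := D.Am2_ZQ h (D.s_mem x a b hab)
  have hcy := D.Am2_fix h hab
  have hinv := D.Am2_invol hcy (D.s_sq x hab)
  obtain ⟨p₁, hp₁⟩ := D.exists_moved h.a2 hcQ hc
  refine ⟨p₁, _, (D.act hcQ p₁).resolve_left hp₁, ?_⟩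
  by_contra hne
  obtain ⟨p₂, hp₂⟩ : ∃ p₂, S.κ (D.s x a b) y p₂ ≠ swap p₁ (S.κ (D.s x a b) y p₁) p₂ := by
    by_contra hh
    push Not at hh
    exact hne (Equiv.ext hh)
  have e1 : p₂ ≠ p₁ := by
    rintro rfl
    exact hp₂ (swap_apply_left _ _).symm
  have e2 : p₂ ≠ S.κ (D.s x a b) y p₁ := by
    rintro rfl
    exact hp₂ (by rw [hinv, swap_apply_right])
  rw [swap_apply_of_ne_of_ne e1 e2] at hp₂
  obtain ⟨q₁, f1, hq₁⟩ := S.big.avoid p₁ [p₁, S.κ (D.s x a b) y p₁] (by simp)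
  obtain ⟨q₂, f2, hq₂⟩ := S.big.avoid p₂ [p₁, S.κ (D.s x a b) y p₁, p₂, S.κ (D.s x a b) y p₂]
    (by simp)
  simp only [List.mem_cons, List.not_mem_nil, not_or] at hq₁ hq₂
  have d1 : D2 S.fib p₁ q₁ := ⟨Ne.symm hq₁.1, f1⟩
  have d2 : D2 S.fib p₂ q₂ := ⟨Ne.symm hq₂.2.2.1, f2⟩
  have n1 := D.ind hcy d1 (D.av_one y []) (by simp) (by simp) (D.Am2_map hinv (by
    simp only [List.mem_cons, List.not_mem_nil, not_or]
    exact ⟨hp₁, Ne.symm hq₁.2.1, not_false⟩))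
  have n2 := D.ind hcy d2 (D.av_one y []) (by simp) (by simp) (D.Am2_map hinv (by
    simp only [List.mem_cons, List.not_mem_nil, not_or]
    exact ⟨hp₂, Ne.symm hq₂.2.2.2.1, not_false⟩))
  have n3 := D.ind hcy d1 (D.av_s y d2) (by simp) (by
    simp only [List.mem_cons, List.not_mem_nil, not_or]
    exact ⟨e1.symm, Ne.symm hq₂.1, not_false⟩) (D.Am2_map hinv (by
    simp only [List.mem_cons, List.not_mem_nil, not_or]
    exact ⟨hp₁, Ne.symm hq₁.2.1, e2.symm, Ne.symm hq₂.2.1, not_false⟩))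
  rw [mul_one] at n1 n2
  have h' := D.cc_symm h
  have x1 := D.Am2_fix h' d1
  have x2 := D.Am2_fix h' d2
  have m1 := D.Am2_mv x1 hab n1
  have m2 := D.Am2_mv x2 hab n2
  have m3 := D.Am2_mv (w := D.s y p₁ q₁ * D.s y p₂ q₂) (by rw [mul_smul, x2, x1]) hab n3
  have i1 := D.Am2_invol x1 (D.s_sq y d1)
  rw [S.κ_mul' x2, Perm.mul_apply, Perm.mul_apply, ← D.Am2_agree h d1 d2 hab.fb m1 m2,
    ← D.Am2_agree h d1 d2 hab.fb.symm m1.symm m2.symm, i1, i1] at m3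
  simp at m3

theorem PT1 {x x₁ y' y : V} (h : S.CC n x x₁ y' y) {u v : V} (huv : S.adj u v) {a a' : Ω}
    (ha : S.Bl u v a a') : ∃ q ∈ S.Q 2 v, q * q = 1 ∧ S.κ q u = swap a a' := by
  obtain ⟨a₀, b₀, hab, hc⟩ := D.exists_duad h
  obtain ⟨β, β', hβ, hκ⟩ := D.T1a h hab hc
  obtain ⟨g, g1, g2, g3⟩ := D.trb y y' u v h.a2 huv β β' a a' hβ ha
  have hb := hβ.smul h.a2 g
  rw [g1, g2] at hb
  refine ⟨g * D.s x a₀ b₀ * g⁻¹, ?_, ?_, ?_⟩
  · rw [← g2, ← S.cj_Q]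
    exact conj_mem_cj.2 (D.Am2_ZQ h (D.s_mem x _ _ hab))
  · rw [show g * D.s x a₀ b₀ * g⁻¹ * (g * D.s x a₀ b₀ * g⁻¹) =
      g * (D.s x a₀ b₀ * D.s x a₀ b₀) * g⁻¹ by group, D.s_sq x hab, mul_one, mul_inv_cancel]
  · rw [← g1, S.κ_conj g (D.Am2_fix h hab), hκ, ← swap_apply_apply]
    rcases g3 with e | e
    · rw [e] at hb ⊢
      rw [D.two u v huv a _ _ hb ha]
    · rw [e] at hb ⊢
      rw [D.two u v huv a' _ _ hb (ha.symm huv), swap_comm]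

theorem Am2_comm {x y : V} {a a' ε b δ : Ω} (h1 : D3 S.fib a ε a') (h2 : D2 S.fib b δ)
    (hx : D.s y b δ • x = x) (hy : D.s x a ε • y = y) (hκ : S.κ (D.s y b δ) x = swap a a') :
    D.s x a a' * D.s y b δ = D.s y (S.κ (D.s x a ε) y b) (S.κ (D.s x a ε) y δ) := by
  have d1 : D2 S.fib a ε := ⟨h1.ab, h1.fb⟩
  have e1 := D.s_conj hx d1
  rw [hκ, swap_apply_left, swap_apply_of_ne_of_ne h1.ab.symm h1.bc] at e1
  rw [← D.s_conj hy h2, ← D.s_mul x a ε a' h1,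
    D.s_symm x ε a' ⟨h1.bc, h1.fc.trans h1.fb.symm⟩, ← e1, D.Am2_inv x d1]
  group

theorem Am2_case {a a' α α' : Ω} (h : α ≠ α') (m : swap a a' α ≠ α ∨ swap a a' α' ≠ α')
    (m' : swap a a' α ≠ α') :
    ((α = a ∧ α' ∉ [a, a']) ∨ (α' = a ∧ α ∉ [a, a'])) ∨
      ((α = a' ∧ α' ∉ [a', a]) ∨ (α' = a' ∧ α ∉ [a', a])) := by
  simp only [swap_apply_def, List.mem_cons, List.not_mem_nil, not_or] at *
  grind

theorem Am2_swap {e e' b b' : Ω} (h : b ≠ b') (m : swap e e' b = b') : swap e e' = swap b b' := by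
  ext z
  simp only [swap_apply_def] at *
  grind

theorem Am2_core {x x₁ y' y : V} (h : S.CC n x x₁ y' y) {a a' ε₀ b b' δ : Ω}
    (ha : S.Bl x x₁ a a') (hb : S.Bl y y' b b') (f0 : S.fib ε₀ = S.fib a) (n0 : ε₀ ∉ [a, a'])
    (fδ : S.fib δ = S.fib b) (nδ : δ ∉ [b, b']) (k1 : S.κ (D.s x a ε₀) y = swap b b')
    (k2 : S.κ (D.s y b δ) x = swap a a') :
    D.InL y y' (D.s x a a') ∧
      ∀ ε ε', D2 S.fib ε ε' → S.fib ε = S.fib a → ε ∉ [a, a'] → ε' ∉ [a, a'] →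
        D.s x ε ε' ∈ S.Q 2 y := by
  have da := D.bl_D2 h.a1 ha
  have db := D.bl_D2 h.a2 hb
  simp only [List.mem_cons, List.not_mem_nil, not_or] at n0 nδ ⊢
  have dδ : D2 S.fib b δ := ⟨Ne.symm nδ.1, fδ⟩
  have dδ' : D2 S.fib b' δ := ⟨Ne.symm nδ.2.1, fδ.trans db.fb.symm⟩
  have hx := D.Am2_fix (D.cc_symm h) dδ
  have cm : ∀ ε, S.fib ε = S.fib a → ε ≠ a → ε ≠ a' → D.s x a a' * D.s y b δ =
      D.s y (S.κ (D.s x a ε) y b) (S.κ (D.s x a ε) y δ) := fun ε f n1 n2 =>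
    D.Am2_comm ⟨n1.symm, da.ab, n2, f, da.fb⟩ dδ hx (D.Am2_fix h ⟨n1.symm, f⟩) k2
  have c0 := cm ε₀ f0 n0.1 n0.2.1
  rw [k1, swap_apply_left, swap_apply_of_ne_of_ne nδ.1 nδ.2.1] at c0
  have kk : ∀ ε, S.fib ε = S.fib a → ε ≠ a → ε ≠ a' → S.κ (D.s x a ε) y = swap b b' := by
    intro ε f n1 n2
    have d : D2 S.fib a ε := ⟨n1.symm, f⟩
    have c1 := cm ε f n1 n2
    rw [c0] at c1
    have iv := D.Am2_invol (D.Am2_fix h d) (D.s_sq x d)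
    have e : S.κ (D.s x a ε) y b = b' := by
      rcases D.s_inj dδ' (S.D2_map _ y dδ) c1 with e | e
      · exact e.1.symm
      · have := iv b
        rw [← e.2, ← e.1] at this
        exact (db.ab this.symm).elim
    have hq : D.s x a ε ∉ S.Q 2 y := fun hq => by
      rw [(S.ker _ y (D.Am2_fix h d)).2 (S.Q_le_K 2 y hq)] at e
      exact db.ab e
    obtain ⟨e₁, e₂, -, k⟩ := D.T1a h d hq
    rw [k] at e ⊢
    exact D.Am2_swap db.ab e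
  refine ⟨⟨b', b, hb.symm h.a2, ?_⟩, fun ε ε' d f n1 n2 => ?_⟩
  · rw [← D.s_mul y b' δ b ⟨dδ'.ab, db.ab.symm, nδ.1, dδ'.fb, db.fb.symm⟩, ← c0,
      D.s_symm y δ b (D.Am2_D2s dδ), mul_assoc, D.s_sq y dδ, mul_one]
  · have f' := d.fb.trans f
    refine S.Q_inf_K 2 h.a2 ⟨D.Am2_ZQ h (D.s_mem x _ _ d), (S.ker _ y (D.Am2_fix h d)).1 ?_⟩
    rw [← D.s_mul x ε a ε' ⟨n1.1, d.ab, Ne.symm n2.1, f.symm, d.fb⟩,
      S.κ_mul' (D.Am2_fix h ⟨Ne.symm n2.1, f'⟩), D.s_symm x ε a ⟨n1.1, f.symm⟩,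
      kk ε f n1.1 n1.2.1, kk ε' f' n2.1 n2.2.1, swap_mul_self]

/-- T1b -/
theorem T1b {x x₁ y' y : V} (h : S.CC n x x₁ y' y) {α α' : Ω} (hα : D2 S.fib α α')
    (hc : D.s x α α' ∉ S.Q 2 y) :
    ∃ a a', S.Bl x x₁ a a' ∧ ((α = a ∧ α' ∉ [a, a']) ∨ (α' = a ∧ α ∉ [a, a'])) ∧
      D.InL y y' (D.s x a a') ∧
      (∀ ε ε', D2 S.fib ε ε' → S.fib ε = S.fib a → ε ∉ [a, a'] → ε' ∉ [a, a'] →
        D.s x ε ε' ∈ S.Q 2 y) ∧
      ∃ β δ, D2 S.fib β δ ∧ D.s y β δ ∉ S.Q 2 x ∧ S.κ (D.s y β δ) x = swap a a' := by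
  obtain ⟨b, b', hb, k1⟩ := D.T1a h hα hc
  have db := D.bl_D2 h.a2 hb
  obtain ⟨δ, fδ, nδ⟩ := S.big.avoid b [b, b'] (by simp)
  have nδ' := nδ
  simp only [List.mem_cons, List.not_mem_nil, not_or] at nδ'
  have dδ : D2 S.fib b δ := ⟨Ne.symm nδ'.1, fδ⟩
  have h' := D.cc_symm h
  have hx := D.Am2_fix h' dδ
  have nc : D.s x α α' * D.s y b δ ≠ D.s y b δ * D.s x α α' := fun e => by
    have := D.s_conj (D.Am2_fix h hα) dδ
    rw [e, mul_inv_cancel_right, k1, swap_apply_left,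
      swap_apply_of_ne_of_ne nδ'.1 nδ'.2.1] at this
    rcases D.s_inj dδ ⟨Ne.symm nδ'.2.1, fδ.trans db.fb.symm⟩ this with e | e
    · exact db.ab e.1
    · exact dδ.ab e.1
  have hq : D.s y b δ ∉ S.Q 2 x := fun hq => nc ((D.s_mem x _ _ hα).2.2 _ hq).symm
  obtain ⟨a₀, a₁, ha₀, k₀⟩ := D.T1a h' dδ hq
  have m := D.Am2_mv hx hα nc
  have m' : S.κ (D.s y b δ) x α ≠ α' := fun e => by
    have := D.s_conj hx hα
    have iv := D.Am2_invol hx (D.s_sq y dδ) α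
    rw [e] at iv
    rw [e, iv, ← D.s_symm x α α' hα, mul_inv_eq_iff_eq_mul] at this
    exact nc this.symm
  obtain ⟨a, a', ha, k2, hh⟩ : ∃ a a', S.Bl x x₁ a a' ∧ S.κ (D.s y b δ) x = swap a a' ∧
      ((α = a ∧ α' ∉ [a, a']) ∨ (α' = a ∧ α ∉ [a, a'])) := by
    rw [k₀] at m m'
    rcases D.Am2_case hα.ab m m' with e | e
    · exact ⟨a₀, a₁, ha₀, k₀, e⟩
    · exact ⟨a₁, a₀, ha₀.symm h.a1, k₀.trans (swap_comm _ _), e⟩
  have key : D.InL y y' (D.s x a a') ∧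
      ∀ ε ε', D2 S.fib ε ε' → S.fib ε = S.fib a → ε ∉ [a, a'] → ε' ∉ [a, a'] →
        D.s x ε ε' ∈ S.Q 2 y := by
    rcases hh with ⟨rfl, e⟩ | ⟨rfl, e⟩
    · exact D.Am2_core h ha hb hα.fb e fδ nδ k1 k2
    · exact D.Am2_core h ha hb hα.fb.symm e fδ nδ (by rwa [← D.s_symm x _ _ hα]) k2
  exact ⟨a, a', ha, hh, key.1, key.2, b, δ, dδ, hq, k2⟩

theorem Am2_cc {x : V} {g : G} (hg : g • x = x) {p q : Ω} (h : D2 S.fib p q) :
    cc (D.s x p q) g = D.s x p q * D.s x (S.κ g x p) (S.κ g x q) := by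
  rw [← D.s_conj hg h, cc, D.Am2_inv x h]
  group

theorem Am2_stepS {x x₁ y v : V} (h : S.adj x x₁) {a a' α : Ω} (ha : S.Bl x x₁ a a')
    (f : S.fib α = S.fib a) (nα : α ∉ [a, a']) (hL : D.s x a a' ∈ S.Z 2 y)
    (hQ : ∀ ε ε', D2 S.fib ε ε' → S.fib ε = S.fib a → ε ∉ [a, a'] → ε' ∉ [a, a'] →
      D.s x ε ε' ∈ S.Q 2 y) (hv : S.adj y v) {ε ε' : Ω} (hε : D2 S.fib ε ε')
    (hg : D.s v ε ε' ∈ S.Q 2 x₁) : cc (D.s x a α) (D.s v ε ε') ∈ S.Z 2 y := by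
  have da := D.bl_D2 h ha
  have gx := S.Q_fix 2 h hg
  have iv := D.Am2_invol gx (D.s_sq v hε)
  have fp := D.fp x x₁ h _ hg
  have ab := D.act_bl h hg ha
  have ccQ := fun q hq => D.cc_Q (q := q) (S.symm hv) hq hε
  have pg := fun w₁ w₂ w₃ h1 h2 h3 => D.pig3 (w₁ := w₁) (w₂ := w₂) (w₃ := w₃) (S.symm hv) h1 h2 h3 hε
  generalize D.s v ε ε' = g at *
  simp only [List.mem_cons, List.not_mem_nil, not_or] at nα hQ
  have d : D2 S.fib a α := ⟨Ne.symm nα.1, f⟩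
  obtain ⟨β, hβ⟩ : ∃ β, S.κ g x α = β := ⟨_, rfl⟩
  have hβ' : S.κ g x β = α := by rw [← hβ, iv]
  have fβ : S.fib β = S.fib a := by rw [← hβ, fp, f]
  have n1 : β ≠ a := by
    rintro rfl
    rcases ab with e | e
    · exact nα.1 (hβ'.symm.trans e.1)
    · exact nα.2.1 (hβ'.symm.trans e.1)
  have n2 : β ≠ a' := by
    rintro rfl
    rcases ab with e | e
    · exact nα.2.1 (hβ'.symm.trans e.2)
    · exact nα.1 (hβ'.symm.trans e.2)
  have T : D.s x a α * D.s x a β ∈ S.Z 2 y := by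
    by_cases e : α = β
    · rw [← e, D.s_sq x d]
      exact Subgroup.one_mem _
    rw [D.s_symm x a α d, D.s_mul x α a β ⟨nα.1, e, n1.symm, f.symm, fβ.trans f.symm⟩]
    by_contra hZ
    have mv : ∀ ζ, S.fib ζ = S.fib a → ζ ≠ a → ζ ≠ a' → ζ ≠ α → ζ ≠ β → S.κ g x ζ ≠ ζ := by
      intro ζ fζ m1 m2 m3 m4 e'
      have dζ : D2 S.fib α ζ := ⟨m3.symm, fζ.trans f.symm⟩
      have := ccQ _ (hQ α ζ dζ f nα ⟨m1, m2, not_false⟩)
      rw [D.Am2_cc gx dζ, hβ, e', D.s_symm x β ζ ⟨m4.symm, fζ.trans fβ.symm⟩,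
        D.s_mul x α ζ β ⟨m3.symm, e, m4, dζ.fb, fβ.trans f.symm⟩] at this
      exact hZ this
    obtain ⟨ζ₁, f1, z1⟩ := S.big.avoid a [a, a', α, β] (by simp)
    obtain ⟨ζ₂, f2, z2⟩ := S.big.avoid a [a, a', α, β, ζ₁, S.κ g x ζ₁] (by simp)
    obtain ⟨ζ₃, f3, z3⟩ := S.big.avoid a [a, a', α, β, ζ₁, S.κ g x ζ₁, ζ₂, S.κ g x ζ₂] (by simp)
    simp only [List.mem_cons, List.not_mem_nil, not_or] at z1 z2 z3
    have d1 : D2 S.fib ζ₁ α := ⟨z1.2.2.1, f.trans f1.symm⟩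
    have d2 : D2 S.fib ζ₂ α := ⟨z2.2.2.1, f.trans f2.symm⟩
    have d3 : D2 S.fib ζ₃ α := ⟨z3.2.2.1, f.trans f3.symm⟩
    have m1 := mv ζ₁ f1 z1.1 z1.2.1 z1.2.2.1 z1.2.2.2.1
    have m2 := mv ζ₂ f2 z2.1 z2.2.1 z2.2.2.1 z2.2.2.2.1
    have m3 := mv ζ₃ f3 z3.1 z3.2.1 z3.2.2.1 z3.2.2.2.1
    have i2 := iv ζ₂
    have i3 := iv ζ₃
    refine D.ind3 gx d1 d2 d3 ?_ ?_ ?_ (pg _ _ _ (hQ _ _ d1 f1 ⟨z1.1, z1.2.1, not_false⟩ nα)
      (hQ _ _ d2 f2 ⟨z2.1, z2.2.1, not_false⟩ nα) (hQ _ _ d3 f3 ⟨z3.1, z3.2.1, not_false⟩ nα))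
    · simp only [List.nodup_cons, List.mem_cons, List.not_mem_nil, not_or, List.nodup_nil]
      grind
    · simp only [List.mem_cons, List.not_mem_nil, not_or]
      grind
    · simp only [List.map, List.mem_cons, List.not_mem_nil, not_or, hβ]
      grind
  rw [D.Am2_cc gx d, hβ]
  rcases ab with e | e
  · rwa [e.1]
  · rw [e.1, D.s_symm x a' β ⟨n2.symm, fβ.trans da.fb.symm⟩,
      ← D.s_mul x β a a' ⟨n1, n2, da.ab, fβ.symm, da.fb.trans fβ.symm⟩,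
      D.s_symm x β a ⟨n1, fβ.symm⟩, ← mul_assoc]
    exact Subgroup.mul_mem _ T hL

/-- Step S -/
theorem stepS {x x₁ y' y : V} (h : S.CC n x x₁ y' y) {α α' : Ω} (hα : D2 S.fib α α')
    (hc : D.s x α α' ∉ S.Q 2 y) {v : V} (hv : S.adj y v) {ε ε' : Ω} (hε : D2 S.fib ε ε')
    (hg : D.s v ε ε' ∈ S.Q 2 x₁) : cc (D.s x α α') (D.s v ε ε') ∈ S.Z 2 y := by
  obtain ⟨a, a', ha, hh, hL, hQ, -⟩ := D.T1b h hα hc
  rcases hh with ⟨rfl, e⟩ | ⟨rfl, e⟩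
  · exact D.Am2_stepS h.a1 ha hα.fb e (hL.mem h.a2).1 hQ hv hε hg
  · rw [D.s_symm x _ _ hα]
    exact D.Am2_stepS h.a1 ha hα.fb.symm e (hL.mem h.a2).1 hQ hv hε hg

/-- hot pairs -/
def Hot (c : G) (y v : V) (ε ε₂ : Ω) : Prop :=
  S.adj y v ∧ c • v ≠ v ∧ D2 S.fib ε ε₂ ∧ ∀ ζ, S.fib ζ = S.fib ε → ζ ∉ [ε, ε₂] →
    cc c (D.s v ε ζ) ∉ S.Z 2 y ∧ cc c (D.s v ε₂ ζ) ∉ S.Z 2 y

variable {D} in
theorem Hot.smul {c : G} {y v : V} {ε ε₂ : Ω} (h : D.Hot c y v ε ε₂) (g : G) :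
    D.Hot (g * c * g⁻¹) (g • y) (g • v) (S.κ g v ε) (S.κ g v ε₂) := by
  obtain ⟨h1, h2, h3, h4⟩ := h
  refine ⟨S.inv g h1, ?_, S.D2_map g v h3, fun ζ f m => ?_⟩
  · rw [mul_smul, mul_smul, inv_smul_smul]
    exact fun e => h2 (MulAction.injective g e)
  · obtain ⟨ζ, rfl⟩ := (S.κ g v).surjective ζ
    have f' : S.fib ζ = S.fib ε := by
      have := S.fibp g⁻¹ (g • v) _ _ f
      simpa [S.κ_inv] using this
    simp only [List.mem_cons, List.not_mem_nil, not_or, EmbeddingLike.apply_eq_iff_eq] at m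
    have key : ∀ η, D2 S.fib η ζ → cc c (D.s v η ζ) ∉ S.Z 2 y →
        cc (g * c * g⁻¹) (D.s (g • v) (S.κ g v η) (S.κ g v ζ)) ∉ S.Z 2 (g • y) := by
      intro η d hn hm
      rw [D.s_eqv g v η ζ d, ← S.cj_Z, show cc (g * c * g⁻¹) (g * D.s v η ζ * g⁻¹) =
        g * cc c (D.s v η ζ) * g⁻¹ by simp only [cc]; group, conj_mem_cj] at hm
      exact hn hm
    have := h4 ζ f' (by simp only [List.mem_cons, List.not_mem_nil, not_or]; exact m)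
    exact ⟨key ε ⟨Ne.symm m.1, f'⟩ this.1, key ε₂ ⟨Ne.symm m.2.1, f'.trans h3.fb.symm⟩ this.2⟩

variable {D} in
theorem Hot.congr {c c' : G} {y v : V} {ε ε₂ : Ω} (h : D.Hot c y v ε ε₂)
    (hc : c • y = y) (e : c⁻¹ * c' ∈ S.Q 2 y) : D.Hot c' y v ε ε₂ := by
  obtain ⟨h1, h2, h3, h4⟩ := h
  obtain ⟨q, rfl⟩ : ∃ q, c' = c * q := ⟨c⁻¹ * c', by group⟩
  rw [inv_mul_cancel_left] at e
  refine ⟨h1, by rwa [mul_smul, (S.Q_le_K 2 y e).2 v h1], h3, fun ζ f m => ?_⟩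
  have key : ∀ η, D2 S.fib η ζ → cc c (D.s v η ζ) ∉ S.Z 2 y →
      cc (c * q) (D.s v η ζ) ∉ S.Z 2 y := by
    intro η d hn hm
    have h5 := conj_mem_of_cj_eq (g := c) (by rw [S.cj_Z, hc]) (D.cc_Q (S.symm h1) e d)
    rw [show cc (c * q) (D.s v η ζ) = c * cc q (D.s v η ζ) * c⁻¹ * cc c (D.s v η ζ) by
      simp only [cc]; group, Subgroup.mul_mem_cancel_left _ h5] at hm
    exact hn hm
  have := h4 ζ f m
  simp only [List.mem_cons, List.not_mem_nil, not_or] at m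
  exact ⟨key ε ⟨Ne.symm m.1, f⟩ this.1, key ε₂ ⟨Ne.symm m.2.1, f.trans h3.fb.symm⟩ this.2⟩

theorem Am2_CC {x₁ x₂ y v : V} (h1 : S.adj x₁ x₂) (h2 : Dn S.adj (n - 1) x₂ y)
    (hv : S.adj y v) {g : G} (hg : g ∈ S.Z 2 v) (hq : g ∉ S.Q 2 x₁) : S.CC n v y x₂ x₁ := by
  have e : n = n - 1 + 1 := by have := D.h2; omega
  refine ⟨S.symm hv, S.Dn_symm ?_, h1, ?_, fun hle => hq (hle hg)⟩
  · rw [e]
    exact ⟨x₂, h1, h2⟩
  · rw [e]
    exact Dn_snoc h2 hv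

theorem Am2_ccmul {c u u' : G} {y : V} (hu : u • y = y) (h : cc c u ∈ S.Z 2 y)
    (h' : cc c u' ∈ S.Z 2 y) : cc c (u * u') ∈ S.Z 2 y := by
  rw [show cc c (u * u') = cc c u * (u * cc c u' * u⁻¹) by simp only [cc]; group]
  exact Subgroup.mul_mem _ h (conj_mem_of_cj_eq (by rw [S.cj_Z, hu]) h')

theorem hot_ex {x x₁ y' y : V} (h : S.CC n x x₁ y' y) {α α' : Ω} (hα : D2 S.fib α α')
    (hc : D.s x α α' ∉ S.Q 2 y) {v : V} (hv : S.adj y v) (hm : D.s x α α' • v ≠ v) :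
    ∃ ε ε₂, D.Hot (D.s x α α') y v ε ε₂ := by
  have hcy := D.Am2_fix h hα
  obtain ⟨a, b, hab, hn⟩ : ∃ a b, D2 S.fib a b ∧ cc (D.s x α α') (D.s v a b) ∉ S.Z 2 y := by
    by_contra hh
    push Not at hh
    exact D.NCG h hv hcy hm hh
  have hq : D.s v a b ∉ S.Q 2 x₁ := fun hq => hn (D.stepS h hα hc hv hab hq)
  obtain ⟨x₂, h1, h2⟩ : Dn S.adj (n - 1 + 1) x₁ y := by
    have e : n - 1 + 1 = n := by have := D.h2; omega
    rw [e]
    exact h.d1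
  obtain ⟨e, e', he, hh, -, hQ, -⟩ := D.T1b (D.Am2_CC h1 h2 hv (D.s_mem v a b hab) hq) hab hq
  have de := D.bl_D2 (S.symm hv) he
  have fx : ∀ p q, D2 S.fib p q → D.s v p q • y = y := fun p q d =>
    S.Q_fix 2 hv (D.s_mem v p q d).1
  obtain ⟨b, fb, nb, hn⟩ : ∃ b, S.fib b = S.fib e ∧ b ∉ [e, e'] ∧
      cc (D.s x α α') (D.s v e b) ∉ S.Z 2 y := by
    rcases hh with ⟨rfl, m⟩ | ⟨rfl, m⟩
    · exact ⟨b, hab.fb, m, hn⟩
    · exact ⟨a, hab.fb.symm, m, by rwa [← D.s_symm v _ _ hab]⟩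
  refine ⟨e, e', hv, hm, de, fun ζ f m => ?_⟩
  have m' := m
  have nb' := nb
  simp only [List.mem_cons, List.not_mem_nil, not_or] at m' nb'
  have k : cc (D.s x α α') (D.s v e ζ) ∉ S.Z 2 y := fun hz => by
    by_cases eb : ζ = b
    · exact hn (eb ▸ hz)
    have d : D2 S.fib ζ b := ⟨eb, fb.trans f.symm⟩
    have := D.Am2_ccmul (fx e ζ ⟨Ne.symm m'.1, f⟩) hz (D.stepS h hα hc hv d (hQ ζ b d f m nb))
    rw [D.s_mul v e ζ b ⟨Ne.symm m'.1, Ne.symm nb'.1, eb, f, fb⟩] at this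
    exact hn this
  refine ⟨k, fun hz => k ?_⟩
  have hL := (InL.mem (D := D) (S.symm hv) ⟨e, e', he, rfl⟩).2
  have h0 : cc (D.s x α α') (D.s v e e') ∈ S.Z 2 y :=
    Subgroup.mul_mem _ (conj_mem_of_cj_eq (by rw [S.cj_Z, hcy]) hL) (Subgroup.inv_mem _ hL)
  have := D.Am2_ccmul (fx e e' de) h0 hz
  rwa [D.s_mul v e e' ζ ⟨de.ab, Ne.symm m'.1, Ne.symm m'.2.1, de.fb, f⟩] at this

theorem hot_spec {x x₁ y' y : V} (h : S.CC n x x₁ y' y) {α α' : Ω} (hα : D2 S.fib α α')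
    (hc : D.s x α α' ∉ S.Q 2 y) {x₂ : V} (h1 : S.adj x₁ x₂) (h2 : Dn S.adj (n - 1) x₂ y)
    {v : V} {ε ε₂ : Ω} (hh : D.Hot (D.s x α α') y v ε ε₂) :
    S.CC n x₁ x₂ y v ∧ S.Bl v y ε ε₂ ∧ D.InL x₁ x₂ (D.s v ε ε₂) ∧
      ∃ β δ, D2 S.fib β δ ∧ D.s x₁ β δ ∉ S.Q 2 v ∧ S.κ (D.s x₁ β δ) v = swap ε ε₂ := by
  obtain ⟨hv, -, d, hH⟩ := hh
  obtain ⟨ζ, fζ, nζ⟩ := S.big.avoid ε [ε, ε₂] (by simp)
  have dζ : D2 S.fib ε ζ := ⟨fun e => nζ (by simp [e]), fζ⟩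
  have hq : D.s v ε ζ ∉ S.Q 2 x₁ := fun hq => (hH ζ fζ nζ).1 (D.stepS h hα hc hv dζ hq)
  have hC := D.Am2_CC h1 h2 hv (D.s_mem v _ _ dζ) hq
  obtain ⟨e, e', he, hh, hL, hQ, β, δ, r1, r2, r3⟩ := D.T1b hC dζ hq
  have fe : S.fib ε = S.fib e := by
    rcases hh with ⟨rfl, -⟩ | ⟨rfl, -⟩
    · rfl
    · exact fζ.symm
  obtain ⟨η, fη, nη⟩ := S.big.avoid ε [ε, ε₂, e, e'] (by simp)
  simp only [List.mem_cons, List.not_mem_nil, not_or] at nη
  have hη := hH η fη (by simp [nη.1, nη.2.1])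
  have nη' : η ∉ [e, e'] := by simp [nη.2.2.1, nη.2.2.2.1]
  have m1 : ε ∈ [e, e'] := by
    by_contra m
    have d' : D2 S.fib ε η := ⟨Ne.symm nη.1, fη⟩
    exact hη.1 (D.stepS h hα hc hv d' (hQ _ _ d' fe m nη'))
  have m2 : ε₂ ∈ [e, e'] := by
    by_contra m
    have d' : D2 S.fib ε₂ η := ⟨Ne.symm nη.2.1, fη.trans d.fb.symm⟩
    exact hη.2 (D.stepS h hα hc hv d' (hQ _ _ d' (d.fb.trans fe) m nη'))
  simp only [List.mem_cons, List.not_mem_nil, or_false] at m1 m2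
  have hd := d.ab
  obtain ⟨rfl, rfl⟩ | ⟨rfl, rfl⟩ : (e = ε ∧ e' = ε₂) ∨ (e = ε₂ ∧ e' = ε) := by grind
  · exact ⟨D.cc_symm hC, he, hL, β, δ, r1, r2, r3⟩
  · exact ⟨D.cc_symm hC, he.symm (S.symm hv), by rwa [D.s_symm v _ _ d], β, δ, r1, r2,
      r3.trans (swap_comm _ _)⟩

end Ctx

end Alt

end Pool.Agent.MP_1d62fe_al.W

end

-- part Am3
section

set_option autoImplicit false
set_option linter.unusedSectionVars false

namespace Pool.Agent.MP_1d62fe_al.W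

open Equiv

namespace Alt

variable {G V Ω I : Type} [Group G] [MulAction G V] [Fintype Ω] [DecidableEq Ω] [DecidableEq I]
  [Finite G] {S : Alt G V Ω I} {n : ℕ}

namespace Ctx

variable (D : S.Ctx n)
include D

/-- Sh -/
theorem Sh {y u w : V} (huw : S.adj u w) {ρ g g' : G} (hρ : ρ ∈ S.Z 2 y) {a b c d e f : Ω}
    (h1 : D3 S.fib a b c) (h2 : D3 S.fib d e f) (t1 : S.IsT y g a b c) (t2 : S.IsT y g' d e f)
    (n1 : d ∉ [a, b, c]) (n2 : e ∉ [a, b, c]) (n3 : f ∉ [a, b, c]) (l0 : D.InL u w ρ)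
    (l1 : D.InL u w (g * ρ * g⁻¹)) (l2 : D.InL u w (g' * ρ * g'⁻¹))
    (l3 : D.InL u w (g' * (g * ρ * g⁻¹) * g'⁻¹)) : g * ρ = ρ * g ∨ g' * ρ = ρ * g' := by
  have hw := D.wo y g g' a b c d e f h1 h2 t1 t2 n1 n2 n3 ρ hρ
  have sq : ρ * ρ = 1 := by rw [← pow_two]; exact hρ.2.1
  have hi : ρ⁻¹ = ρ := inv_eq_of_mul_eq_one_right sq
  have m0 := (l0.mem huw).1
  have m1 := (l1.mem huw).1
  have m2 := (l2.mem huw).1
  have e1 : g' * (g * ρ * g⁻¹) * g'⁻¹ * (g' * ρ * g'⁻¹) = g * ρ * g⁻¹ * ρ := by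
    unfold cc at hw
    rw [hi] at hw
    calc g' * (g * ρ * g⁻¹) * g'⁻¹ * (g' * ρ * g'⁻¹) = g' * (g * ρ * g⁻¹ * ρ) * g'⁻¹ := by group
      _ = g * ρ * g⁻¹ * ρ := by rw [hw]; group
  have e2 : ρ = g * ρ * g⁻¹ * (g' * (g * ρ * g⁻¹) * g'⁻¹) * (g' * ρ * g'⁻¹) := by
    rw [mul_assoc (g * ρ * g⁻¹), e1]
    calc ρ = g * (ρ * ρ) * g⁻¹ * ρ := by rw [sq]; group
      _ = _ := by group
  rcases D.ind4 huw l0 (Or.inl l1) (Or.inl l3) (Or.inl l2) e2 with h | h | h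
  · left
    calc g * ρ = g * ρ * g⁻¹ * g := by group
      _ = ρ * g := by rw [← h]
  · right
    rw [← h] at e1
    have e3 : g' * ρ * g'⁻¹ = g * ρ * g⁻¹ := by
      have := m1.2.2 ρ m0.1
      rw [← this] at e1
      exact mul_left_cancel e1
    rw [← e3] at h
    have e4 := hρ.2.2 _ (D.t_cube y g' d e f h2 t2)
    calc g' * ρ = g' * (g' * (g' * ρ * g'⁻¹) * g'⁻¹) := by rw [← h]
      _ = g' ^ 3 * ρ * (g'⁻¹ * g'⁻¹) := by simp only [pow_succ, pow_zero, one_mul, mul_assoc]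
      _ = ρ * g' := by rw [e4]; simp only [pow_succ, pow_zero, one_mul]; group
  · right
    calc g' * ρ = g' * ρ * g'⁻¹ * g' := by group
      _ = ρ * g' := by rw [← h]

variable (S) in
/-- the involution of `E_y` over the transposition `(a b)` exists and centralises `ρ` -/
def _root_.Pool.Agent.MP_1d62fe_al.W.Alt.Eqv (y : V) (ρ : G) (a b : Ω) : Prop :=
  ∃ t ∈ S.EE 2 y, t * t ∈ S.Q 2 y ∧ S.κ t y = swap a b ∧ t * ρ = ρ * t

variable (S) in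
/-- the canonical lifts of `(a b c)` centralise `ρ` -/
def _root_.Pool.Agent.MP_1d62fe_al.W.Alt.Fx (y : V) (ρ : G) (a b c : Ω) : Prop :=
  ∀ g, S.IsT y g a b c → g * ρ = ρ * g

variable (S) in
/-- the hypotheses shared by the two types in the step `Fix` -/
structure _root_.Pool.Agent.MP_1d62fe_al.W.Alt.FixH (y v : V) (ρ : G) (b b' : Ω) : Prop where
  adj : S.adj y v
  mem : ρ ∈ S.Z 2 y
  blk : ∀ a a', S.Bl y v a a' → S.Eqv y ρ a a'
  bb : D2 S.fib b b'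
  eqv : S.Eqv y ρ b b'
  mv : ∃ a a', S.Bl y v a a' ∧ ¬ S.Bl y v (swap b b' a) (swap b b' a')
  sh : ∀ a₁ a₂ a₃ a₄ a₅ a₆, D3 S.fib a₁ a₂ a₃ → D3 S.fib a₄ a₅ a₆ → a₄ ∉ [a₁, a₂, a₃] →
    a₅ ∉ [a₁, a₂, a₃] → a₆ ∉ [a₁, a₂, a₃] → b ∉ [a₁, a₂, a₃, a₄, a₅, a₆] →
    b' ∉ [a₁, a₂, a₃, a₄, a₅, a₆] → S.Fx y ρ a₁ a₂ a₃ ∨ S.Fx y ρ a₄ a₅ a₆

omit D in
theorem am3_refl (y : V) (ρ : G) (a : Ω) : S.Eqv y ρ a a :=
  ⟨1, Subgroup.one_mem _, by simp, by rw [S.κ_one, swap_self]; rfl, by simp⟩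

omit D in
theorem am3_symm {y : V} {ρ : G} {a b : Ω} (h : S.Eqv y ρ a b) : S.Eqv y ρ b a := by
  obtain ⟨t, h1, h2, h3, h4⟩ := h
  exact ⟨t, h1, h2, by rw [h3, swap_comm], h4⟩

omit D in
theorem am3_conj {y : V} {ρ k : G} {a b : Ω} (h : S.Eqv y ρ a b) (hk : k • y = y)
    (hc : k * ρ = ρ * k) : S.Eqv y ρ (S.κ k y a) (S.κ k y b) := by
  obtain ⟨t, h1, h2, h3, h4⟩ := h
  have c1 : Commute k ρ := hc
  have c2 : Commute t ρ := h4
  refine ⟨k * t * k⁻¹, ?_, ?_, ?_, (c1.mul_left c2).mul_left c1.inv_left⟩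
  · have := S.EE_conj h1 k
    rwa [hk] at this
  · rw [show k * t * k⁻¹ * (k * t * k⁻¹) = k * (t * t) * k⁻¹ by group, ← hk, ← S.cj_Q]
    exact conj_mem_cj.2 h2
  · have := S.κ_conj k (S.EE_fix h1)
    rw [hk] at this
    rw [this, h3, swap_apply_apply]

omit D in
theorem am3_trans {y : V} {ρ : G} {a b c : Ω} (h : S.Eqv y ρ a b) (h' : S.Eqv y ρ b c) :
    S.Eqv y ρ a c := by
  by_cases e1 : c = a
  · rw [e1]; exact am3_refl y ρ a
  by_cases e2 : c = b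
  · rw [e2]; exact h
  obtain ⟨t, h1, -, h3, h4⟩ := h
  have := am3_conj h' (S.EE_fix h1) h4
  rwa [h3, swap_apply_right, swap_apply_of_ne_of_ne e1 e2] at this

theorem am3_tt {y : V} {ρ : G} (hρ : ρ ∈ S.Z 2 y) {a b c : Ω} (h3 : D3 S.fib a b c)
    (h : S.Eqv y ρ a b) (h' : S.Eqv y ρ b c) : S.Fx y ρ a b c := by
  obtain ⟨t, t1, t2, t3, t4⟩ := h
  obtain ⟨u, u1, u2, u3, u4⟩ := h'
  intro g hg
  have hq := D.t_uniq y g (t * u) a b c h3 hg (D.t_tt y t u a b c h3 t1 u1 t2 u2 t3 u3)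
  have c1 : Commute (g⁻¹ * (t * u)) ρ := hρ.2.2 _ hq
  have c2 : Commute (t * u) ρ := Commute.mul_left t4 u4
  have c3 := c2.mul_left c1.inv_left
  rwa [show t * u * (g⁻¹ * (t * u))⁻¹ = g by group] at c3

/-- transport of the relation along a lift that centralises `ρ` -/
theorem am3_fx {y v : V} (hv : S.adj y v) {ρ : G} {a b c x x' : Ω} (h3 : D3 S.fib a b c)
    (hf : S.Fx y ρ a b c) (h : S.Eqv y ρ x x') : S.Eqv y ρ (c3 a b c x) (c3 a b c x') := by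
  obtain ⟨g, hg⟩ := D.t_ex y v hv a b c h3
  have := am3_conj h (S.EE_fix hg.1) (hf g hg)
  rwa [hg.2.1] at this

theorem am3_join {y v : V} (hv : S.adj y v) {ρ : G} {a x x' : Ω} (h3 : D3 S.fib a x x')
    (hf : S.Fx y ρ a x x') (h : S.Eqv y ρ x x') : S.Eqv y ρ a x := by
  have := D.am3_fx hv h3 hf h
  rw [c3_b h3.ac h3.bc, c3_c] at this
  exact am3_symm (am3_trans h this)

theorem am3_nb {y v : V} {ρ : G} {b b' : Ω} (h : S.FixH y v ρ b b') : ¬ S.Bl y v b b' := by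
  intro hb
  obtain ⟨a, a', h1, h2⟩ := h.mv
  have hb' := hb.symm h.adj
  have tw := D.two y v h.adj
  apply h2
  by_cases e1 : a = b
  · subst e1
    rw [tw _ _ _ h1 hb, swap_apply_left, swap_apply_right]; exact hb'
  by_cases e2 : a = b'
  · subst e2
    rw [tw _ _ _ h1 hb', swap_apply_left, swap_apply_right]; exact hb
  have e3 : a' ≠ b := fun e => e2 (by subst e; exact tw _ _ _ (h1.symm h.adj) hb)
  have e4 : a' ≠ b' := fun e => e1 (by subst e; exact tw _ _ _ (h1.symm h.adj) hb')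
  rwa [swap_apply_of_ne_of_ne e1 e2, swap_apply_of_ne_of_ne e3 e4]

theorem fixM {y v : V} {ρ : G} {b b' : Ω} (h : S.FixH y v ρ b b') (hM : S.TyM y v) {a₁ a₂ a₃ : Ω}
    (h3 : D3 S.fib a₁ a₂ a₃) : S.Fx y ρ a₁ a₂ a₃ := by
  choose P hP using hM
  have tw := D.two y v h.adj
  have PP : ∀ a, P (P a) = a := fun a => tw _ _ _ (hP _) ((hP a).symm h.adj)
  have Pn : ∀ a, a ≠ P a := fun a => (hP a).1
  have Pf : ∀ a, S.fib (P a) = S.fib a := fun a => (D.bl_D2 h.adj (hP a)).fb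
  have Pe : ∀ a, S.Eqv y ρ a (P a) := fun a => h.blk _ _ (hP a)
  have nb : P b ≠ b' := fun e => D.am3_nb h (e ▸ hP b)
  have bb := h.bb.ab
  have bf := h.bb.fb
  -- the basic step
  have key : ∀ a a' x z, S.fib a' = S.fib a → S.fib x = S.fib a → S.fib z = S.fib a →
      a ≠ a' → a ∉ [b, b'] → a' ∉ [b, b'] → x ∉ [a, a', P a, P a', b, b', P b, P b'] →
      z ∉ [a, a', P a, P a', b, b', P b, P b', x, P x] →
      S.Eqv y ρ a x ∨ S.Eqv y ρ a' z := by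
    intro a a' x z f1 f2 f3 n1 n2 n3 n4 n5
    simp only [List.mem_cons, List.not_mem_nil, not_or] at n2 n3 n4 n5
    have p1 := PP a; have p2 := PP a'; have p3 := PP x; have p4 := PP z
    have p5 := PP b; have p6 := PP b'; have p7 := Pn x; have p8 := Pn z
    have d1 : D3 S.fib a x (P x) := ⟨by grind, by grind, p7, f2, by rw [Pf, f2]⟩
    have d2 : D3 S.fib a' z (P z) := ⟨by grind, by grind, p8, by rw [f3, f1], by rw [Pf, f3, f1]⟩
    refine (h.sh a x (P x) a' z (P z) d1 d2 ?_ ?_ ?_ ?_ ?_).imp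
      (fun hf => D.am3_join h.adj d1 hf (Pe x)) (fun hf => D.am3_join h.adj d2 hf (Pe z)) <;>
      simp only [List.mem_cons, List.not_mem_nil, not_or] <;> grind
  have good : ∀ a x, S.fib x = S.fib a → a ∉ [b, b', P b, P b'] → x ∉ [b, b', P b, P b'] →
      S.Eqv y ρ a x := by
    intro a x f1 n1 n2
    by_cases e1 : x = a
    · rw [e1]; exact am3_refl y ρ a
    by_cases e2 : x = P a
    · rw [e2]; exact Pe a
    obtain ⟨z, f2, n3⟩ := S.big.avoid a [a, P a, b, b', P b, P b', x, P x] (by simp)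
    simp only [List.mem_cons, List.not_mem_nil, not_or] at n1 n2 n3
    have p1 := PP a; have p3 := PP x; have p4 := PP z
    have p5 := PP b; have p6 := PP b'; have p7 := Pn x; have p8 := Pn a
    rcases key a (P a) x z (Pf a) f1 f2 p8 (by simp; grind) (by simp; grind) (by simp; grind)
      (by simp; grind) with k | k
    · exact k
    rcases key x (P x) a z (Pf x) f1.symm (by rw [f2, f1]) p7 (by simp; grind) (by simp; grind)
      (by simp; grind) (by simp; grind) with k' | k'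
    · exact am3_symm k'
    exact am3_trans (am3_trans (Pe a) k) (am3_symm (am3_trans (Pe x) k'))
  have hb : ∃ x, S.fib x = S.fib b ∧ x ∉ [b, b', P b, P b'] ∧ S.Eqv y ρ b x := by
    obtain ⟨x, f1, n1⟩ := S.big.avoid b [b, b', P b, P b'] (by simp)
    obtain ⟨z, f2, n2⟩ := S.big.avoid b [b, b', P b, P b', x, P x] (by simp)
    have n1' := n1
    have n2' := n2
    simp only [List.mem_cons, List.not_mem_nil, not_or] at n1' n2'
    have p5 := PP b; have p6 := PP b'; have p7 := Pn b; have p8 := Pn b'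
    rcases key (P b) (P b') x z (by rw [Pf, Pf, bf]) (by rw [Pf, f1]) (by rw [Pf, f2])
      (by grind) (by simp; grind) (by simp; grind) (by simp; grind) (by simp; grind) with k | k
    · exact ⟨x, f1, n1, am3_trans (Pe b) k⟩
    · exact ⟨z, f2, by simp; grind, am3_trans (am3_trans h.eqv (Pe b')) k⟩
  have red : ∀ a, ∃ x, S.fib x = S.fib a ∧ x ∉ [b, b', P b, P b'] ∧ S.Eqv y ρ a x := by
    intro a
    by_cases ha : a ∈ [b, b', P b, P b']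
    · obtain ⟨x, f1, n1, k⟩ := hb
      simp only [List.mem_cons, List.not_mem_nil, or_false] at ha
      rcases ha with rfl | rfl | rfl | rfl
      · exact ⟨x, f1, n1, k⟩
      · exact ⟨x, by rw [f1, bf], n1, am3_trans (am3_symm h.eqv) k⟩
      · exact ⟨x, by rw [f1, Pf], n1, am3_trans (am3_symm (Pe b)) k⟩
      · exact ⟨x, by rw [f1, Pf, bf], n1,
          am3_trans (am3_symm (am3_trans h.eqv (Pe b'))) k⟩
    · exact ⟨a, rfl, ha, am3_refl y ρ a⟩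
  have all : ∀ a a', S.fib a' = S.fib a → S.Eqv y ρ a a' := by
    intro a a' f
    obtain ⟨x, f1, n1, k1⟩ := red a
    obtain ⟨x', f2, n2, k2⟩ := red a'
    exact am3_trans (am3_trans k1 (good x x' (by rw [f2, f, f1]) n1 n2)) (am3_symm k2)
  exact D.am3_tt h.mem h3 (all _ _ h3.fb) (all _ _ (by rw [h3.fc, h3.fb]))

variable (S) in
/-- `ρ` is moved by a lift of a 3-cycle of the fibre `j` avoiding the blocks -/
def _root_.Pool.Agent.MP_1d62fe_al.W.Alt.Am3Mv (y v : V) (j : I) (ρ : G) : Prop :=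
  ∃ g a₁ a₂ a₃, D3 S.fib a₁ a₂ a₃ ∧ S.fib a₁ = j ∧ (∀ a ∈ [a₁, a₂, a₃], ∀ a', ¬ S.Bl y v a a') ∧
    S.IsT y g a₁ a₂ a₃ ∧ g * ρ ≠ ρ * g

theorem am3_fixv {y v : V} (h : S.adj y v) {g : G} {a₁ a₂ a₃ : Ω}
    (hn : ∀ a ∈ [a₁, a₂, a₃], ∀ a', ¬ S.Bl y v a a') (hg : S.IsT y g a₁ a₂ a₃) {ρ : G}
    (hρ : D.InL v y ρ) : D.InL v y (g * ρ * g⁻¹) := by
  have hy := S.EE_fix hg.1
  have fx : ∀ a a', S.Bl y v a a' → S.κ g y a = a := fun a a' ha => by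
    rw [hg.2.1]
    exact c3_ne (fun e => hn a (by simp [e]) a' ha) (fun e => hn a (by simp [e]) a' ha)
      (fun e => hn a (by simp [e]) a' ha)
  have hv : g • v = v := D.b2 y v h g hy fun a a' ha => by
    rwa [fx a a' ha, fx a' a (ha.symm h)]
  have := hρ.smul (S.symm h) g
  rwa [hy, hv] at this

theorem am3_one {y v : V} (h : S.adj y v) {ρ : G} (hρ : D.InL v y ρ) {j j' : I}
    (m : S.Am3Mv y v j ρ) (m' : S.Am3Mv y v j' ρ) : j = j' := by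
  by_contra hj
  obtain ⟨g, a, b, c, d1, f1, n1, t1, c1⟩ := m
  obtain ⟨g', d, e, f, d2, f2, n2, t2, c2⟩ := m'
  have o : ∀ x, S.fib x = S.fib d → x ∉ [a, b, c] := fun x hx hm => by
    have := d1.fb; have := d1.fc
    simp only [List.mem_cons, List.not_mem_nil, or_false] at hm
    grind
  exact (D.Sh (S.symm h) (hρ.mem (S.symm h)).2 d1 d2 t1 t2 (o d rfl) (o e d2.fb) (o f d2.fc) hρ
    (D.am3_fixv h n1 t1 hρ) (D.am3_fixv h n2 t2 hρ)
    (D.am3_fixv h n2 t2 (D.am3_fixv h n1 t1 hρ))).elim c1 c2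

theorem am3_blk {y v : V} (h : S.adj v y) (hD : S.TyD v y) {e e' f f' : Ω} (he : S.Bl v y e e')
    (hf : S.Bl v y f f') (hef : S.fib f = S.fib e) : D.s v e e' = D.s v f f' := by
  obtain ⟨a, a', -, ha, hu⟩ := hD e
  have tw := D.two v y h
  have k : ∀ x x', S.fib x = S.fib e → S.Bl v y x x' → D.s v x x' = D.s v a a' := by
    intro x x' h1 h2
    rcases hu x x' h1 h2 with rfl | rfl
    · rw [tw _ _ _ h2 ha]
    · rw [tw _ _ _ h2 (ha.symm h), D.s_symm v _ _ (D.bl_D2 h ha)]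
  rw [k e e' rfl he, k f f' hef hf]

/-- type D: lifts of 3-cycles avoiding the blocks fix the block vectors at the neighbour -/
theorem countD (hD : ∀ y v, S.adj y v → S.TyD y v) {y v : V} (h : S.adj y v) {ρ : G}
    (hρ : D.InL v y ρ) {a₁ a₂ a₃ : Ω} (h3 : D3 S.fib a₁ a₂ a₃)
    (hn : ∀ a ∈ [a₁, a₂, a₃], ∀ a', ¬ S.Bl y v a a') : S.Fx y ρ a₁ a₂ a₃ := by
  intro g hg
  by_contra hc
  have : Finite I := Finite.of_surjective S.fib S.surj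
  have h' := S.symm h
  have ex : ∀ j, ∃ e e', S.Bl v y e e' ∧ S.Am3Mv y v j (D.s v e e') := by
    intro j
    obtain ⟨o, rfl⟩ := S.surj j
    obtain ⟨β, β', fβ, hβ, -⟩ := hD y v h a₁
    obtain ⟨γ, γ', fγ, hγ, -⟩ := hD y v h o
    obtain ⟨k, ky, kv, hk⟩ := D.trb y v y v h h β β' γ γ' hβ hγ
    have l := hρ.smul h' k
    rw [ky, kv] at l
    obtain ⟨e, e', he, e1⟩ := l
    have t := hg.smul k
    rw [ky] at t
    have iy : k⁻¹ • y = y := by rw [inv_smul_eq_iff, ky]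
    have iv : k⁻¹ • v = v := by rw [inv_smul_eq_iff, kv]
    have av : ∀ a ∈ [a₁, a₂, a₃], ∀ a', ¬ S.Bl y v (S.κ k y a) a' := fun a ha a' hb => by
      have := hb.smul h k⁻¹
      rw [iy, iv, S.κ_inv' ky, Perm.inv_def, symm_apply_apply] at this
      exact hn a ha _ this
    refine ⟨e, e', he, k * g * k⁻¹, _, _, _, S.D3_map k y h3, ?_, ?_, t, ?_⟩
    · rw [← S.fibp k y _ _ fβ, ← fγ]
      rcases hk with hk | hk
      · rw [hk]
      · rw [hk, (D.bl_D2 h hγ).fb]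
    · intro a ha
      simp only [List.mem_cons, List.not_mem_nil, or_false] at ha
      rcases ha with rfl | rfl | rfl <;> exact av _ (by simp)
    · rw [← e1]
      intro hh
      apply hc
      calc g * ρ = k⁻¹ * (k * g * k⁻¹ * (k * ρ * k⁻¹)) * k := by group
        _ = ρ * g := by rw [hh]; group
  choose e e' he hm using ex
  have il : ∀ j, D.InL v y (D.s v (e j) (e' j)) := fun j => ⟨_, _, he j, rfl⟩
  have inj : Function.Injective fun j => S.fib (e j) := fun j j' hj => by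
    have := D.am3_blk h' (hD v y h') (he j') (he j) hj
    exact D.am3_one h (il j) (hm j) (this ▸ hm j')
  have sur := Finite.injective_iff_surjective.1 inj
  obtain ⟨k, b₁, b₂, b₃, d, f, nb, t, c⟩ := hm (S.fib a₁)
  have l := D.am3_fixv h nb t (il (S.fib a₁))
  obtain ⟨x, x', hx, e1⟩ := l
  obtain ⟨j, hj⟩ := sur (S.fib x)
  have e2 := D.am3_blk h' (hD v y h') hx (he j) hj
  have m : S.Am3Mv y v (S.fib a₁) (D.s v (e j) (e' j)) := by
    refine ⟨k, b₁, b₂, b₃, d, f, nb, t, fun hh => c ?_⟩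
    rw [← e2, ← e1] at hh
    generalize D.s v (e (S.fib a₁)) (e' (S.fib a₁)) = r at hh ⊢
    calc k * r = k⁻¹ * (k * (k * r * k⁻¹)) * k := by group
      _ = r * k := by rw [hh]; group
  have e3 := D.am3_one h (il j) m (hm j)
  rw [← e3, ← e1] at e2
  apply c
  generalize D.s v (e (S.fib a₁)) (e' (S.fib a₁)) = r at e2 ⊢
  calc k * r = k * r * k⁻¹ * k := by group
    _ = r * k := by rw [e2]

theorem fixD {y v : V} {ρ : G} {b b' : Ω} (h : S.FixH y v ρ b b') (hD : S.TyD y v)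
    (hc : ∀ a₁ a₂ a₃, D3 S.fib a₁ a₂ a₃ → (∀ a ∈ [a₁, a₂, a₃], ∀ a', ¬ S.Bl y v a a') →
      S.Fx y ρ a₁ a₂ a₃) {a₁ a₂ a₃ : Ω} (h3 : D3 S.fib a₁ a₂ a₃) : S.Fx y ρ a₁ a₂ a₃ := by
  obtain ⟨a, a', fa, ha, hu⟩ := hD a₁
  have fa' : S.fib a' = S.fib a₁ := by rw [(D.bl_D2 h.adj ha).fb, fa]
  have na := ha.1
  have ea := h.blk _ _ ha
  have nb := D.am3_nb h
  have bb := h.bb.ab
  have bf := h.bb.fb
  have ex : ∃ f, S.fib f = S.fib a₁ ∧ f ≠ a ∧ f ≠ a' ∧ S.Eqv y ρ a f := by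
    by_cases c1 : b = a
    · subst c1
      exact ⟨b', by rw [bf, fa], bb.symm, fun e => nb (e ▸ ha), h.eqv⟩
    by_cases c2 : b = a'
    · subst c2
      exact ⟨b', by rw [bf, fa'], fun e => nb (e ▸ ha.symm h.adj), bb.symm, am3_trans ea h.eqv⟩
    by_cases c3' : b' = a
    · subst c3'
      exact ⟨b, by rw [← bf, fa], c1, c2, am3_symm h.eqv⟩
    by_cases c4 : b' = a'
    · subst c4
      exact ⟨b, by rw [← bf, fa'], c1, c2, am3_trans ea (am3_symm h.eqv)⟩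
    obtain ⟨f₁, g1, n1⟩ := S.big.avoid a₁ [a, a', b, b'] (by simp)
    obtain ⟨f₂, g2, n2⟩ := S.big.avoid a₁ [a, a', b, b', f₁] (by simp)
    obtain ⟨f₃, g3, n3⟩ := S.big.avoid a₁ [a, a', b, b', f₁, f₂] (by simp)
    obtain ⟨f₄, g4, n4⟩ := S.big.avoid a₁ [a, a', b, b', f₁, f₂, f₃] (by simp)
    simp only [List.mem_cons, List.not_mem_nil, not_or] at n1 n2 n3 n4
    have d1 : D3 S.fib a f₁ f₂ := ⟨by grind, by grind, by grind, by grind, by grind⟩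
    have d2 : D3 S.fib a' f₃ f₄ := ⟨by grind, by grind, by grind, by grind, by grind⟩
    rcases h.sh a f₁ f₂ a' f₃ f₄ d1 d2 (by simp; grind) (by simp; grind) (by simp; grind)
      (by simp; grind) (by simp; grind) with k | k
    · have := D.am3_fx h.adj d1 k ea
      rw [c3_a d1.ab d1.ac, c3_ne na.symm (by grind) (by grind)] at this
      exact ⟨f₁, g1, by grind, by grind, am3_trans ea (am3_symm this)⟩
    · have := D.am3_fx h.adj d2 k ea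
      rw [c3_a d2.ab d2.ac, c3_ne na (by grind) (by grind)] at this
      exact ⟨f₃, g3, by grind, by grind, this⟩
  obtain ⟨f, ff, n1, n2, ef⟩ := ex
  have all : ∀ x, S.fib x = S.fib a₁ → S.Eqv y ρ a x := by
    intro x fx
    by_cases c1 : x = a
    · rw [c1]; exact am3_refl y ρ a
    by_cases c2 : x = a'
    · rw [c2]; exact ea
    by_cases c3' : x = f
    · rw [c3']; exact ef
    obtain ⟨z, fz, nz⟩ := S.big.avoid a₁ [a, a', f, x] (by simp)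
    simp only [List.mem_cons, List.not_mem_nil, not_or] at nz
    have d : D3 S.fib f x z := ⟨by grind, by grind, by grind, by grind, by grind⟩
    have k := hc f x z d fun u hm u' hb => by
      simp only [List.mem_cons, List.not_mem_nil, or_false] at hm
      have := hu u u' (by grind) hb
      grind
    have := D.am3_fx h.adj d k ef
    rwa [c3_a d.ab d.ac, c3_ne n1.symm (by grind) (by grind)] at this
  exact D.am3_tt h.mem h3 (am3_trans (am3_symm (all _ rfl)) (all _ h3.fb))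
    (am3_trans (am3_symm (all _ h3.fb)) (all _ h3.fc))

end Ctx

end Alt

end Pool.Agent.MP_1d62fe_al.W

end

-- part Am4
section

set_option autoImplicit false
set_option linter.unusedSectionVars false

namespace Pool.Agent.MP_1d62fe_al.W

open Equiv

theorem Am4_un {V : Type} {adj : V → V → Prop} : ∀ {m : ℕ} {x y : V}, 1 ≤ m → Dn adj m x y →
    ∃ u, adj x u ∧ Dn adj (m - 1) u y
  | 0, _, _, h, _ => absurd h (by omega)
  | _ + 1, _, _, _, h => h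

namespace Alt

variable {G V Ω I : Type} [Group G] [MulAction G V] [Fintype Ω] [DecidableEq Ω] [DecidableEq I]
  [Finite G] {S : Alt G V Ω I} {n : ℕ}

namespace Ctx

variable (D : S.Ctx n)
include D

theorem Am4_Q {x x₁ y' y : V} (h : S.CC n x x₁ y' y) {α α' : Ω} (hα : D2 S.fib α α') :
    D.s x α α' ∈ S.Q 2 y' :=
  D.ZQ le_rfl (S.Dn_symm h.d2) (D.s_mem x α α' hα)

theorem Am4_E {x x₁ y' y : V} (h : S.CC n x x₁ y' y) {α α' : Ω} (hα : D2 S.fib α α') :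
    D.s x α α' ∈ S.EE 2 y :=
  S.Q_le_EE h.a2 (D.Am4_Q h hα)

theorem Am4_mov {x x₁ y' y : V} (h : S.CC n x x₁ y' y) {α α' : Ω} (hα : D2 S.fib α α')
    (hc : D.s x α α' ∉ S.Q 2 y) : ∃ v, S.adj y v ∧ D.s x α α' • v ≠ v :=
  S.moved (S.EE_fix (D.Am4_E h hα)) fun hK => hc (S.Q_inf_K 2 h.a2 ⟨D.Am4_Q h hα, hK⟩)

/-- transport of a hot pair to another involution over the conjugated transposition -/
theorem Am4_tr {c c' : G} {y v : V} {ε ε₂ b b' : Ω} (hh : D.Hot c y v ε ε₂) (g : G)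
    (e1 : c ∈ S.EE 2 y) (s1 : c * c = 1) (k1 : S.κ c y = swap b b') (e2 : c' ∈ S.EE 2 (g • y))
    (s2 : c' * c' = 1) (k2 : S.κ c' (g • y) = swap (S.κ g y b) (S.κ g y b')) :
    D.Hot c' (g • y) (g • v) (S.κ g v ε) (S.κ g v ε₂) := by
  have e3 := S.EE_conj e1 g
  refine (hh.smul g).congr (S.EE_fix e3) (D.inv_u _ _ _ e3 e2 ?_ ?_ ?_)
  · rw [show g * c * g⁻¹ * (g * c * g⁻¹) = g * (c * c) * g⁻¹ by group, s1]
    simp
  · rw [s2]; exact Subgroup.one_mem _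
  · rw [S.κ_conj g (S.EE_fix e1), k1, k2, swap_apply_apply]

theorem Am4_tr' {x x₁ y' y : V} (h : S.CC n x x₁ y' y) {α α' : Ω} (hα : D2 S.fib α α')
    {b b' : Ω} (hκ : S.κ (D.s x α α') y = swap b b') {v : V} {ε ε₂ : Ω}
    (hh : D.Hot (D.s x α α') y v ε ε₂) {g : G} (hg : g • y = y) (h1 : S.κ g y b = b)
    (h2 : S.κ g y b' = b') : D.Hot (D.s x α α') y (g • v) (S.κ g v ε) (S.κ g v ε₂) := by
  have := D.Am4_tr (c' := D.s x α α') hh g (D.Am4_E h hα) (D.s_sq x hα) hκ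
    (by rw [hg]; exact D.Am4_E h hα) (D.s_sq x hα) (by rw [hg, h1, h2, hκ])
  rwa [hg] at this

/-- Fix -/
theorem hot_fix {x x₁ y' y : V} (h : S.CC n x x₁ y' y) {α α' : Ω} (hα : D2 S.fib α α')
    (hc : D.s x α α' ∉ S.Q 2 y) {v : V} {ε ε₂ : Ω} (hh : D.Hot (D.s x α α') y v ε ε₂)
    {a₁ a₂ a₃ : Ω} (h3 : D3 S.fib a₁ a₂ a₃) : S.Fx y (D.s v ε ε₂) a₁ a₂ a₃ := by
  obtain ⟨β, β', hβ, hκ⟩ := D.T1a h hα hc
  obtain ⟨x₂, h12, hd⟩ := Am4_un (by have := D.h2; omega) h.d1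
  obtain ⟨-, hbl, hL, -⟩ := D.hot_spec h hα hc h12 hd hh
  have hyv : S.adj y v := hh.1
  have hLv : D.InL v y (D.s v ε ε₂) := ⟨ε, ε₂, hbl, rfl⟩
  have hZ := hLv.mem (S.symm hyv)
  have hcE := D.Am4_E h hα
  have key : ∀ g : G, g • y = y → S.κ g y β = β → S.κ g y β' = β' →
      D.InL x₁ x₂ (g * D.s v ε ε₂ * g⁻¹) := fun g hg h1 h2 => by
    rw [← D.s_eqv g v ε ε₂ hh.2.2.1]
    exact (D.hot_spec h hα hc h12 hd (D.Am4_tr' h hα hκ hh hg h1 h2)).2.2.1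
  have F : S.FixH y v (D.s v ε ε₂) β β' := by
    refine ⟨hyv, hZ.2, fun a a' ha => ?_, D.bl_D2 h.a2 hβ, ?_, ?_, ?_⟩
    · obtain ⟨q, hq, q2, qκ⟩ := D.PT1 h hyv ha
      exact ⟨q, S.Q_le_EE hyv hq, by rw [q2]; exact Subgroup.one_mem _, qκ, hZ.1.2.2 q hq⟩
    · exact ⟨_, hcE, by rw [D.s_sq x hα]; exact Subgroup.one_mem _, hκ,
        (hL.mem h12).1.2.2 _ (D.ZQ1 h.a1 (D.s_mem x α α' hα))⟩
    · by_contra hcon
      push Not at hcon
      exact hh.2.1 (D.b2 y v hyv _ (S.EE_fix hcE) fun a a' ha => by rw [hκ]; exact hcon a a' ha)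
    · intro a₁ a₂ a₃ a₄ a₅ a₆ d1 d2 n4 n5 n6 nb nb'
      by_contra hcon
      simp only [Fx, not_or, not_forall] at hcon
      obtain ⟨⟨g, t1, hg⟩, g', t2, hg'⟩ := hcon
      simp only [List.mem_cons, List.not_mem_nil, not_or] at nb nb'
      have f1 := S.EE_fix t1.1
      have f2 := S.EE_fix t2.1
      have p1 : S.κ g y β = β := by rw [t1.2.1]; exact c3_ne nb.1 nb.2.1 nb.2.2.1
      have p1' : S.κ g y β' = β' := by rw [t1.2.1]; exact c3_ne nb'.1 nb'.2.1 nb'.2.2.1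
      have p2 : S.κ g' y β = β := by
        rw [t2.2.1]; exact c3_ne nb.2.2.2.1 nb.2.2.2.2.1 nb.2.2.2.2.2.1
      have p2' : S.κ g' y β' = β' := by
        rw [t2.2.1]; exact c3_ne nb'.2.2.2.1 nb'.2.2.2.2.1 nb'.2.2.2.2.2.1
      have l3 := key (g' * g) (by rw [mul_smul, f1, f2])
        (by rw [S.κ_mul' f1, Perm.mul_apply, p1, p2]) (by rw [S.κ_mul' f1, Perm.mul_apply, p1', p2'])
      rw [show g' * g * D.s v ε ε₂ * (g' * g)⁻¹ = g' * (g * D.s v ε ε₂ * g⁻¹) * g'⁻¹ by group] at l3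
      exact (D.Sh h12 hZ.2 d1 d2 t1 t2 n4 n5 n6 hL (key g f1 p1 p1') (key g' f2 p2 p2') l3).elim
        hg hg'
  rcases D.ty with hM | hD
  · exact D.fixM F (hM y v hyv) h3
  · exact D.fixD F (hD y v hyv) (fun _ _ _ d hn => D.countD hD hyv hLv d hn) h3

/-- the centraliser of a vector fixed by all canonical lifts is transitive on neighbours -/
theorem transN {y v v' : V} (hv : S.adj y v) (hv' : S.adj y v') {a a' : Ω} (hb : S.Bl y v a a')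
    {ρ : G} (hρ : ρ ∈ S.Z 2 y) (hf : ∀ a₁ a₂ a₃, D3 S.fib a₁ a₂ a₃ → S.Fx y ρ a₁ a₂ a₃) :
    ∃ k : G, k • y = y ∧ k • v = v' ∧ k * ρ * k⁻¹ = ρ := by
  have _ := hρ
  have st : ∀ {g h : G}, g • y = y → h • y = y → (g * h) • y = y := fun hg hh => by
    rw [mul_smul, hh, hg]
  have si : ∀ {g : G}, g • y = y → g⁻¹ • y = y := fun hg => by rw [inv_smul_eq_iff, hg]
  let M : Subgroup G :=
    { carrier := {g | g • y = y ∧ ∃ k : G, k • y = y ∧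
        (∀ h : G, h • y = y → Commute (h * k * h⁻¹) ρ) ∧ g • v = k • v}
      one_mem' := ⟨one_smul _ _, 1, one_smul _ _, fun h _ => by simp, rfl⟩
      mul_mem' := by
        rintro g g' ⟨hg, k, hk, hc, e⟩ ⟨hg', k', hk', hc', e'⟩
        refine ⟨st hg hg', g * k' * g⁻¹ * k, st (st (st hg hk') (si hg)) hk, fun h hh => ?_, ?_⟩
        · rw [show h * (g * k' * g⁻¹ * k) * h⁻¹ = (h * g) * k' * (h * g)⁻¹ * (h * k * h⁻¹) by group]
          exact (hc' _ (st hh hg)).mul_left (hc h hh)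
        · simp only [mul_smul]
          rw [← e, inv_smul_smul, e']
      inv_mem' := by
        rintro g ⟨hg, k, hk, hc, e⟩
        refine ⟨si hg, g⁻¹ * k⁻¹ * g, st (st (si hg) (si hk)) hg, fun h hh => ?_, ?_⟩
        · rw [show h * (g⁻¹ * k⁻¹ * g) * h⁻¹ = ((h * g⁻¹) * k * (h * g⁻¹)⁻¹)⁻¹ by group]
          exact (hc _ (st hh (si hg))).inv_left
        · simp only [mul_smul]
          rw [e, inv_smul_smul] }
  rcases S.max y v hv M (fun g hg hg' => ⟨hg, 1, one_smul _ _, fun h _ => by simp,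
    by rw [hg', one_smul]⟩) (fun g hg => hg.1) with hM | hM
  · exfalso
    have hD := D.bl_D2 hv hb
    obtain ⟨p, p1, p2⟩ := S.big.avoid a [a, a'] (by simp)
    obtain ⟨q, q1, q2⟩ := S.big.avoid a [a, a', p] (by simp)
    simp only [List.mem_cons, List.not_mem_nil, not_or] at p2 q2
    have d : D3 S.fib a' p q := ⟨fun e => p2.2.1 e.symm, fun e => q2.2.1 e.symm,
      fun e => q2.2.2.1 e.symm, p1.trans hD.fb.symm, q1.trans hD.fb.symm⟩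
    obtain ⟨g, t⟩ := D.t_ex y v hv a' p q d
    have hg := S.EE_fix t.1
    have hgv : g • v = v := hM g ⟨hg, g, hg, fun h hh => by
      have t' := t.smul h
      rw [hh] at t'
      exact hf _ _ _ (S.D3_map h y d) _ t', rfl⟩
    have b := hb.smul hv g
    rw [hg, hgv, t.2.1, c3_ne hD.ab (fun e => p2.1 e.symm) (fun e => q2.1 e.symm),
      c3_a d.ab d.ac] at b
    exact d.ab (D.two y v hv a a' p hb b)
  · obtain ⟨g, hg, hgv⟩ := S.arc y v y v' hv hv'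
    obtain ⟨-, k, hk, hc, e⟩ := hM g hg
    refine ⟨k, hk, by rw [← e, hgv], ?_⟩
    have := hc 1 (one_smul _ _)
    rw [one_mul, inv_one, mul_one] at this
    rw [this.eq, mul_inv_cancel_right]

theorem no_CC {x x₁ y' y : V} (h : S.CC n x x₁ y' y) : False := by
  have hn := D.h2
  obtain ⟨α, α', hα, hc⟩ := D.exists_duad h
  obtain ⟨β, β', -, hκ⟩ := D.T1a h hα hc
  have hcy := S.EE_fix (D.Am4_E h hα)
  obtain ⟨v, hyv, hmv⟩ := D.Am4_mov h hα hc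
  obtain ⟨ε, ε₂, hh⟩ := D.hot_ex h hα hc hyv hmv
  obtain ⟨x₂, h12, hd2⟩ := Am4_un (by omega) h.d1
  obtain ⟨x₃, h23, hd3⟩ := Am4_un (by omega) hd2
  have hd4 : ∀ u, S.adj y u → Dn S.adj (n - 1) x₃ u := fun u hu => by
    have := Dn_snoc hd3 hu
    rwa [show n - 1 - 1 + 1 = n - 1 by omega] at this
  obtain ⟨h₁, hbl, -, γ, γ', hγ, hc₁, hκ₁⟩ := D.hot_spec h hα hc h12 hd2 hh
  obtain ⟨w, hvw, hmw⟩ := D.Am4_mov h₁ hγ hc₁
  obtain ⟨ζ, ζ₂, hh₁⟩ := D.hot_ex h₁ hγ hc₁ hvw hmw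
  obtain ⟨-, hbl₂, hL, -⟩ := D.hot_spec h₁ hγ hc₁ h23 (hd4 v hyv) hh₁
  have hLw : D.InL w v (D.s w ζ ζ₂) := ⟨ζ, ζ₂, hbl₂, rfl⟩
  have key : ∀ g : G, g • y = y → S.κ g y β = β → S.κ g y β' = β' →
      D.InL x₂ x₃ (g * D.s w ζ ζ₂ * g⁻¹) := fun g hg h1 h2 => by
    have hh' := D.Am4_tr' h hα hκ hh hg h1 h2
    obtain ⟨h₂, -, -, η, η', hη, hc₂, hκ₂⟩ := D.hot_spec h hα hc h12 hd2 hh'
    rw [← D.s_eqv g w ζ ζ₂ hh₁.2.2.1]
    exact (D.hot_spec h₂ hη hc₂ h23 (hd4 _ hh'.1) (D.Am4_tr hh₁ g (D.Am4_E h₁ hγ) (D.s_sq x₁ hγ)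
      hκ₁ (D.Am4_E h₂ hη) (D.s_sq x₁ hη) hκ₂)).2.2.1
  obtain ⟨k, k1, k2, k3⟩ := D.transN (S.symm hyv) hvw hbl (hLw.mem (S.symm hvw)).2
    fun _ _ _ d => D.hot_fix h₁ hγ hc₁ hh₁ d
  have hLy := hLw.smul (S.symm hvw) k⁻¹
  rw [inv_smul_eq_iff.2 k2.symm, inv_smul_eq_iff.2 k1.symm,
    show k⁻¹ * D.s w ζ ζ₂ * k⁻¹⁻¹ = D.s w ζ ζ₂ by rw [← k3]; nth_rw 2 [k3]; group] at hLy
  obtain ⟨δ, δ', hδ, e⟩ := hLy
  rw [e] at hL key
  have dδ := D.bl_D2 hyv hδ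
  have hcomm := (hL.mem h23).1.2.2 _ (D.ZQ2 h.a1 h12 (D.s_mem x α α' hα))
  have hs := D.s_conj hcy dδ
  rw [hcomm, mul_inv_cancel_right] at hs
  have hne : swap β β' ≠ swap δ δ' := fun e' => by
    obtain ⟨q, hq, -, qκ⟩ := D.PT1 h hyv hδ
    have hqy := S.Q_fix 2 hyv hq
    have hK := (S.ker (q⁻¹ * D.s x α α') y (by rw [mul_smul, hcy, inv_smul_eq_iff, hqy])).1
      (by rw [S.κ_mul' hcy, S.κ_inv' hqy, qκ, hκ, e', inv_mul_cancel])
    have := hK.2 v hyv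
    rw [mul_smul, inv_smul_eq_iff, (S.Q_le_K 2 v hq).1] at this
    exact hmv this
  have hβ : β ≠ β' := fun e' => hmv (by
    rw [e', swap_self] at hκ
    exact ((S.ker _ y hcy).1 hκ).2 v hyv)
  have hi := D.s_inj dδ (S.D2_map _ y dδ) hs
  rw [hκ] at hi
  have hd := dδ.ab
  have hout : β ≠ δ ∧ β ≠ δ' ∧ β' ≠ δ ∧ β' ≠ δ' := by
    refine ⟨fun e => ?_, fun e => ?_, fun e => ?_, fun e => ?_⟩ <;> subst e <;>
      simp only [swap_apply_left, swap_apply_right] at hi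
    · rcases hi with hi | hi
      · exact hβ hi.1
      · exact hne (by rw [hi.2])
    · rcases hi with hi | hi
      · exact hβ hi.2
      · exact hne (by rw [hi.1, swap_comm])
    · rcases hi with hi | hi
      · exact hβ hi.1.symm
      · exact hne (by rw [hi.2, swap_comm])
    · rcases hi with hi | hi
      · exact hβ hi.2.symm
      · exact hne (by rw [hi.1])
  obtain ⟨z, z1, z2⟩ := S.big.avoid δ [β, β', δ, δ'] (by simp)
  obtain ⟨u, u1, u2⟩ := S.big.avoid δ [β, β', δ, δ', z] (by simp)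
  simp only [List.mem_cons, List.not_mem_nil, not_or] at z2 u2
  have d1 : D3 S.fib δ z u := ⟨Ne.symm z2.2.2.1, Ne.symm u2.2.2.1, Ne.symm u2.2.2.2.2.1, z1, u1⟩
  have d2 : D3 S.fib δ' z u := ⟨Ne.symm z2.2.2.2.1, Ne.symm u2.2.2.2.1, d1.bc,
    z1.trans dδ.fb.symm, u1.trans dδ.fb.symm⟩
  obtain ⟨g, g1, g2⟩ := S.three y δ z u d1
  obtain ⟨g', g1', g2'⟩ := S.three y δ' z u d2
  have l1 := key g g1 (by rw [g2]; exact c3_ne hout.1 (Ne.symm z2.1) (Ne.symm u2.1))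
    (by rw [g2]; exact c3_ne hout.2.2.1 (Ne.symm z2.2.1) (Ne.symm u2.2.1))
  have l2 := key g' g1' (by rw [g2']; exact c3_ne hout.2.1 (Ne.symm z2.1) (Ne.symm u2.1))
    (by rw [g2']; exact c3_ne hout.2.2.2 (Ne.symm z2.2.1) (Ne.symm u2.2.1))
  rw [D.s_conj g1 dδ, g2, c3_a d1.ab d1.ac, c3_ne hd.symm d2.ab d2.ac] at l1
  rw [D.s_conj g1' dδ, g2', c3_a d2.ab d2.ac, c3_ne hd d1.ab d1.ac] at l2
  have m := D.s_mul y δ z δ' ⟨d1.ab, hd, d2.ab.symm, z1, dδ.fb⟩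
  rcases D.ind4 h23 hL (Or.inl l2) (Or.inl l1) (Or.inr rfl) (by rw [mul_one, m]) with e | e | e
  · rw [e, mul_eq_left] at m
    exact D.s_ne y z δ' ⟨d2.ab.symm, dδ.fb.trans z1.symm⟩ m
  · rw [e, mul_eq_right] at m
    exact D.s_ne y δ z ⟨d1.ab, z1⟩ m
  · exact D.s_ne y δ δ' dδ e

theorem no_crit {x y : V} (h : S.toSetup.Crit 2 n x y) : False := by
  obtain ⟨x₁, h1, h2⟩ := h.1
  obtain ⟨y', h3, h4⟩ := Dn_unsnoc h.1
  exact D.no_CC ⟨h1, h2, S.symm h4, S.Dn_symm h3, h.2⟩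

end Ctx

end Alt

end Pool.Agent.MP_1d62fe_al.W

end

end
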