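import Pool.Agent.MP_1d62fe_al.Alt.C
import Pool.Agent.MP_1d62fe_al.Mg.Alt_E

attribute [-instance] MonTypeEquivalenceMon.monMonoid Semiring.toMonoid SMulWithZero.toSMulZeroClass
  AddCommMonoid.toAddMonoid Subgroup.normal_subgroupOf AddMonoidWithOne.toAddMonoid
  CommSemiring.toSemiring ESeminormedAddMonoid.toAddMonoid Ring.toSemiring littleWedderburn
  IsMulCommutative.is_comm NonUnitalNonAssocRing.toAddCommGroup RKHS.instFunLike
  NormedCommGroup.toCommGroup SeminormedCommGroup.toCommGroup NonUnitalRingHomClass.toMulHomClass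
  MonoidWithZero.toMonoid Algebra.toSMul SemigroupWithZero.toSemigroup
  CommGrpTypeEquivalenceCommGrp.commGrpCommGroup Ring.toAddGroupWithOne
  MonoidWithZero.toMulZeroOneClass NonAssocSemiring.toMulZeroOneClass DivisionSemiring.toSemiring
  SetLike.GradeZero.instMonoid SetLike.GradeZero.instSemiring NonUnitalRing.toNonUnitalNonAssocRing
  GroupConeClass.toSubmonoidClass ESeminormedAddCommMonoid.toAddCommMonoid instCoeOTCOfCoeTC
  SubsemiringClass.toSubmonoidClass Nontrivial.to_nonempty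
  NonAssocSemiring.toNonUnitalNonAssocSemiring IdemSemiring.toSemiring instSMulZeroClass
  MulZeroClass.toMul DivisionRing.toDivInvMonoid
  ContinuousMonoidHom.instCoeOutOfMonoidHomClassOfContinuousMapClass SubtractionMonoid.toSubNegMonoid
  GroupWithZero.toDivInvMonoid LieRing.toAddCommGroup NonUnitalNormedCommRing.toNonUnitalCommRing
  LieAdmissibleRing.toNonUnitalNonAssocRing AddRightCancelMonoid.toAddMonoid
  NonUnitalAlgSemiHomClass.toMulHomClass SeminormedAddCommGroup.toAddCommGroup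
  instCommGroupOfIsSimpleGroupOfIsNilpotent NonUnitalSemiring.toNonUnitalNonAssocSemiring
  SemilatticeInf.toPartialOrder CommRing.toGrindCommRing

-- part Glob
section

set_option autoImplicit false
set_option linter.unusedSectionVars false

namespace Pool.Agent.MP_1d62fe_al.W

open Equiv

namespace Alt

variable {G V Ω I : Type} [Group G] [MulAction G V] [Fintype Ω] [DecidableEq Ω] [DecidableEq I]
  [Finite G] (S : Alt G V Ω I)

/-- the local action on `Ω` -/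
def πl (y : V) : MulAction.stabilizer G y →* Perm Ω where
  toFun g := S.κ g y
  map_one' := S.κ_one y
  map_mul' := fun _ h => S.κ_mul' h.2

/-- image of a subgroup in `Sym Ω` -/
def img (y : V) (A : Subgroup G) : Subgroup (Perm Ω) :=
  (A.subgroupOf (MulAction.stabilizer G y)).map (S.πl y)

theorem mem_img {y : V} {A : Subgroup G} {σ : Perm Ω} :
    σ ∈ S.img y A ↔ ∃ g ∈ A, g • y = y ∧ S.κ g y = σ :=
  ⟨fun ⟨g, h1, h2⟩ => ⟨g, h1, g.2, h2⟩, fun ⟨g, h1, h2, h3⟩ => ⟨⟨g, h2⟩, h1, h3⟩⟩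

/-- the permutation data of an arc -/
def pset (p : ℕ) {y v : V} (h : S.adj y v) : PSet S.fib p where
  L := S.img y ⊤
  H := S.img y (MulAction.stabilizer G v)
  P := S.img y (S.Q p v)
  HL := fun σ hσ => by
    obtain ⟨g, _, h2, h3⟩ := S.mem_img.1 hσ
    exact S.mem_img.2 ⟨g, trivial, h2, h3⟩
  PH := fun σ hσ => by
    obtain ⟨g, h1, h2, h3⟩ := S.mem_img.1 hσ
    exact S.mem_img.2 ⟨g, (S.Q_le_K p v h1).1, h2, h3⟩
  nP := fun σ hσ τ hτ => by
    obtain ⟨g, h1, h2, rfl⟩ := S.mem_img.1 hσ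
    obtain ⟨q, h3, h4, rfl⟩ := S.mem_img.1 hτ
    refine S.mem_img.2 ⟨g * q * g⁻¹, ?_, ?_, ?_⟩
    · exact conj_mem_of_cj_eq (by rw [S.cj_Q, show g • v = v from h1]) h3
    · rw [mul_smul, mul_smul, inv_smul_eq_iff.2 h2.symm, h4, h2]
    · have := S.κ_conj g h4
      rwa [h2] at this
  pP := fun σ hσ => by
    obtain ⟨g, h1, rfl⟩ := hσ
    obtain ⟨k, hk⟩ := S.Q_pgroup p v ⟨g, h1⟩
    refine ⟨k, ?_⟩
    have hk' : (g : G) ^ p ^ k = 1 := by simpa only [SubmonoidClass.coe_pow, OneMemClass.coe_one] using congrArg Subtype.val hk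
    rw [← map_pow, show g ^ p ^ k = 1 from Subtype.ext (by exact_mod_cast hk'), map_one]
  max := fun M h1 h2 => by
    rcases S.max y v h ((M.comap (S.πl y)).map (MulAction.stabilizer G y).subtype)
      (fun g hy hv => ⟨⟨g, hy⟩, h1 (S.mem_img.2 ⟨g, hv, hy, rfl⟩), rfl⟩)
      (by rintro _ ⟨g, _, rfl⟩; exact g.2) with h3 | h3
    · refine Or.inl fun σ hσ => ?_
      obtain ⟨g, _, hy, rfl⟩ := S.mem_img.1 (h2 hσ)
      exact S.mem_img.2 ⟨g, h3 g ⟨⟨g, hy⟩, hσ, rfl⟩, hy, rfl⟩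
    · refine Or.inr fun σ hσ => ?_
      obtain ⟨g, _, hy, rfl⟩ := S.mem_img.1 hσ
      obtain ⟨g', h4, rfl⟩ := h3 g hy
      exact h4
  core := fun D h1 h2 => by
    refine eq_bot_iff.2 fun σ hσ => ?_
    obtain ⟨g, _, hy, rfl⟩ := S.mem_img.1 (h1 hσ)
    refine (S.ker g y hy).2 ⟨hy, fun w hw => ?_⟩
    obtain ⟨k, hk, rfl⟩ := S.arc y v y w h hw
    have hk' : k⁻¹ • y = y := inv_smul_eq_iff.2 hk.symm
    obtain ⟨g', h3, h4, h5⟩ := S.mem_img.1 (h1 (h2 _ (S.mem_img.2 ⟨k⁻¹, trivial, hk', rfl⟩) _ hσ))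
    have h6 := S.κ_conj k⁻¹ hy
    rw [hk', ← h5, inv_inv] at h6
    have h7 : (k⁻¹ * g * k) • y = y := by rw [mul_smul, mul_smul, hk, hy, hk']
    have h8 : g'⁻¹ * (k⁻¹ * g * k) ∈ S.K y := (S.ker _ y (by
      rw [mul_smul, h7, inv_smul_eq_iff, h4])).1 (by
      rw [S.κ_mul' h7, S.κ_inv' h4, h6, inv_mul_cancel])
    have h9 := h8.2 v h
    rwa [mul_smul, inv_smul_eq_iff, show g' • v = v from h3, mul_smul, mul_smul,
      inv_smul_eq_iff] at h9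
  fibp := fun σ hσ => by
    obtain ⟨g, _, _, rfl⟩ := S.mem_img.1 hσ
    exact S.fibp g y
  three := fun a b c h3 => by
    obtain ⟨g, h1, h2⟩ := S.three y a b c h3
    exact S.mem_img.2 ⟨g, trivial, h1, h2⟩
  big := S.big

instance normalQ (p : ℕ) (y : V) : ((S.Q p y).subgroupOf (MulAction.stabilizer G y)).Normal :=
  ⟨fun a ha g => by
    have : cj (g : G) (S.Q p y) = S.Q p y := by rw [S.cj_Q, show (g : G) • y = y from g.2]
    exact (conj_mem_of_cj_eq (a := (a : G)) this ha :)⟩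

/-- `G_y / Q_y` -/
abbrev Xb (p : ℕ) (y : V) : Type :=
  MulAction.stabilizer G y ⧸ (S.Q p y).subgroupOf (MulAction.stabilizer G y)

open Classical in
/-- the class of an element of `G_y` -/
noncomputable def cl (p : ℕ) (y : V) (g : G) : S.Xb p y :=
  if h : g • y = y then QuotientGroup.mk ⟨g, h⟩ else 1

theorem cl_eq {p : ℕ} {y : V} {g : G} (h : g • y = y) :
    S.cl p y g = QuotientGroup.mk ⟨g, h⟩ := dif_pos h

theorem cl_mul {p : ℕ} {y : V} {g h : G} (hg : g • y = y) (hh : h • y = y) :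
    S.cl p y (g * h) = S.cl p y g * S.cl p y h := by
  rw [S.cl_eq hg, S.cl_eq hh, S.cl_eq (show (g * h) • y = y by rw [mul_smul, hh, hg])]
  rfl

theorem cl_inv {p : ℕ} {y : V} {g : G} (hg : g • y = y) : S.cl p y g⁻¹ = (S.cl p y g)⁻¹ := by
  rw [S.cl_eq hg, S.cl_eq (inv_smul_eq_iff.2 hg.symm)]
  rfl

theorem cl_eq_one {p : ℕ} {y : V} {g : G} (hg : g • y = y) : S.cl p y g = 1 ↔ g ∈ S.Q p y := by
  rw [S.cl_eq hg, QuotientGroup.eq_one_iff]
  rfl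

theorem cl_surj {p : ℕ} {y : V} (x : S.Xb p y) : ∃ g : G, g • y = y ∧ S.cl p y g = x := by
  obtain ⟨g, rfl⟩ := QuotientGroup.mk_surjective x
  exact ⟨g, g.2, S.cl_eq g.2⟩

/-- the action of `G_y / Q_y` on `Ω` -/
def πb (p : ℕ) (y : V) : S.Xb p y →* Perm Ω :=
  QuotientGroup.lift _ (S.πl y) fun g hg => (S.ker g y g.2).2 (S.Q_le_K p y hg)

theorem πb_cl {p : ℕ} {y : V} {g : G} (hg : g • y = y) : S.πb p y (S.cl p y g) = S.κ g y := by
  rw [S.cl_eq hg]; rfl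

/-- image of a subgroup in `G_y / Q_y` -/
def imb (p : ℕ) (y : V) (A : Subgroup G) : Subgroup (S.Xb p y) :=
  (A.subgroupOf (MulAction.stabilizer G y)).map (QuotientGroup.mk' _)

theorem mem_imb {p : ℕ} {y : V} {A : Subgroup G} {x : S.Xb p y} :
    x ∈ S.imb p y A ↔ ∃ g ∈ A, g • y = y ∧ S.cl p y g = x :=
  ⟨fun ⟨g, h1, h2⟩ => ⟨g, h1, g.2, (S.cl_eq g.2).trans h2⟩,
    fun ⟨g, h1, h2, h3⟩ => ⟨⟨g, h2⟩, h1, (S.cl_eq h2).symm.trans h3⟩⟩

theorem cl_conj {p : ℕ} {y : V} {g h : G} (hg : g • y = y) (hh : h • y = y) :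
    S.cl p y (g * h * g⁻¹) = S.cl p y g * S.cl p y h * (S.cl p y g)⁻¹ := by
  rw [S.cl_mul (by rw [mul_smul, hh, hg]) (inv_smul_eq_iff.2 hg.symm), S.cl_mul hg hh, S.cl_inv hg]

theorem cl_eq_iff {p : ℕ} {y : V} {g h : G} (hg : g • y = y) (hh : h • y = y) :
    S.cl p y g = S.cl p y h ↔ g⁻¹ * h ∈ S.Q p y := by
  have hg' : g⁻¹ • y = y := inv_smul_eq_iff.2 hg.symm
  rw [← S.cl_eq_one (by rw [mul_smul, hh, hg']), S.cl_mul hg' hh, S.cl_inv hg, inv_mul_eq_one]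

theorem cl_pow {p : ℕ} {y : V} {g : G} (hg : g • y = y) (k : ℕ) :
    S.cl p y (g ^ k) = S.cl p y g ^ k := by
  rw [S.cl_eq hg, S.cl_eq (show g ^ k ∈ MulAction.stabilizer G y from Subgroup.pow_mem _ hg k),
    ← QuotientGroup.mk_pow]
  rfl

theorem EE_K {p : ℕ} {y : V} {e z : G} (he : e ∈ S.EE p y) (hz : z ∈ S.K y) :
    S.cl p y z * S.cl p y e = S.cl p y e * S.cl p y z := by
  induction he using Subgroup.closure_induction with
  | mem g hg =>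
    obtain ⟨w, hw, hg⟩ := hg
    have hgy := S.Q_fix p hw hg
    rw [← S.cl_mul hz.1 hgy, ← S.cl_mul hgy hz.1, S.cl_eq_iff (by rw [mul_smul, hgy, hz.1])
      (by rw [mul_smul, hz.1, hgy])]
    refine S.Q_inf_K p hw ⟨?_, ?_⟩
    · have : cj z (S.Q p w) = S.Q p w := by rw [S.cj_Q, hz.2 w hw]
      have h1 := Subgroup.mul_mem _ (Subgroup.inv_mem _ hg) (conj_mem_of_cj_eq' this hg)
      rwa [show g⁻¹ * (z⁻¹ * g * z) = (z * g)⁻¹ * (g * z) by group] at h1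
    · have : cj g (S.K y) = S.K y := by rw [S.cj_K, hgy]
      have h1 := Subgroup.mul_mem _ (conj_mem_of_cj_eq' this (Subgroup.inv_mem _ hz)) hz
      rwa [show g⁻¹ * z⁻¹ * g * z = (z * g)⁻¹ * (g * z) by group] at h1
  | one => rw [(S.cl_eq_one (one_smul _ _)).2 (Subgroup.one_mem _), mul_one, one_mul]
  | mul a b ha hb h1 h2 =>
    rw [S.cl_mul (S.EE_fix ha) (S.EE_fix hb), ← mul_assoc, h1, mul_assoc, h2, mul_assoc]
  | inv a ha h1 =>
    rw [S.cl_inv (S.EE_fix ha)]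
    exact (Commute.inv_right h1 :)

/-- the local data at a vertex -/
def loc' {p : ℕ} (hp : p.Prime) {y v : V} (h : S.adj y v) (hP : ¬ S.Q p v ≤ S.K y) :
    Loc (S.Xb p y) S.fib p where
  π := S.πb p y
  E := S.imb p y (S.EE p y)
  nE := ⟨fun x hx k => by
    obtain ⟨e, he, hy, rfl⟩ := S.mem_imb.1 hx
    obtain ⟨g, hg, rfl⟩ := S.cl_surj k
    have := S.EE_conj he g
    rw [hg] at this
    exact S.mem_imb.2 ⟨_, this, S.EE_fix this, S.cl_conj hg hy⟩⟩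
  cen := fun x hx h1 k hk => by
    obtain ⟨z, _, hy, rfl⟩ := S.mem_imb.1 hx
    obtain ⟨e, he, _, rfl⟩ := S.mem_imb.1 hk
    rw [S.πb_cl hy] at h1
    exact S.EE_K he ((S.ker z y hy).1 h1)
  cop := fun x hx h1 => by
    obtain ⟨z, hz, hy, rfl⟩ := S.mem_imb.1 hx
    rw [S.πb_cl hy] at h1
    have hK := (S.ker z y hy).1 h1
    obtain ⟨a, k, hk, e⟩ := Nat.exists_eq_pow_mul_and_not_dvd (orderOf_pos z).ne' p hp.ne_one
    refine ⟨k, ((Nat.Prime.coprime_iff_not_dvd hp).2 hk).symm, ?_⟩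
    rw [← S.cl_pow hy, S.cl_eq_one (Subgroup.pow_mem (MulAction.stabilizer G y) hy k)]
    have hw : (z ^ k) ^ p ^ a = 1 := by rw [← pow_mul, mul_comm, ← e, pow_orderOf_eq_one]
    have hP1 : IsPGroup p (Subgroup.zpowers (z ^ k)) := fun g => ⟨a, Subtype.ext (by
      obtain ⟨_, j, rfl⟩ := g
      change ((z ^ k) ^ j) ^ p ^ a = 1
      rw [← zpow_natCast, ← zpow_mul, mul_comm, zpow_mul, zpow_natCast, hw, one_zpow])⟩
    have hQn : ∀ g : G, g • y = y → cj g (S.Q p y) = S.Q p y := fun g hg => by rw [S.cj_Q, hg]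
    have hle : Subgroup.zpowers (z ^ k) ≤ S.K y := Subgroup.zpowers_le.2 (Subgroup.pow_mem _ hK k)
    have hc : ∀ g ∈ S.K y, ∀ u ∈ S.Q p y ⊔ Subgroup.zpowers (z ^ k),
        g * u * g⁻¹ ∈ S.Q p y ⊔ Subgroup.zpowers (z ^ k) := fun g hg => by
      have : S.Q p y ⊔ Subgroup.zpowers (z ^ k) ≤ cj g⁻¹ (S.Q p y ⊔ Subgroup.zpowers (z ^ k)) := by
        refine sup_le (fun u hu => ?_) (Subgroup.zpowers_le.2 ?_)
        · rw [mem_cj, inv_inv]
          exact Subgroup.mem_sup_left (conj_mem_of_cj_eq (hQn g hg.1) hu)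
        · rw [mem_cj, inv_inv]
          have hzk : z ^ k ∈ S.EE p y := Subgroup.pow_mem _ hz k
          have h2 := S.EE_K hzk hg
          rw [← mul_inv_eq_iff_eq_mul, ← S.cl_conj hg.1 (S.EE_fix hzk), eq_comm,
            S.cl_eq_iff (S.EE_fix hzk) (by
              rw [mul_smul, mul_smul, inv_smul_eq_iff.2 hg.1.symm, S.EE_fix hzk, hg.1])] at h2
          have := Subgroup.mul_mem _ (Subgroup.mem_sup_right (S := S.Q p y)
            (Subgroup.mem_zpowers (z ^ k))) (Subgroup.mem_sup_left h2)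
          rwa [mul_inv_cancel_left] at this
      intro u hu
      simpa only [inv_inv] using mem_cj.1 (this hu)
    exact le_Op (sup_le (S.Q_le_K p y) hle)
      (isPGroup_sup (S.Q_pgroup p y) hP1 fun g hg => hQn g (hle hg).1)
      (fun g hg => cj_eq_of_le (hc g hg) fun u hu => by
        simpa only [inv_inv] using hc g⁻¹ (Subgroup.inv_mem _ hg) u hu)
      (Subgroup.mem_sup_right (Subgroup.mem_zpowers _))
  fibp := fun x => by
    obtain ⟨g, hg, rfl⟩ := S.cl_surj x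
    rw [S.πb_cl hg]
    exact S.fibp g y
  three := fun a b c h3 => by
    have := (S.pset p h).P0 (D := S.img y (S.EE p y)) (fun hb => hP fun q hq => by
      have hy := S.Q_fix p h hq
      have : S.κ q y ∈ (S.pset p h).P := S.mem_img.2 ⟨q, hq, hy, rfl⟩
      rw [hb, Subgroup.mem_bot] at this
      exact (S.ker q y hy).1 this) (fun σ hσ τ hτ => by
      obtain ⟨g, _, hg, rfl⟩ := S.mem_img.1 hσ
      obtain ⟨e, he, hy, rfl⟩ := S.mem_img.1 hτ
      have h1 := S.EE_conj he g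
      have h2 := S.κ_conj g hy
      rw [hg] at h1 h2
      exact S.mem_img.2 ⟨_, h1, S.EE_fix h1, h2⟩) (fun σ hσ => by
      obtain ⟨q, hq, hy, rfl⟩ := S.mem_img.1 hσ
      exact S.mem_img.2 ⟨q, S.Q_le_EE h hq, hy, rfl⟩) h3
    obtain ⟨e, he, hy, h4⟩ := S.mem_img.1 this
    exact ⟨_, S.mem_imb.2 ⟨e, he, hy, rfl⟩, (S.πb_cl hy).trans h4⟩
  big := S.big

/-- sections of `G_y` centralised by `Q_y` as modules -/
theorem exists_module (p : ℕ) (y : V) (A C : Subgroup G)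
    (nA : ∀ g : G, g • y = y → ∀ z ∈ A, g * z * g⁻¹ ∈ A)
    (nC : ∀ g : G, g • y = y → ∀ z ∈ C, g * z * g⁻¹ ∈ C)
    (hc : ∀ z ∈ A, ∀ z' ∈ A, z * z' = z' * z) (hp : ∀ z ∈ A, z ^ p = 1)
    (hQ : ∀ q ∈ S.Q p y, ∀ z ∈ A, cc q z ∈ C) :
    ∃ (W : Type) (_ : AddCommGroup W) (_ : DistribMulAction (S.Xb p y) W) (_ : Finite W)
      (f : G → W), (∀ w : W, p • w = 0) ∧ (∀ w, ∃ z ∈ A, f z = w) ∧
      (∀ z ∈ A, ∀ z' ∈ A, f (z * z') = f z + f z') ∧ (∀ z ∈ A, f z = 0 ↔ z ∈ C) ∧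
      ∀ g : G, g • y = y → ∀ z ∈ A, S.cl p y g • f z = f (g * z * g⁻¹) := by
  classical
  let _ : CommGroup A := { (inferInstance : Group A) with
    mul_comm := fun a b => Subtype.ext (hc a a.2 b b.2) }
  let N : Subgroup A := C.subgroupOf A
  let cA : MulAction.stabilizer G y → A →* A := fun g =>
    { toFun := fun z => ⟨g * z * (g : G)⁻¹, nA g g.2 z z.2⟩
      map_one' := Subtype.ext (by simp)
      map_mul' := fun a b => Subtype.ext (by simp only [Subgroup.coe_mul, mul_assoc, MulMemClass.mk_mul_mk, inv_mul_cancel_left]) }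
  let ρ0 : MulAction.stabilizer G y →* Monoid.End (A ⧸ N) :=
    { toFun := fun g => QuotientGroup.map N N (cA g) fun z hz => nC g g.2 z hz
      map_one' := by
        refine QuotientGroup.monoidHom_ext _ (MonoidHom.ext fun z => ?_)
        exact congrArg QuotientGroup.mk (Subtype.ext (by simp only [cA, OneMemClass.coe_one, one_mul, inv_one, mul_one, Subtype.coe_eta, MonoidHom.coe_mk, OneHom.coe_mk]))
      map_mul' := fun g h => by
        refine QuotientGroup.monoidHom_ext _ (MonoidHom.ext fun z => ?_)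
        exact congrArg QuotientGroup.mk (Subtype.ext (by simp only [cA, mul_assoc, Subgroup.coe_mul, mul_inv_rev, MonoidHom.coe_mk, OneHom.coe_mk])) }
  let ρ : S.Xb p y →* Monoid.End (A ⧸ N) := QuotientGroup.lift _ ρ0 fun q hq => by
    refine QuotientGroup.monoidHom_ext _ (MonoidHom.ext fun z => ?_)
    change (QuotientGroup.mk (cA q z) : A ⧸ N) = QuotientGroup.mk z
    rw [QuotientGroup.eq_iff_div_mem, div_eq_mul_inv]
    exact hQ q hq z z.2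
  let act : DistribMulAction (S.Xb p y) (Additive (A ⧸ N)) :=
    { smul := fun x w => Additive.ofMul (ρ x w.toMul)
      one_smul := fun w => by
        change Additive.ofMul (ρ 1 w.toMul) = w
        rw [map_one]; rfl
      mul_smul := fun x x' w => by
        change Additive.ofMul (ρ (x * x') w.toMul) = Additive.ofMul (ρ x (ρ x' w.toMul))
        rw [map_mul]; rfl
      smul_zero := fun x => congrArg Additive.ofMul (map_one (ρ x))
      smul_add := fun x a b => congrArg Additive.ofMul (map_mul (ρ x) a.toMul b.toMul) }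
  let f : G → Additive (A ⧸ N) := fun g =>
    if h : g ∈ A then Additive.ofMul (QuotientGroup.mk ⟨g, h⟩) else 0
  have hf : ∀ g (h : g ∈ A), f g = Additive.ofMul (QuotientGroup.mk ⟨g, h⟩) := fun g h => dif_pos h
  refine ⟨Additive (A ⧸ N), inferInstance, act, inferInstance, f, fun w => ?_, fun w => ?_,
    fun z hz z' hz' => ?_, fun z hz => ?_, fun g hg z hz => ?_⟩
  · obtain ⟨z, hz⟩ := QuotientGroup.mk_surjective w.toMul
    change Additive.ofMul (w.toMul ^ p) = Additive.ofMul 1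
    rw [← hz, ← QuotientGroup.mk_pow, show z ^ p = 1 from Subtype.ext (hp z z.2)]
    rfl
  · obtain ⟨z, hz⟩ := QuotientGroup.mk_surjective w.toMul
    exact ⟨z, z.2, by rw [hf z z.2]; exact congrArg Additive.ofMul hz⟩
  · rw [hf z hz, hf z' hz', hf _ (A.mul_mem hz hz')]
    rfl
  · rw [hf z hz]
    exact QuotientGroup.eq_one_iff (N := N) ⟨z, hz⟩
  · rw [hf z hz, hf _ (nA g hg z hz), S.cl_eq hg]
    rfl

variable {S}

theorem Q_not_le {p n : ℕ} [Fact p.Prime] (hn : S.toSetup.NT p) (hb : S.toSetup.IsB p n)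
    {x y : V} (h : S.toSetup.Crit p n x y) {u v : V} (huv : S.adj u v) : ¬ S.Q p v ≤ S.K u := by
  intro hle
  obtain ⟨x₁, h1, h2⟩ := h.1
  obtain ⟨g, rfl, rfl⟩ := S.arc x x₁ u v h1 huv
  rw [← S.cj_Q, ← S.cj_K] at hle
  have := cj_mono g⁻¹ hle
  rw [cj_inv_cj, cj_inv_cj] at this
  exact (h.symm hn hb).notK hb ((hb n le_rfl y x₁ (S.Dn_symm h2)).trans this)

/-- a best offender in the image of `Q x₁` on `Z x` -/
def HasOff (S : Alt G V Ω I) (p : ℕ) [Fact p.Prime] : Prop :=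
  ∃ (x x₁ : V) (h1 : S.adj x x₁) (hP : ¬ S.Q p x₁ ≤ S.K x) (W : Type) (_ : AddCommGroup W)
    (_ : DistribMulAction (S.Xb p x) W) (_ : Finite W) (f : G → W) (B : Subgroup (S.Xb p x)),
    (∀ w, ∃ z ∈ S.Z p x, f z = w) ∧
    (∀ z ∈ S.Z p x, ∀ z' ∈ S.Z p x, f (z * z') = f z + f z') ∧
    (∀ z ∈ S.Z p x, f z = 0 ↔ z = 1) ∧
    (∀ g : G, g • x = x → ∀ z ∈ S.Z p x, S.cl p x g • f z = f (g * z * g⁻¹)) ∧
    (S.loc' Fact.out h1 hP).Off W B ∧ B ≤ S.imb p x (S.Q p x₁)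

theorem Z_conj {p : ℕ} {x : V} {g z : G} (hg : g • x = x) (hz : z ∈ S.Z p x) :
    g * z * g⁻¹ ∈ S.Z p x := conj_mem_of_cj_eq (by rw [S.cj_Z, hg]) hz

theorem f_inj {A : Subgroup G} {W : Type} [AddCommGroup W] {f : G → W}
    (h1 : ∀ z ∈ A, ∀ z' ∈ A, f (z * z') = f z + f z') {z z' : G} (hz : z ∈ A) (hz' : z' ∈ A) :
    f (z * z'⁻¹) = f z - f z' := by
  rw [eq_sub_iff_add_eq, ← h1 _ (A.mul_mem hz (A.inv_mem hz')) _ hz', inv_mul_cancel_right]

theorem exists_off' {p n : ℕ} [Fact p.Prime] (hn : S.toSetup.NT p) (hb : S.toSetup.IsB p n)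
    {x y : V} (h : S.toSetup.Crit p n x y)
    (hle : (S.K y).relIndex (S.Z p x) ≤ (S.K x).relIndex (S.Z p y)) : S.HasOff p := by
  obtain ⟨x₁, h1, d1⟩ := h.1
  obtain ⟨y', d2, h2⟩ := Dn_unsnoc h.1
  have hP := Q_not_le hn hb h h1
  obtain ⟨W, _, _, _, f, hp, hs, hm, h0, he⟩ := S.exists_module p x (S.Z p x) ⊥
    (fun g hg z hz => Z_conj hg hz) (fun g _ z hz => by simp [Subgroup.mem_bot.1 hz])
    (fun z hz z' hz' => hz'.2.2 z hz.1) (fun z hz => hz.2.1)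
    (fun q hq z hz => by rw [cc, hz.2.2 q hq]; simp only [mul_inv_cancel_right, mul_inv_cancel, one_mem])
  have h0' : ∀ z ∈ S.Z p x, f z = 0 ↔ z = 1 := fun z hz => (h0 z hz).trans Subgroup.mem_bot
  have hinj : ∀ z ∈ S.Z p x, ∀ z' ∈ S.Z p x, f z = f z' → z = z' := fun z hz z' hz' e => by
    rw [← mul_inv_eq_one, ← h0' _ (Subgroup.mul_mem _ hz (Subgroup.inv_mem _ hz')),
      f_inj hm hz hz', e, sub_self]
  have hZ : S.Z p y ≤ S.Q p x₁ := hb n le_rfl y x₁ (S.Dn_symm d1)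
  have hfix : ∀ c ∈ S.Z p y, c • x = x := fun c hc => hb.fix h.1 hc
  obtain ⟨B, hB, hO⟩ := Loc.exists_off (L := S.loc' Fact.out h1 hP) (M := W)
    (A := S.imb p x (S.Z p y)) hp (fun g hg => by
      obtain ⟨g, hx, rfl⟩ := S.cl_surj g
      refine (S.πb_cl hx).trans ((S.ker g x hx).2 (hn.cent hx fun z hz => ?_))
      rw [← mul_inv_eq_iff_eq_mul]
      exact hinj _ (Z_conj hx hz) _ hz (by rw [← he g hx z hz, hg]))
    (fun a ha => by
      obtain ⟨c, hc, hx, rfl⟩ := S.mem_imb.1 ha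
      exact S.mem_imb.2 ⟨c, S.Q_le_EE h1 (hZ hc), hx, rfl⟩)
    (fun a ha => by
      obtain ⟨c, hc, hx, rfl⟩ := S.mem_imb.1 ha
      rw [← S.cl_pow hx, hc.2.1, S.cl_eq_one (one_smul _ _)]
      exact Subgroup.one_mem _)
    (fun a ha b hb' => by
      obtain ⟨c, hc, hx, rfl⟩ := S.mem_imb.1 ha
      obtain ⟨c', hc', hx', rfl⟩ := S.mem_imb.1 hb'
      rw [← S.cl_mul hx hx', ← S.cl_mul hx' hx, hc'.2.2 c hc.1])
    (fun a ha b hb' m => by
      obtain ⟨c, hc, hx, rfl⟩ := S.mem_imb.1 ha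
      obtain ⟨c', hc', hx', rfl⟩ := S.mem_imb.1 hb'
      obtain ⟨z, hz, rfl⟩ := hs m
      have hzy : z • y = y := hb.fix (S.Dn_symm h.1) hz
      have hr : c' * z * c'⁻¹ * z⁻¹ ∈ S.Z p y := by
        have := Subgroup.mul_mem _ hc' (Z_conj hzy (Subgroup.inv_mem _ hc'))
        rwa [show c' * (z * c'⁻¹ * z⁻¹) = c' * z * c'⁻¹ * z⁻¹ by group] at this
      rw [he c' hx' z hz, ← f_inj hm (Z_conj hx' hz) hz,
        he c hx _ (Subgroup.mul_mem _ (Z_conj hx' hz) (Subgroup.inv_mem _ hz)), hr.2.2 c hc.1,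
        mul_inv_cancel_right])
    (fun hbot => (h.symm hn hb).2 fun c hc => by
      have : S.cl p x c ∈ S.imb p x (S.Z p y) := S.mem_imb.2 ⟨c, hc, hfix c hc, rfl⟩
      rwa [hbot, Subgroup.mem_bot, S.cl_eq_one (hfix c hc)] at this) (by
      have i1 : Nat.card W ≤ Nat.card (S.Z p x) :=
        Nat.card_le_card_of_surjective (fun z : S.Z p x => f z) fun w => by
          obtain ⟨z, hz, e⟩ := hs w
          exact ⟨⟨z, hz⟩, e⟩
      have i2 : Nat.card ((S.K y).subgroupOf (S.Z p x)) ≤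
          Nat.card (FixS W (S.imb p x (S.Z p y))) :=
        Nat.card_le_card_of_injective (fun z => ⟨f z.1, fun a ha => by
          obtain ⟨c, hc, hx, rfl⟩ := S.mem_imb.1 ha
          have hq : (z.1 : G) ∈ S.Q p y :=
            S.Q_inf_K p (S.symm h2) ⟨hb n le_rfl x y' d2 z.1.2, z.2⟩
          rw [he c hx _ z.1.2, ← hc.2.2 _ hq, mul_inv_cancel_right]⟩) fun z z' e =>
          Subtype.ext (Subtype.ext (hinj _ z.1.2 _ z'.1.2 (congrArg Subtype.val e)))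
      have i3 : (S.K x).relIndex (S.Z p y) ≤ Nat.card (S.imb p x (S.Z p y)) := by
        rw [imb, ← Subgroup.relIndex_ker, QuotientGroup.ker_mk',
          Subgroup.relIndex_subgroupOf (fun c hc => hfix c hc)]
        exact Subgroup.relIndex_le_of_le_left (S.Q_le_K p x) Subgroup.index_ne_zero_of_finite
      refine i1.trans ?_
      rw [← ((S.K y).subgroupOf (S.Z p x)).card_mul_index]
      exact Nat.mul_le_mul i2 (hle.trans i3))
  refine ⟨x, x₁, h1, hP, W, inferInstance, inferInstance, inferInstance, f, B, hs, hm, h0', he, hO,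
    hB.trans fun a ha => ?_⟩
  obtain ⟨c, hc, hx, rfl⟩ := S.mem_imb.1 ha
  exact S.mem_imb.2 ⟨c, hZ hc, hx, rfl⟩

theorem exists_off {p n : ℕ} [Fact p.Prime] (hn : S.toSetup.NT p) (hb : S.toSetup.IsB p n)
    {x y : V} (h : S.toSetup.Crit p n x y) : S.HasOff p := by
  rcases le_total ((S.K y).relIndex (S.Z p x)) ((S.K x).relIndex (S.Z p y)) with hle | hle
  · exact exists_off' hn hb h hle
  · exact exists_off' hn hb (h.symm hn hb) hle

theorem off_R {p : ℕ} (hp : p.Prime) {x x₁ : V} (h1 : S.adj x x₁) (hP : ¬ S.Q p x₁ ≤ S.K x)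
    {B : Subgroup (S.Xb p x)} (hB : B ≤ S.imb p x (S.Q p x₁))
    (hF : ∀ b ∈ B, FP S.fib ((S.loc' hp h1 hP).π b)) (σ : Perm Ω)
    (hσ : ∃ b ∈ B, (S.loc' hp h1 hP).π b = σ) : (S.pset p h1).R σ := by
  obtain ⟨b, hb, rfl⟩ := hσ
  refine ⟨?_, hF b hb⟩
  obtain ⟨q, hq, hx, rfl⟩ := S.mem_imb.1 (hB hb)
  exact S.mem_img.2 ⟨q, hq, hx, (S.πb_cl hx).symm⟩

theorem odd_false {p n : ℕ} [Fact p.Prime] (h2 : p ≠ 2) (hn : S.toSetup.NT p)
    (hb : S.toSetup.IsB p n) {x y : V} (h : S.toSetup.Crit p n x y) : False := by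
  obtain ⟨x, x₁, h1, hP, W, _, _, _, f, B, -, -, -, -, hO, hB⟩ := exists_off hn hb h
  have hp : p.Prime := Fact.out
  by_cases h3 : p = 3
  · subst h3
    exact hO.three
  · have h5 : 5 ≤ p := hp.five_le_of_ne_two_of_ne_three h2 h3
    have hR := off_R hp h1 hP hB fun b hb => hO.FP_odd hp h2 hb
    obtain ⟨b, hb, α, hα⟩ := hO.exists_moved
    have := (S.pset p h1).lemmaC_odd hp h5 ⟨_, hR _ ⟨b, hb, rfl⟩, fun e => hα (by rw [e]; rfl)⟩
    exact hO.five hp h5 fun g hg => this g (hR g hg)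

theorem isT_iff {y v : V} (h : S.adj y v) (hP : ¬ S.Q 2 v ≤ S.K y) {g : G} (hg : g ∈ S.EE 2 y)
    {a b c : Ω} (h3 : D3 S.fib a b c) :
    S.IsT y g a b c ↔ S.cl 2 y g = (S.loc' Nat.prime_two h hP).T a b c := by
  have hy := S.EE_fix hg
  constructor
  · rintro ⟨-, h2, k, hk, h4⟩
    have hky := S.EE_fix hk
    refine (S.loc' Nat.prime_two h hP).lift_unique h3 ⟨S.mem_imb.2 ⟨g, hg, hy, rfl⟩,
      (S.πb_cl hy).trans h2, _, S.mem_imb.2 ⟨k, hk, hky, rfl⟩, ?_⟩ (Loc.T_lift h3)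
    have h5 : (k * g * k⁻¹) • y = y := by
      rw [mul_smul, mul_smul, inv_smul_eq_iff.2 hky.symm, hy, hky]
    rw [eq_inv_iff_mul_eq_one, ← S.cl_conj hky hy, ← S.cl_mul h5 hy,
      S.cl_eq_one (by rw [mul_smul, hy, h5])]
    exact h4
  · intro e
    obtain ⟨-, h2, k, hk, h4⟩ := Loc.T_lift (L := S.loc' Nat.prime_two h hP) h3
    obtain ⟨k, hk', hky, rfl⟩ := S.mem_imb.1 hk
    rw [← e] at h2 h4
    refine ⟨hg, (S.πb_cl hy).symm.trans h2, k, hk', ?_⟩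
    have h5 : (k * g * k⁻¹) • y = y := by
      rw [mul_smul, mul_smul, inv_smul_eq_iff.2 hky.symm, hy, hky]
    rw [← S.cl_eq_one (by rw [mul_smul, hy, h5]), S.cl_mul h5 hy, S.cl_conj hky hy, h4,
      inv_mul_cancel]

theorem blk_iff {y v : V} (h : S.adj y v) {a a' : Ω} :
    Blk (S.pset 2 h).P a a' ↔ S.Bl y v a a' :=
  and_congr Iff.rfl ⟨fun ⟨_, hσ, e⟩ => by
      obtain ⟨q, hq, _, rfl⟩ := S.mem_img.1 hσ
      exact ⟨q, hq, e⟩,
    fun ⟨q, hq, e⟩ => ⟨_, S.mem_img.2 ⟨q, hq, S.Q_fix 2 h hq, rfl⟩, e⟩⟩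

theorem bl_back {y v : V} (h : S.adj y v) (g : G) {a a' : Ω} (hb : S.Bl (g • y) (g • v) a a') :
    S.Bl y v ((S.κ g y)⁻¹ a) ((S.κ g y)⁻¹ a') := by
  have := hb.smul (S.inv g h) g⁻¹
  rwa [S.κ_inv, inv_smul_smul, inv_smul_smul] at this

theorem fib_inv (g : G) (y : V) {a b : Ω} (h : S.fib a = S.fib b) :
    S.fib ((S.κ g y)⁻¹ a) = S.fib ((S.κ g y)⁻¹ b) := by
  rw [← S.κ_inv]; exact S.fibp _ _ _ _ h

theorem cl_sq {y : V} {t : G} (ht : t • y = y) (h : t * t ∈ S.Q 2 y) :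
    S.cl 2 y t * S.cl 2 y t = 1 := by
  rw [← S.cl_mul ht ht, S.cl_eq_one (by rw [mul_smul, ht, ht])]; exact h

theorem wv4_aux {y v : V} (h : S.adj y v) (hP : ¬ S.Q 2 v ≤ S.K y) (A : Subgroup G)
    (nA : ∀ g : G, g • y = y → ∀ z ∈ A, g * z * g⁻¹ ∈ A)
    (hc : ∀ z ∈ A, ∀ z' ∈ A, z * z' = z' * z) (h2 : ∀ z ∈ A, z * z = 1)
    (hQ : ∀ q ∈ S.Q 2 y, ∀ z ∈ A, cc q z ∈ S.Z 2 y) {u a : G} (hu : u • y = y) (ha : a • y = y)
    (hua : S.κ u y * S.κ a y = S.κ a y * S.κ u y) {α α' β : Ω} (h0 : D2 S.fib α α')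
    (e1 : S.κ u y α = α') (e2 : S.κ u y α' = α) (l : List Ω) (hl : l.length ≤ 8)
    (hfix : ∀ x, S.fib x = S.fib α → x ∉ l → S.κ u y x = x) (hβ : S.fib β = S.fib α)
    (e3 : S.κ u y β = β) (e4 : S.κ a y β ≠ β) (e5 : S.fib (S.κ a y β) = S.fib β)
    (hq : ∀ z ∈ A, cc a (cc u z) ∈ S.Z 2 y) {t g : G} {a₁ a₂ a₃ a₄ : Ω}
    (f1 : S.fib a₁ = S.fib α) (h3 : D3 S.fib a₁ a₂ a₃) (f4 : S.fib a₄ = S.fib a₁)
    (hn : a₄ ∉ [a₁, a₂, a₃]) (ht : t ∈ S.EE 2 y) (htt : t * t ∈ S.Q 2 y)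
    (et : S.κ t y = swap a₁ a₂ * swap a₃ a₄) (hg : S.IsT y g a₁ a₂ a₃) {z : G} (hz : z ∈ A)
    (c1 : cc t z ∈ S.Z 2 y) (c2 : cc (g * t * g⁻¹) z ∈ S.Z 2 y) : cc g z ∈ S.Z 2 y := by
  obtain ⟨W, _, _, _, f, hp, hs, hm, hz0, he⟩ := S.exists_module 2 y A (S.Z 2 y) nA
    (fun g hg z hz => Z_conj hg hz) hc (fun z hz => by rw [pow_two, h2 z hz]) hQ
  have key : ∀ k : G, k • y = y → ∀ z ∈ A, f (cc k z) = S.cl 2 y k • f z - f z :=
    fun k hk z hz => by rw [he k hk z hz, cc, f_inj hm (nA k hk z hz) hz]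
  have hcc : ∀ k : G, k • y = y → ∀ z ∈ A, cc k z ∈ A := fun k hk z hz =>
    A.mul_mem (nA k hk z hz) (A.inv_mem hz)
  have key' : ∀ k : G, k • y = y → ∀ z ∈ A, (cc k z ∈ S.Z 2 y ↔ S.cl 2 y k • f z = f z) :=
    fun k hk z hz => by rw [← hz0 _ (hcc k hk z hz), key k hk z hz, sub_eq_zero]
  let L := S.loc' Nat.prime_two h hP
  have hπ : ∀ k : G, k • y = y → L.π (S.cl 2 y k) = S.κ k y := fun k hk => S.πb_cl hk
  have hW : L.WO W α := Loc.lemmaW (u := S.cl 2 y u) (a := S.cl 2 y a) (β := β)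
    (by rw [hπ u hu, hπ a ha, hua]) h0 (by rw [hπ u hu, e1]) (by rw [hπ u hu, e2]) l hl
    (by rw [hπ u hu]; exact hfix) hβ (by rw [hπ u hu, e3]) (by rw [hπ a ha]; exact e4)
    (by rw [hπ a ha, e5]) fun m => by
      obtain ⟨z, hz, rfl⟩ := hs m
      rw [← key u hu z hz, ← key' a ha _ (hcc u hu z hz)]
      exact hq z hz
  have hW' : L.WO W a₁ := hW.map 1 (by rw [map_one, Perm.one_apply, f1])
  have hty := S.EE_fix ht
  have hgy := S.EE_fix hg.1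
  have eg := (isT_iff h hP hg.1 h3).1 hg
  rw [key' g hgy z hz, eg]
  refine Loc.V4 hp hW' h3 f4 hn (t := S.cl 2 y t) (S.mem_imb.2 ⟨t, ht, hty, rfl⟩) (cl_sq hty htt)
    ((hπ t hty).trans et) ((key' t hty z hz).1 c1) ?_
  rw [← eg, ← S.cl_conj hgy hty, ← key' _ (by
    rw [mul_smul, mul_smul, inv_smul_eq_iff.2 hgy.symm, hty, hgy]) z hz]
  exact c2

theorem exists_am {n : ℕ} (hn : S.toSetup.NT 2) (hb : S.toSetup.IsB 2 n) {x y : V}
    (h : S.toSetup.Crit 2 n x y) : Nonempty S.Am := by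
  have : Fact (Nat.Prime 2) := ⟨Nat.prime_two⟩
  have hPP : ∀ {u v : V}, S.adj u v → ¬ S.Q 2 v ≤ S.K u := fun huv => Q_not_le hn hb h huv
  obtain ⟨x₀, x₁, h1, hP, W, _, _, _, f, B, hs, hm, h0, he, hO, hB⟩ := exists_off hn hb h
  have hR := off_R Nat.prime_two h1 hP hB fun b hb => hO.FP_two hb
  obtain ⟨b, hbB, α, hα⟩ := hO.exists_moved
  have hT : TT S.fib (S.pset 2 h1).P := by
    rcases (S.pset 2 h1).lemmaC_two ⟨_, hR _ ⟨b, hbB, rfl⟩, fun e => hα (by rw [e]; rfl)⟩ with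
      ⟨hN, hS⟩ | hT
    · refine (hO.notNoT (hO.WO (hS.imp (fun h g hg => h g (hR g hg)) fun h a => ?_) hbB hα)
        hbB hα fun g hg a ha => ?_).elim
      · obtain ⟨l, h1, h2⟩ := h a
        exact ⟨l, h1, fun g hg => h2 g (hR g hg)⟩
      · obtain ⟨O, h1, h2, h3, h4⟩ := hN g (hR g hg) a ha
        exact ⟨O, h1, h2, h3, fun k hk => h4 k (hR k hk)⟩
    · exact hT
  have hW := hO.WO (Or.inr fun a => by
    obtain ⟨l, h1, h2⟩ := hT.O4 a
    exact ⟨l, h1, fun g hg => h2 g (hR g hg).1⟩) hbB hα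
  have hβ : D2 S.fib α ((S.loc' Nat.prime_two h1 hP).π b α) := ⟨hα.symm, hO.FP_two hbB α⟩
  obtain ⟨N⟩ := Loc.exists_nat hO.chr (fun a b => by
    obtain ⟨σ, hσ, e⟩ := (S.pset 2 h1).trFib hT a b
    obtain ⟨g, _, hg, rfl⟩ := S.mem_img.1 hσ
    exact ⟨S.cl 2 x₀ g, by rw [← e]; exact congrArg (fun σ : Perm Ω => S.fib (σ a)) (S.πb_cl hg)⟩)
    hW hβ (hO.card_SS hW hbB hα hβ)
  have hvt : ∀ v : V, ∃ g : G, g • x₀ = v := fun v => by
    obtain ⟨m, hm⟩ := S.conn v x₀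
    rcases m with _ | m
    · exact ⟨1, (one_smul _ _).trans (Eq.symm hm)⟩
    · obtain ⟨w, hw, _⟩ := hm
      obtain ⟨g, hg, _⟩ := S.arc x₀ x₁ v w h1 hw
      exact ⟨g, hg⟩
  choose r hr using hvt
  have hnb : ∀ v, S.adj v (r v • x₁) := fun v => by
    have := S.inv (r v) h1
    rwa [hr] at this
  choose s0 hs0 hs0' using fun a b => hs (N.s a b)
  have hinj : ∀ z ∈ S.Z 2 x₀, ∀ z' ∈ S.Z 2 x₀, f z = f z' → z = z' := fun z hz z' hz' e => by
    rw [← mul_inv_eq_one, ← h0 _ (Subgroup.mul_mem _ hz (Subgroup.inv_mem _ hz')),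
      f_inj hm hz hz', e, sub_self]
  have s0e : ∀ g : G, g • x₀ = x₀ → ∀ a b, D2 S.fib a b →
      g * s0 a b * g⁻¹ = s0 (S.κ g x₀ a) (S.κ g x₀ b) := fun g hg a b hab =>
    hinj _ (Z_conj hg (hs0 a b)) _ (hs0 _ _) (by
      rw [← he g hg _ (hs0 a b), hs0', hs0', N.eqv _ a b hab, ← S.πb_cl (p := 2) hg]; rfl)
  have d2 : ∀ v a b, D2 S.fib a b → D2 S.fib ((S.κ (r v) x₀)⁻¹ a) ((S.κ (r v) x₀)⁻¹ b) :=
    fun v a b h => ⟨(Equiv.injective _).ne h.ab, fib_inv _ _ h.fb⟩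
  have hfp : ∀ y v, S.adj y v → ∀ q ∈ S.Q 2 v, FP S.fib (S.κ q y) := fun y v hyv q hq a => by
    obtain ⟨g, rfl, rfl⟩ := S.arc x₀ x₁ y v h1 hyv
    rw [← S.cj_Q, mem_cj] at hq
    have e := S.κ_conj g (S.Q_fix 2 h1 hq)
    rw [show g * (g⁻¹ * q * g) * g⁻¹ = q by group] at e
    have := S.fibp g x₀ _ _ (hT.fp _ (S.mem_img.2 ⟨_, hq, S.Q_fix 2 h1 hq, rfl⟩) ((S.κ g x₀)⁻¹ a))
    rw [e]
    simpa only [Perm.coe_mul, Perm.coe_inv, Function.comp_apply, apply_symm_apply] using this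
  have htwo : ∀ y v, S.adj y v → ∀ a a' a'', S.Bl y v a a' → S.Bl y v a a'' → a' = a'' :=
    fun y v hyv a a' a'' b1 b2 => by
      obtain ⟨g, rfl, rfl⟩ := S.arc x₀ x₁ y v h1 hyv
      exact (Equiv.injective _) (hT.two _ _ _ ((blk_iff h1).2 (bl_back h1 g b1))
        ((blk_iff h1).2 (bl_back h1 g b2)))
  have hty : (∀ y v, S.adj y v → S.TyM y v) ∨ ∀ y v, S.adj y v → S.TyD y v :=
    hT.ty.imp (fun hM y v hyv a => by
      obtain ⟨g, rfl, rfl⟩ := S.arc x₀ x₁ y v h1 hyv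
      obtain ⟨a', ha'⟩ := hM ((S.κ g x₀)⁻¹ a)
      have := ((blk_iff h1).1 ha').smul h1 g
      exact ⟨_, by simpa using this⟩) fun hD y v hyv a => by
      obtain ⟨g, rfl, rfl⟩ := S.arc x₀ x₁ y v h1 hyv
      obtain ⟨c, c', e1, e2, e3⟩ := hD ((S.κ g x₀)⁻¹ a)
      refine ⟨_, _, by simpa using S.fibp g x₀ _ _ e1, ((blk_iff h1).1 e2).smul h1 g,
        fun z z' hz hb => ?_⟩
      refine (e3 _ _ (fib_inv g x₀ hz) ((blk_iff h1).2 (bl_back h1 g hb))).imp ?_ ?_ <;>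
        (intro e; rw [← e]; simp)
  have hTT : ∀ y v (hyv : S.adj y v), TT S.fib (S.pset 2 hyv).P := fun y v hyv =>
    ⟨fun σ hσ => by
      obtain ⟨q, hq, _, rfl⟩ := S.mem_img.1 hσ
      exact hfp y v hyv q hq,
    fun a a' a'' b1 b2 => htwo y v hyv a a' a'' ((blk_iff hyv).1 b1) ((blk_iff hyv).1 b2),
    hty.imp (fun hM a => (hM y v hyv a).imp fun _ hb => (blk_iff hyv).2 hb) fun hD a => by
      obtain ⟨c, c', e1, e2, e3⟩ := hD y v hyv a
      exact ⟨c, c', e1, (blk_iff hyv).2 e2, fun z z' hz hb => e3 z z' hz ((blk_iff hyv).1 hb)⟩⟩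
  refine ⟨{
    s := fun v a b => r v * s0 ((S.κ (r v) x₀)⁻¹ a) ((S.κ (r v) x₀)⁻¹ b) * (r v)⁻¹
    s_mem := fun v a b _ => ?_
    s_eqv := fun g v a b hab => ?_
    s_symm := fun v a b hab => ?_
    s_ne := fun v a b hab e => ?_
    s_mul := fun v a b c h3 => ?_
    wo := fun y g g' a b c d e f' h3 h3' t1 t2 n1 n2 n3 z hz => ?_
    fp := hfp
    two := htwo
    ty := hty
    b2 := fun y v hyv g hg hbl => ?_
    trb := fun y v y' v' hyv hyv' a a' b b' b1 b2 => ?_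
    t_ex := fun y v hyv a b c h3 => ?_
    t_cube := fun y g a b c h3 t => ?_
    t_uniq := fun y g g' a b c h3 t t' => ?_
    t_tt := fun y t u a b c h3 ht hu h1 h2 e1 e2 => ?_
    inv_u := fun y t t' ht ht' h1 h2 e => ?_
    wv4 := fun y A _ nA _ hc h2 hQ u a hu ha hua α α' β h0 e1 e2 l hl hfix hβ e3 e4 e5 hq t g
      a₁ a₂ a₃ a₄ f1 h3 f4 hn ht htt et hg z hz c1 c2 =>
      wv4_aux (hnb y) (hPP (hnb y)) A nA hc h2 hQ hu ha hua h0 e1 e2 l hl hfix hβ e3 e4 e5 hq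
        f1 h3 f4 hn ht htt et hg hz c1 c2 }⟩
  · have := conj_mem_cj (g := r v).2 (hs0 ((S.κ (r v) x₀)⁻¹ a) ((S.κ (r v) x₀)⁻¹ b))
    rwa [S.cj_Z, hr] at this
  · have hk : ((r (g • v))⁻¹ * g * r v) • x₀ = x₀ := by
      rw [mul_smul, mul_smul, hr, inv_smul_eq_iff, hr]
    have e : S.κ ((r (g • v))⁻¹ * g * r v) x₀ =
        (S.κ (r (g • v)) x₀)⁻¹ * S.κ g v * S.κ (r v) x₀ := by
      rw [S.κ_mul, hr, S.κ_mul, ← S.κ_inv, hr]
    have := s0e _ hk _ _ (d2 v a b hab)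
    rw [e] at this
    simp only [Perm.mul_apply, Perm.coe_inv, Equiv.apply_symm_apply] at this ⊢
    rw [← this]; group
  · rw [hinj _ (hs0 _ _) _ (hs0 _ _)
      ((hs0' _ _).trans ((N.symm _ _ (d2 v a b hab)).trans (hs0' _ _).symm))]
  · rw [mul_inv_eq_one, mul_eq_left] at e
    exact N.ne _ _ (d2 v a b hab) (by rw [← hs0', (h0 _ (hs0 _ _)).2 e])
  · have d3 : D3 S.fib ((S.κ (r v) x₀)⁻¹ a) ((S.κ (r v) x₀)⁻¹ b) ((S.κ (r v) x₀)⁻¹ c) :=
      ⟨(Equiv.injective _).ne h3.ab, (Equiv.injective _).ne h3.ac, (Equiv.injective _).ne h3.bc,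
        fib_inv _ _ h3.fb, fib_inv _ _ h3.fc⟩
    rw [← hinj _ (Subgroup.mul_mem _ (hs0 _ _) (hs0 _ _)) _ (hs0 _ _)
      ((hm _ (hs0 _ _) _ (hs0 _ _)).trans ((congrArg₂ (· + ·) (hs0' _ _) (hs0' _ _)).trans
        ((N.add _ _ _ d3).trans (hs0' _ _).symm)))]
    group
  · have hy : (r y)⁻¹ • y = x₀ := inv_smul_eq_iff.2 (hr y).symm
    have t1' := t1.smul (r y)⁻¹
    have t2' := t2.smul (r y)⁻¹
    rw [hy] at t1' t2'
    have d1 := S.D3_map (r y)⁻¹ y h3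
    have d2 := S.D3_map (r y)⁻¹ y h3'
    have hz' : (r y)⁻¹ * z * (r y)⁻¹⁻¹ ∈ S.Z 2 x₀ := by
      rw [← hy, ← S.cj_Z]; exact conj_mem_cj.2 hz
    have nn : ∀ {u : Ω}, u ∉ [a, b, c] →
        S.κ (r y)⁻¹ y u ∉ [S.κ (r y)⁻¹ y a, S.κ (r y)⁻¹ y b, S.κ (r y)⁻¹ y c] := fun hu => by
      simpa using hu
    have g1 := S.EE_fix t1'.1
    have g2 := S.EE_fix t2'.1
    have hw := Subgroup.mul_mem _ (Z_conj g1 hz') (Subgroup.inv_mem _ hz')
    have := N.wo _ _ _ _ _ _ d1 d2 (nn n1) (nn n2) (nn n3) _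
      ⟨f ((r y)⁻¹ * z * (r y)⁻¹⁻¹), (f_inj hm (Z_conj g1 hz') hz').trans
      (by rw [← he _ g1 _ hz', (isT_iff h1 hP t1'.1 d1).1 t1'])⟩
    rw [← (isT_iff h1 hP t2'.1 d2).1 t2', he _ g2 _ hw] at this
    have := hinj _ (Z_conj g2 hw) _ hw this
    have e : g' * cc g z = r y * ((r y)⁻¹ * g' * (r y)⁻¹⁻¹ * ((r y)⁻¹ * g * (r y)⁻¹⁻¹ *
        ((r y)⁻¹ * z * (r y)⁻¹⁻¹) * ((r y)⁻¹ * g * (r y)⁻¹⁻¹)⁻¹ * ((r y)⁻¹ * z * (r y)⁻¹⁻¹)⁻¹) *
        ((r y)⁻¹ * g' * (r y)⁻¹⁻¹)⁻¹) * (r y)⁻¹ * g' := by rw [cc]; group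
    rw [e, this, cc]; group
  · obtain ⟨a, a', hb⟩ : ∃ a a', Blk (S.pset 2 hyv).P a a' := by
      rcases (hTT y v hyv).ty with hM | hD
      · exact ⟨α, hM α⟩
      · obtain ⟨c, c', _, e, _⟩ := hD α
        exact ⟨c, c', e⟩
    have := (S.pset 2 hyv).B2 (fun e => by
      obtain ⟨h1, σ, hσ, h2⟩ := hb
      rw [e, Subgroup.mem_bot] at hσ
      exact h1 (by rw [← h2, hσ]; rfl)) (hTT y v hyv) (S.mem_img.2 ⟨g, trivial, hg, rfl⟩)
      fun a a' hb => (blk_iff hyv).2 (hbl a a' ((blk_iff hyv).1 hb))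
    obtain ⟨k, hk, hky, e⟩ := S.mem_img.1 this
    have h8 : k⁻¹ * g ∈ S.K y := (S.ker _ y (by rw [mul_smul, hg, inv_smul_eq_iff, hky])).1 (by
      rw [S.κ_mul' hg, S.κ_inv' hky, e, inv_mul_cancel])
    have h9 := h8.2 v hyv
    rwa [mul_smul, inv_smul_eq_iff, show k • v = v from hk] at h9
  · obtain ⟨g, rfl, rfl⟩ := S.arc y v y' v' hyv hyv'
    obtain ⟨σ, hσ, e⟩ := (S.pset 2 hyv').TrB (hTT _ _ hyv') ((blk_iff hyv').2 (b1.smul hyv g))
      ((blk_iff hyv').2 b2)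
    obtain ⟨k, hk, hky, rfl⟩ := S.mem_img.1 hσ
    exact ⟨k * g, by rw [mul_smul, hky], by rw [mul_smul, show k • g • v = g • v from hk],
      by rw [S.κ_mul]; exact e⟩
  · obtain ⟨g, hg, _, e⟩ := S.mem_imb.1 (Loc.T_mem (L := S.loc' Nat.prime_two hyv (hPP hyv)) h3)
    exact ⟨g, (isT_iff hyv (hPP hyv) hg h3).2 e⟩
  · have hy := S.EE_fix t.1
    rw [← S.cl_eq_one (Subgroup.pow_mem (MulAction.stabilizer G y) hy 3), S.cl_pow hy,
      (isT_iff (hnb y) (hPP (hnb y)) t.1 h3).1 t, Loc.T_cube h3]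
  · rw [← S.cl_eq_iff (S.EE_fix t.1) (S.EE_fix t'.1), (isT_iff (hnb y) (hPP (hnb y)) t.1 h3).1 t,
      (isT_iff (hnb y) (hPP (hnb y)) t'.1 h3).1 t']
  · have g1 := S.EE_fix ht
    have g2 := S.EE_fix hu
    rw [isT_iff (hnb y) (hPP (hnb y)) (Subgroup.mul_mem _ ht hu) h3, S.cl_mul g1 g2]
    exact Loc.T_TT h3 (S.mem_imb.2 ⟨t, ht, g1, rfl⟩) (S.mem_imb.2 ⟨u, hu, g2, rfl⟩) (cl_sq g1 h1)
      (cl_sq g2 h2) ((S.πb_cl g1).trans e1) ((S.πb_cl g2).trans e2)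
  · have g1 := S.EE_fix ht
    have g2 := S.EE_fix ht'
    rw [← S.cl_eq_iff g1 g2]
    exact (S.loc' Nat.prime_two (hnb y) (hPP (hnb y))).invU (S.mem_imb.2 ⟨t, ht, g1, rfl⟩)
      (S.mem_imb.2 ⟨t', ht', g2, rfl⟩) (cl_sq g1 h1) (cl_sq g2 h2)
      ((S.πb_cl g1).trans (e.trans (S.πb_cl g2).symm))

end Alt

end Pool.Agent.MP_1d62fe_al.W

end

-- part Fin
section

set_option autoImplicit false
set_option linter.unusedSectionVars false

namespace Pool.Agent.MP_1d62fe_al.W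

open Equiv

theorem Alt.W_three {G V Ω I : Type} [Group G] [MulAction G V] [Fintype Ω] [DecidableEq Ω]
    [DecidableEq I] [Finite G] (S : Alt G V Ω I) {x y : V} (h : S.adj x y) :
    S.toSetup.W 3 x y = ⊥ :=
  S.toSetup.W_eq_bot (k := 2) (fun p hp hn n hb u v hc => by
    have : Fact p.Prime := ⟨hp⟩
    by_cases h2 : p = 2
    · subst h2
      by_contra hlt
      obtain ⟨A⟩ := Alt.exists_am hn hb hc
      exact Alt.Ctx.no_crit ⟨A, hn, hb, by omega⟩ hc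
    · exact (Alt.odd_false h2 hn hb hc).elim) h

theorem exists_alt {V : Type} [Finite V] (Γ : SimpleGraph V) (G : Subgroup (Γ ≃g Γ))
    (hc : Γ.Connected)
    (harc : ∀ u v u' v' : V, Γ.Adj u v → Γ.Adj u' v' → ∃ g ∈ G, g u = u' ∧ g v = v')
    (hprim : ∀ α : V, ∀ B : Set V, B ⊆ Γ.neighborSet α →
      (∀ g ∈ G, g α = α → ((⇑g) '' B = B ∨ Disjoint ((⇑g) '' B) B)) →
      B.Subsingleton ∨ B = Γ.neighborSet α) {l n : ℕ} (hn : 17 ≤ n) {α β : V} (hαβ : Γ.Adj α β)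
    (ι : localGroup Γ G α →* Perm (Fin l × Fin n)) (hι : Function.Injective ι)
    (hf : ∀ σ a b, a.1 = b.1 → (ι σ a).1 = (ι σ b).1)
    (hA : ∀ (i : Fin l), ∀ τ ∈ alternatingGroup (Fin n), ∃ σ, ∀ a : Fin l × Fin n,
      ι σ a = if a.1 = i then (a.1, τ a.2) else a) :
    ∃ S : Alt G V (Fin l × Fin n) (Fin l), S.toSetup = mkSetup Γ G hc harc hprim := by
  have := finite_aut Γ
  let S0 := mkSetup Γ G hc harc hprim
  have hvt : ∀ v : V, ∃ g : G, g • α = v := fun v => by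
    obtain ⟨w⟩ := hc.preconnected v α
    cases w with
    | nil => exact ⟨1, one_smul _ _⟩
    | cons h _ =>
      obtain ⟨g, h1, _⟩ := S0.arc α β v _ hαβ h
      exact ⟨g, h1⟩
  choose r hr using hvt
  let φ : MulAction.stabilizer G α →* localGroup Γ G α :=
    (S0.loc α).codRestrict (localGroup Γ G α) fun g => by
      rw [← range_loc Γ G hc harc hprim]; exact ⟨g, rfl⟩
  have hφ : Function.Surjective φ := by
    rintro ⟨σ, hσ⟩
    rw [← range_loc Γ G hc harc hprim] at hσ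
    obtain ⟨g, rfl⟩ := hσ
    exact ⟨g, rfl⟩
  let t : G → V → MulAction.stabilizer G α := fun g v => ⟨(r (g • v))⁻¹ * g * r v, by
    rw [MulAction.mem_stabilizer_iff, mul_smul, mul_smul, hr, inv_smul_eq_iff, hr]⟩
  refine ⟨{ S0 with
    fib := Prod.fst
    κ := fun g v => ι (φ (t g v))
    κ_mul := fun g h v => ?_
    ker := fun g v hg => ?_
    fibp := fun g v a b => hf _ a b
    three := fun v a b c h3 => ?_
    big := fun a => ?_
    surj := fun i => ⟨(i, ⟨0, by omega⟩), rfl⟩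
    max := fun x y hxy M h1 h2 => ?_ }, rfl⟩
  · rw [← map_mul, ← map_mul]
    congr 2
    refine Subtype.ext ?_
    simp only [mul_smul, mul_assoc, t, MulMemClass.mk_mul_mk, mul_inv_cancel_left]
  · rw [map_eq_one_iff ι hι, Subtype.ext_iff]
    change S0.loc α (t g v) = 1 ↔ _
    rw [Setup.loc_eq_one]
    change (r (g • v))⁻¹ * g * r v ∈ S0.K α ↔ g ∈ S0.K v
    rw [hg, ← mem_cj, Setup.cj_K, hr]
  · have h12 : a.2 ≠ b.2 := fun e => h3.ab (Prod.ext h3.fb.symm e)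
    have h23 : b.2 ≠ c.2 := fun e => h3.bc (Prod.ext (h3.fb.trans h3.fc.symm) e)
    obtain ⟨σ, hσ⟩ := hA a.1 (c3 a.2 b.2 c.2) (Perm.mem_alternatingGroup.2 (sign_c3 h12 h23))
    obtain ⟨k, rfl⟩ := hφ σ
    have hk : (r v * k * (r v)⁻¹ : G) • v = v := by
      rw [mul_smul, mul_smul, inv_smul_eq_iff.2 (hr v).symm, show (k : G) • α = α from k.2, hr]
    refine ⟨r v * k * (r v)⁻¹, hk, ?_⟩
    have : t (r v * k * (r v)⁻¹) v = k := Subtype.ext (by
      change (r ((r v * k * (r v)⁻¹ : G) • v))⁻¹ * (r v * k * (r v)⁻¹) * r v = k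
      rw [hk]; group)
    change ι (φ (t _ v)) = _
    rw [this]
    refine Equiv.ext fun z => ?_
    rw [hσ]
    obtain ⟨a1, a2⟩ := a
    obtain ⟨b1, b2⟩ := b
    obtain ⟨c1, c2⟩ := c
    obtain ⟨z1, z2⟩ := z
    obtain rfl : b1 = a1 := h3.fb
    obtain rfl : c1 = b1 := h3.fc
    simp only [c3, Perm.mul_apply, swap_apply_def, Prod.mk.injEq]
    grind
  · have : fbr Prod.fst a = Finset.univ.image fun j : Fin n => (a.1, j) := by
      ext z
      simp only [mem_fbr, Finset.mem_image, Finset.mem_univ, true_and]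
      exact ⟨fun h => ⟨z.2, Prod.ext h.symm rfl⟩, fun ⟨j, h⟩ => h ▸ rfl⟩
    rw [this, Finset.card_image_of_injective _ fun i j h => (Prod.ext_iff.1 h).2]
    simpa only [Finset.card_univ, Fintype.card_fin, ge_iff_le] using hn
  · have hadj : ∀ g : G, g • x = x → Γ.Adj x (g • y) := fun g hg => by
      have := S0.inv g hxy
      rwa [hg] at this
    rcases hprim x {u | ∃ m ∈ M, u = m • y} (by
      rintro _ ⟨m, hm, rfl⟩
      exact hadj m (h2 m hm)) (fun g hg hx => by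
      let g' : G := ⟨g, hg⟩
      by_cases hM : g' ∈ M
      · left
        ext u
        constructor
        · rintro ⟨_, ⟨m, hm, rfl⟩, rfl⟩
          exact ⟨g' * m, M.mul_mem hM hm, (mul_smul g' m y).symm⟩
        · rintro ⟨m, hm, rfl⟩
          exact ⟨(g'⁻¹ * m) • y, ⟨_, M.mul_mem (M.inv_mem hM) hm, rfl⟩, by
            change g' • (g'⁻¹ * m) • y = _
            rw [mul_smul, smul_inv_smul]⟩
      · right
        rw [Set.disjoint_left]
        rintro _ ⟨_, ⟨m, hm, rfl⟩, rfl⟩ ⟨m', hm', e⟩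
        have e' : g' • m • y = m' • y := e
        have := h1 (m'⁻¹ * g' * m) (by
          rw [mul_smul, mul_smul, h2 m hm, show g' • x = x from hx, inv_smul_eq_iff, h2 m' hm'])
          (by rw [mul_smul, mul_smul, e', inv_smul_smul])
        refine hM ?_
        have e2 : g' = m' * (m'⁻¹ * g' * m) * m⁻¹ := by group
        rw [e2]
        exact M.mul_mem (M.mul_mem hm' this) (M.inv_mem hm)) with hs | hs
    · exact Or.inl fun m hm => hs ⟨m, hm, rfl⟩ ⟨1, M.one_mem, (one_smul _ _).symm⟩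
    · refine Or.inr fun g hg => ?_
      have : g • y ∈ {u | ∃ m ∈ M, u = m • y} := by rw [hs]; exact hadj g hg
      obtain ⟨m, hm, e⟩ := this
      have := h1 (m⁻¹ * g) (by rw [mul_smul, hg, inv_smul_eq_iff, h2 m hm])
        (by rw [mul_smul, e, inv_smul_smul])
      simpa only [mul_inv_cancel_left] using M.mul_mem hm this

end Pool.Agent.MP_1d62fe_al.W

end
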