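import Mathlib

-- part MP_1d62fe_al.Basic
section

set_option autoImplicit false

namespace Pool.Agent.MP_1d62fe_al

variable {G : Type*} [Group G]

/-- the conjugate `g H g⁻¹` -/
def cj (g : G) (H : Subgroup G) : Subgroup G := H.comap (MulAut.conj g⁻¹).toMonoidHom

theorem mem_cj {g a : G} {H : Subgroup G} : a ∈ cj g H ↔ g⁻¹ * a * g ∈ H := by
  simp [cj]

theorem conj_mem_cj {g a : G} {H : Subgroup G} : g * a * g⁻¹ ∈ cj g H ↔ a ∈ H := by
  rw [mem_cj]; simp [mul_assoc]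

theorem cj_one (H : Subgroup G) : cj 1 H = H := by ext a; simp [mem_cj]

theorem cj_mul (g h : G) (H : Subgroup G) : cj (g * h) H = cj g (cj h H) := by
  ext a; simp [mem_cj, mul_assoc]

theorem cj_mono (g : G) {H K : Subgroup G} (h : H ≤ K) : cj g H ≤ cj g K :=
  fun _ ha => mem_cj.2 (h (mem_cj.1 ha))

theorem cj_inv_cj (g : G) (H : Subgroup G) : cj g⁻¹ (cj g H) = H := by
  rw [← cj_mul]; simp [cj_one]

theorem cj_cj_inv (g : G) (H : Subgroup G) : cj g (cj g⁻¹ H) = H := by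
  rw [← cj_mul]; simp [cj_one]

theorem cj_eq_map (g : G) (H : Subgroup G) : cj g H = H.map (MulAut.conj g).toMonoidHom := by
  ext a
  simp only [mem_cj, Subgroup.mem_map, MulEquiv.coe_toMonoidHom, MulAut.conj_apply]
  constructor
  · intro h; exact ⟨_, h, by group⟩
  · rintro ⟨b, hb, rfl⟩; simpa [mul_assoc] using hb

theorem cj_inf (g : G) (H K : Subgroup G) : cj g (H ⊓ K) = cj g H ⊓ cj g K := by
  ext a; simp [mem_cj]

theorem cj_sup (g : G) (H K : Subgroup G) : cj g (H ⊔ K) = cj g H ⊔ cj g K := by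
  simp only [cj_eq_map, Subgroup.map_sup]

theorem cj_bot (g : G) : cj g (⊥ : Subgroup G) = ⊥ := by
  simp [cj_eq_map]

theorem cj_closure (g : G) (s : Set G) :
    cj g (Subgroup.closure s) = Subgroup.closure {a | g⁻¹ * a * g ∈ s} := by
  rw [cj_eq_map, MonoidHom.map_closure]
  congr 1
  ext a
  simp only [MulEquiv.coe_toMonoidHom, MulAut.conj_apply, Set.mem_image, Set.mem_ofPred_eq]
  constructor
  · rintro ⟨b, hb, rfl⟩; simpa [mul_assoc] using hb
  · intro h; exact ⟨_, h, by group⟩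

theorem cj_eq_of_le {g : G} {H : Subgroup G} (h1 : ∀ a ∈ H, g * a * g⁻¹ ∈ H)
    (h2 : ∀ a ∈ H, g⁻¹ * a * g ∈ H) : cj g H = H := by
  ext a
  rw [mem_cj]
  constructor
  · intro h; have := h1 _ h; simpa [mul_assoc] using this
  · exact h2 a

theorem cj_eq_of_comm {g : G} {H : Subgroup G} (h : ∀ a ∈ H, g * a = a * g) : cj g H = H := by
  refine cj_eq_of_le (fun a ha => ?_) (fun a ha => ?_)
  · rw [h a ha]; simpa using ha
  · rw [mul_assoc, ← h a ha]; simpa using ha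

theorem cj_eq_self_of_mem {g : G} {H : Subgroup G} (h : g ∈ H) : cj g H = H :=
  cj_eq_of_le (fun _ ha => H.mul_mem (H.mul_mem h ha) (H.inv_mem h))
    (fun _ ha => H.mul_mem (H.mul_mem (H.inv_mem h) ha) h)

theorem conj_mem_of_cj_eq {g a : G} {H : Subgroup G} (h : cj g H = H) (ha : a ∈ H) :
    g * a * g⁻¹ ∈ H := by
  rw [← h]; exact conj_mem_cj.2 ha

theorem conj_mem_of_cj_eq' {g a : G} {H : Subgroup G} (h : cj g H = H) (ha : a ∈ H) :
    g⁻¹ * a * g ∈ H := by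
  rw [← h] at ha; exact mem_cj.1 ha

theorem isPGroup_cj {p : ℕ} (g : G) {H : Subgroup G} (h : IsPGroup p H) : IsPGroup p (cj g H) := by
  rw [cj_eq_map]; exact h.map _

theorem mem_normalizer_of_cj {g : G} {H : Subgroup G} (h : cj g H = H) :
    g ∈ Subgroup.normalizer (H : Set G) := by
  rw [Subgroup.mem_normalizer_iff'']
  intro a
  rw [← mem_cj, h]

/-- `X` normalises `N` -/
def Nrm (X N : Subgroup G) : Prop := ∀ g ∈ X, cj g N = N

theorem Nrm.mono {X Y N : Subgroup G} (h : Nrm X N) (hY : Y ≤ X) : Nrm Y N :=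
  fun g hg => h g (hY hg)

theorem nrm_self (X : Subgroup G) : Nrm X X := fun _ hg => cj_eq_self_of_mem hg

theorem Nrm.inf {X N M : Subgroup G} (h : Nrm X N) (h' : Nrm X M) : Nrm X (N ⊓ M) :=
  fun g hg => by rw [cj_inf, h g hg, h' g hg]

theorem Nrm.sup {X N M : Subgroup G} (h : Nrm X N) (h' : Nrm X M) : Nrm X (N ⊔ M) :=
  fun g hg => by rw [cj_sup, h g hg, h' g hg]

theorem isPGroup_sup {p : ℕ} {N M : Subgroup G} (hN : IsPGroup p N) (hM : IsPGroup p M)
    (h : Nrm M N) : IsPGroup p (N ⊔ M : Subgroup G) :=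
  IsPGroup.to_sup_of_normal_left' hN hM (fun g hg => mem_normalizer_of_cj (h g hg))

/-- the largest normal `p`-subgroup of `X` -/
def Op (p : ℕ) (X : Subgroup G) : Subgroup G :=
  sSup {N : Subgroup G | N ≤ X ∧ IsPGroup p N ∧ Nrm X N}

theorem le_Op {p : ℕ} {X N : Subgroup G} (h1 : N ≤ X) (h2 : IsPGroup p N) (h3 : Nrm X N) :
    N ≤ Op p X := le_sSup ⟨h1, h2, h3⟩

theorem Op_spec [Finite G] (p : ℕ) (X : Subgroup G) :
    Op p X ≤ X ∧ IsPGroup p (Op p X) ∧ Nrm X (Op p X) := by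
  have hne : ({N : Subgroup G | N ≤ X ∧ IsPGroup p N ∧ Nrm X N}).Nonempty :=
    ⟨⊥, bot_le, IsPGroup.of_bot, fun g _ => cj_bot g⟩
  obtain ⟨N, hN⟩ := (Set.toFinite _).exists_maximal hne
  have : Op p X = N := by
    refine le_antisymm (sSup_le fun M hM => ?_) (le_sSup hN.1)
    have h1 : N ⊔ M ∈ {N : Subgroup G | N ≤ X ∧ IsPGroup p N ∧ Nrm X N} :=
      ⟨sup_le hN.1.1 hM.1, isPGroup_sup hN.1.2.1 hM.2.1 (hN.1.2.2.mono hM.1),
        hN.1.2.2.sup hM.2.2⟩
    exact le_sup_right.trans (hN.2 h1 le_sup_left)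
  rw [this]; exact hN.1

theorem cj_Op_le [Finite G] (p : ℕ) (g : G) (X : Subgroup G) : cj g (Op p X) ≤ Op p (cj g X) := by
  obtain ⟨h1, h2, h3⟩ := Op_spec p X
  refine le_Op (cj_mono g h1) (isPGroup_cj g h2) (fun k hk => ?_)
  have := h3 _ (mem_cj.1 hk)
  have e : k = g * (g⁻¹ * k * g) * g⁻¹ := by group
  rw [e, cj_mul, cj_mul, cj_inv_cj, this]

theorem cj_Op [Finite G] (p : ℕ) (g : G) (X : Subgroup G) : cj g (Op p X) = Op p (cj g X) := by
  refine le_antisymm (cj_Op_le p g X) ?_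
  have := cj_mono g (cj_Op_le p g⁻¹ (cj g X))
  rwa [cj_cj_inv, cj_inv_cj] at this

/-- relative subnormality -/
inductive Sn (C : Subgroup G) : Subgroup G → Prop
  | refl : Sn C C
  | step {X Y : Subgroup G} : Sn C X → X ≤ Y → Nrm Y X → Sn C Y

theorem Sn.le {C X : Subgroup G} (h : Sn C X) : C ≤ X := by
  induction h with
  | refl => exact le_rfl
  | step _ h2 _ ih => exact ih.trans h2

theorem Sn.trans {C D X : Subgroup G} (h : Sn C D) (h' : Sn D X) : Sn C X := by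
  induction h' with
  | refl => exact h
  | step _ h2 h3 ih => exact Sn.step ih h2 h3

theorem Sn.restrict {C X : Subgroup G} (h : Sn C X) (U : Subgroup G) (hU : C ≤ U) :
    Sn C (X ⊓ U) := by
  induction h with
  | refl => rw [inf_eq_left.2 hU]; exact Sn.refl
  | step _ h2 h3 ih =>
    exact Sn.step ih (inf_le_inf_right _ h2)
      ((h3.mono inf_le_left).inf ((nrm_self U).mono inf_le_right))

theorem Sn.of_le {C X U : Subgroup G} (h : Sn C X) (hU : C ≤ U) (hX : U ≤ X) : Sn C U := by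
  have := h.restrict U hU
  rwa [inf_eq_right.2 hX] at this

theorem Sn.le_Op [Finite G] {p : ℕ} {C X : Subgroup G} (h : Sn C X) (hC : IsPGroup p C) :
    C ≤ Op p X := by
  induction h with
  | refl => exact Pool.Agent.MP_1d62fe_al.le_Op le_rfl hC (nrm_self C)
  | @step X Y _ h2 h3 ih =>
    obtain ⟨a1, a2, _⟩ := Op_spec p X
    refine ih.trans (Pool.Agent.MP_1d62fe_al.le_Op (a1.trans h2) a2 (fun g hg => ?_))
    rw [cj_Op, h3 g hg]

/-- Wielandt: a perfect subnormal subgroup meeting a normalised subgroup trivially centralises it. -/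
theorem Sn.comm {C X : Subgroup G} (h : Sn C X) (hC : ⁅C, C⁆ = C) :
    ∀ N : Subgroup G, N ≤ X → Nrm X N → C ⊓ N = ⊥ → ⁅C, N⁆ = ⊥ := by
  induction h with
  | refl =>
    intro N h1 _ h3
    rw [inf_eq_right.2 h1] at h3
    rw [h3]; exact Subgroup.commutator_bot_right _
  | @step X Y hX h2 h3 ih =>
    intro N h1 hN hCN
    have hle := hX.le
    have i1 : ⁅C, N ⊓ X⁆ = ⊥ := ih (N ⊓ X) inf_le_right
      ((hN.mono h2).inf (nrm_self X)) (by rw [← inf_assoc, hCN, bot_inf_eq])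
    have i2 : ⁅C, N⁆ ≤ N ⊓ X := by
      rw [Subgroup.commutator_le]
      intro c hc n hn
      rw [commutatorElement_def]
      refine ⟨?_, ?_⟩
      · exact N.mul_mem (conj_mem_of_cj_eq (hN c (h2 (hle hc))) hn) (N.inv_mem hn)
      · have : c * n * c⁻¹ * n⁻¹ = c * (n * c⁻¹ * n⁻¹) := by group
        rw [this]
        exact X.mul_mem (hle hc) (conj_mem_of_cj_eq (h3 n (h1 hn)) (X.inv_mem (hle hc)))
    have i3 : ⁅⁅C, N⁆, C⁆ = ⊥ := by
      rw [eq_bot_iff, ← i1, Subgroup.commutator_comm C (N ⊓ X)]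
      exact Subgroup.commutator_mono i2 le_rfl
    have i4 : ⁅⁅N, C⁆, C⁆ = ⊥ := by rw [Subgroup.commutator_comm N C]; exact i3
    have := Subgroup.commutator_commutator_eq_bot_of_rotate i3 i4
    rwa [hC] at this

/-- a nontrivial normal subgroup of a finite `p`-group contains a central element of order `p` -/
theorem exists_central [Finite G] {p : ℕ} [Fact p.Prime] {S N : Subgroup G} (hS : IsPGroup p S)
    (hN : N ≤ S) (hn : Nrm S N) (hne : N ≠ ⊥) :
    ∃ z ∈ N, z ≠ 1 ∧ z ^ p = 1 ∧ ∀ s ∈ S, s * z = z * s := by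
  let _ : MulAction S N :=
    { smul := fun s n => ⟨s * n * s⁻¹, conj_mem_of_cj_eq (hn s s.2) n.2⟩
      one_smul := fun n => Subtype.ext (by
        change ((1 : S) : G) * n * ((1 : S) : G)⁻¹ = n; simp)
      mul_smul := fun s t n => Subtype.ext (by
        change ((s * t : S) : G) * n * ((s * t : S) : G)⁻¹ =
          (s : G) * ((t : G) * n * (t : G)⁻¹) * (s : G)⁻¹
        simp [mul_assoc]) }
  have hd : p ∣ Nat.card N := by
    have : Nontrivial N := (Subgroup.nontrivial_iff_ne_bot N).2 hne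
    obtain ⟨n, hn0, hc⟩ := (hS.to_le hN).nontrivial_iff_card.1 inferInstance
    rw [hc]; exact dvd_pow_self p hn0.ne'
  have h1 : (1 : N) ∈ MulAction.fixedPoints S N := fun s => Subtype.ext (by
    change (s : G) * ((1 : N) : G) * (s : G)⁻¹ = ((1 : N) : G); simp)
  obtain ⟨b, hb, hb1⟩ := hS.exists_fixed_point_of_prime_dvd_card_of_fixed_point N hd h1
  have hbc : ∀ s ∈ S, s * (b : G) = b * s := fun s hs => by
    have := congrArg Subtype.val (hb ⟨s, hs⟩)
    change s * (b : G) * s⁻¹ = b at this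
    exact mul_inv_eq_iff_eq_mul.1 this
  have hb1' : (b : G) ≠ 1 := fun h => hb1 (Subtype.ext h).symm
  obtain ⟨k, hk⟩ := (hS.to_le hN) b
  have hk' : (b : G) ^ p ^ k = 1 := by exact_mod_cast congrArg Subtype.val hk
  classical
  have hex : ∃ k, (b : G) ^ p ^ k = 1 := ⟨k, hk'⟩
  have h0 : Nat.find hex ≠ 0 := fun h => hb1' (by simpa [h] using Nat.find_spec hex)
  obtain ⟨j, hj⟩ := Nat.exists_eq_succ_of_ne_zero h0
  refine ⟨(b : G) ^ p ^ j, N.pow_mem b.2 _, Nat.find_min hex (by omega), ?_, fun s hs => ?_⟩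
  · rw [← pow_mul, ← pow_succ, ← Nat.succ_eq_add_one, ← hj]; exact Nat.find_spec hex
  · exact (Commute.pow_right (hbc s hs) _)

end Pool.Agent.MP_1d62fe_al

end

-- part MP_1d62fe_al.Core
section

set_option autoImplicit false

namespace Pool.Agent.MP_1d62fe_al

variable {G V : Type*} [Group G] [MulAction G V]

/-- there is a walk of length `n` -/
def Dn (adj : V → V → Prop) : ℕ → V → V → Prop
  | 0, x, y => x = y
  | n + 1, x, y => ∃ u, adj x u ∧ Dn adj n u y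

theorem Dn_snoc {adj : V → V → Prop} : ∀ {n : ℕ} {x u y : V}, Dn adj n x u → adj u y →
    Dn adj (n + 1) x y
  | 0, _, _, y, h, h' => ⟨y, by rw [show _ = _ from h]; exact h', rfl⟩
  | _ + 1, _, _, _, ⟨w, h1, h2⟩, h' => ⟨w, h1, Dn_snoc h2 h'⟩

theorem Dn_unsnoc {adj : V → V → Prop} : ∀ {n : ℕ} {x y : V}, Dn adj (n + 1) x y →
    ∃ u, Dn adj n x u ∧ adj u y
  | 0, x, _, ⟨w, h1, h2⟩ => ⟨x, rfl, by rw [← show _ = _ from h2]; exact h1⟩
  | _ + 1, _, _, ⟨w, h1, h2⟩ => by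
    obtain ⟨u, h3, h4⟩ := Dn_unsnoc h2
    exact ⟨u, ⟨w, h1, h3⟩, h4⟩

/-- a faithful, arc-transitive, locally primitive action on a connected graph -/
structure Setup (G V : Type*) [Group G] [MulAction G V] where
  adj : V → V → Prop
  symm : ∀ {x y : V}, adj x y → adj y x
  inv : ∀ (g : G) {x y : V}, adj x y → adj (g • x) (g • y)
  conn : ∀ x y : V, ∃ n, Dn adj n x y
  faith : ∀ g : G, (∀ v : V, g • v = v) → g = 1
  arc : ∀ x y x' y' : V, adj x y → adj x' y' → ∃ g : G, g • x = x' ∧ g • y = y'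
  prim : ∀ (x : V) (F : V → Subgroup G), (∀ g : G, g • x = x → ∀ y, F (g • y) = cj g (F y)) →
    ∀ y y', adj x y → adj x y' → y ≠ y' → F y = F y' →
    ∀ z z', adj x z → adj x z' → F z = F z'

namespace Setup

variable (S : Setup G V)

theorem Dn_symm : ∀ {n : ℕ} {x y : V}, Dn S.adj n x y → Dn S.adj n y x
  | 0, _, _, h => Eq.symm h
  | _ + 1, _, _, ⟨_, h1, h2⟩ => Dn_snoc (Dn_symm h2) (S.symm h1)

theorem Dn_smul (g : G) : ∀ {n : ℕ} {x y : V}, Dn S.adj n x y → Dn S.adj n (g • x) (g • y)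
  | 0, _, _, h => congrArg (g • ·) h
  | _ + 1, _, _, ⟨w, h1, h2⟩ => ⟨g • w, S.inv g h1, Dn_smul g h2⟩

theorem inv' (g : G) {x y : V} (h : S.adj (g • x) y) : S.adj x (g⁻¹ • y) := by
  simpa using S.inv g⁻¹ h

theorem const (F : V → V → Subgroup G) (hF : ∀ (g : G) x y, F (g • x) (g • y) = cj g (F x y))
    {c : G} {x y : V} (h : S.adj x y) (hx : c • x = x) (hy : c • y ≠ y)
    (hc : cj c (F x y) = F x y) {u v v' : V} (h1 : S.adj u v) (h2 : S.adj u v') :
    F u v = F u v' := by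
  obtain ⟨g, rfl, rfl⟩ := S.arc x y u v h h1
  have h3 := S.inv' g h2
  have h4 : S.adj x (c • y) := by simpa [hx] using S.inv c h
  have := S.prim x (F x) (fun g hg y => by rw [← hF, hg]) y (c • y) h h4 hy.symm
    (by rw [← hc, ← hF, hx]) y _ h h3
  rw [hF, this, ← hF]; simp

theorem triv (F : V → V → Subgroup G) (hs : ∀ x y, S.adj x y → F x y = F y x)
    (hc : ∀ u v v', S.adj u v → S.adj u v' → F u v = F u v')
    (hst : ∀ x y, S.adj x y → ∀ g ∈ F x y, g • x = x) {x y : V} (h : S.adj x y) :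
    F x y = ⊥ := by
  rw [eq_bot_iff]
  intro g hg
  refine S.faith g fun v => ?_
  obtain ⟨n, hn⟩ := S.conn x v
  induction n generalizing x y with
  | zero => rw [← show _ = _ from hn]; exact hst x y h g hg
  | succ n ih =>
    obtain ⟨u, h1, h2⟩ := hn
    refine ih (S.symm h1) ?_ h2
    rw [← hs x u h1, ← hc x y u h h1]; exact hg

theorem triv' (F : V → V → Subgroup G) (hF : ∀ (g : G) x y, F (g • x) (g • y) = cj g (F x y))
    (hs : ∀ x y, S.adj x y → F x y = F y x)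
    (hst : ∀ x y, S.adj x y → ∀ g ∈ F x y, g • x = x)
    {c : G} {x y : V} (h : S.adj x y) (hx : c • x = x) (hy : c • y ≠ y)
    (hc : cj c (F x y) = F x y) {u v : V} (h1 : S.adj u v) : F u v = ⊥ :=
  S.triv F hs (fun _ _ _ h1 h2 => S.const F hF h hx hy hc h1 h2) hst h1

/-- the kernel of the vertex stabiliser on the neighbourhood -/
def K (x : V) : Subgroup G where
  carrier := {g | g • x = x ∧ ∀ y, S.adj x y → g • y = y}
  one_mem' := ⟨one_smul _ _, fun _ _ => one_smul _ _⟩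
  mul_mem' := fun {a b} ha hb =>
    ⟨by rw [mul_smul, hb.1, ha.1], fun y hy => by rw [mul_smul, hb.2 y hy, ha.2 y hy]⟩
  inv_mem' := fun {a} ha =>
    ⟨by rw [inv_smul_eq_iff, ha.1], fun y hy => by rw [inv_smul_eq_iff, ha.2 y hy]⟩

theorem mem_K {x : V} {g : G} : g ∈ S.K x ↔ g • x = x ∧ ∀ y, S.adj x y → g • y = y := Iff.rfl

theorem cj_K (g : G) (x : V) : cj g (S.K x) = S.K (g • x) := by
  ext a
  rw [mem_cj, mem_K, mem_K]
  simp only [mul_smul, inv_smul_eq_iff]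
  refine and_congr Iff.rfl ⟨fun h y hy => ?_, fun h y hy => h _ (S.inv g hy)⟩
  simpa using h _ (S.inv' g hy)

theorem moved {x : V} {c : G} (hx : c • x = x) (hc : c ∉ S.K x) :
    ∃ w, S.adj x w ∧ c • w ≠ w := by
  by_contra h
  push Not at h
  exact hc ⟨hx, h⟩

variable (p : ℕ)

/-- `O_p` of the kernel -/
def Q (x : V) : Subgroup G := Op p (S.K x)

/-- `Ω₁ Z(Q x)` -/
def Z (x : V) : Subgroup G where
  carrier := {z | z ∈ S.Q p x ∧ z ^ p = 1 ∧ ∀ q ∈ S.Q p x, q * z = z * q}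
  one_mem' := ⟨Subgroup.one_mem _, one_pow _, fun _ _ => by simp⟩
  mul_mem' := fun {a b} ha hb => ⟨Subgroup.mul_mem _ ha.1 hb.1, by
      have : Commute a b := hb.2.2 a ha.1
      rw [this.mul_pow, ha.2.1, hb.2.1, one_mul], fun q hq => by
      rw [← mul_assoc, ha.2.2 q hq, mul_assoc, hb.2.2 q hq, mul_assoc]⟩
  inv_mem' := fun {a} ha => ⟨Subgroup.inv_mem _ ha.1, by rw [inv_pow, ha.2.1, inv_one],
    fun q hq => (Commute.inv_right (ha.2.2 q hq))⟩

theorem mem_Z {x : V} {z : G} :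
    z ∈ S.Z p x ↔ z ∈ S.Q p x ∧ z ^ p = 1 ∧ ∀ q ∈ S.Q p x, q * z = z * q := Iff.rfl

theorem Z_le_Q (x : V) : S.Z p x ≤ S.Q p x := fun _ h => h.1

variable [Finite G]

theorem Q_le_K (x : V) : S.Q p x ≤ S.K x := (Op_spec p _).1

theorem Q_pgroup (x : V) : IsPGroup p (S.Q p x) := (Op_spec p _).2.1

theorem cj_Q (g : G) (x : V) : cj g (S.Q p x) = S.Q p (g • x) := by
  rw [Q, cj_Op, cj_K]; rfl

theorem cj_Z (g : G) (x : V) : cj g (S.Z p x) = S.Z p (g • x) := by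
  ext a
  rw [mem_cj, mem_Z, mem_Z, ← cj_Q, mem_cj]
  refine and_congr Iff.rfl (and_congr ?_ ⟨fun h q hq => ?_, fun h q hq => ?_⟩)
  · have : (g⁻¹ * a * g) ^ p = g⁻¹ * a ^ p * g := by
      simpa using conj_pow (a := g⁻¹) (b := a) (i := p)
    rw [this]
    constructor
    · intro h
      have : a ^ p = g * (g⁻¹ * a ^ p * g) * g⁻¹ := by group
      rw [this, h]; simp
    · intro h; rw [h]; simp
  · have := h _ (mem_cj.1 hq)
    have e : q * a = g * (g⁻¹ * q * g * (g⁻¹ * a * g)) * g⁻¹ := by group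
    rw [e, this]; group
  · have := h _ (conj_mem_cj.2 hq)
    have e : q * (g⁻¹ * a * g) = g⁻¹ * (g * q * g⁻¹ * a) * g := by group
    rw [e, this]; group

theorem Q_inf_K {x y : V} (h : S.adj x y) : S.Q p y ⊓ S.K x ≤ S.Q p x :=
  le_Op inf_le_right (S.Q_pgroup p y).to_inf_left (fun g hg => by
    rw [cj_inf, cj_Q, cj_K, hg.1, hg.2 y h])

theorem Q_fix {x y : V} (h : S.adj x y) {g : G} (hg : g ∈ S.Q p y) : g • x = x :=
  (S.Q_le_K p y hg).2 x (S.symm h)

/-- some edge has nontrivial `Q x ⊓ Q y` -/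
def NT : Prop := ∃ x y, S.adj x y ∧ S.Q p x ⊓ S.Q p y ≠ ⊥

variable {S p} [Fact p.Prime]

theorem NT.zz (h : S.NT p) : ∃ x y, S.adj x y ∧ S.Z p x ⊓ S.Z p y ≠ ⊥ := by
  obtain ⟨x, y, hxy, hne⟩ := h
  have n1 : Nrm (S.Q p y) (S.Q p x) := fun g hg => by rw [cj_Q, S.Q_fix p hxy hg]
  have n2 : Nrm (S.Q p x) (S.Q p y) := fun g hg => by rw [cj_Q, S.Q_fix p (S.symm hxy) hg]
  have hp : IsPGroup p (S.Q p x ⊔ S.Q p y : Subgroup G) :=
    isPGroup_sup (S.Q_pgroup p x) (S.Q_pgroup p y) n1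
  have hn : Nrm (S.Q p x ⊔ S.Q p y) (S.Q p x ⊓ S.Q p y) := by
    have : S.Q p x ⊔ S.Q p y ≤ MulAction.stabilizer G x ⊓ MulAction.stabilizer G y :=
      sup_le (fun g hg => ⟨(S.Q_le_K p x hg).1, S.Q_fix p (S.symm hxy) hg⟩)
        (fun g hg => ⟨S.Q_fix p hxy hg, (S.Q_le_K p y hg).1⟩)
    intro g hg
    obtain ⟨h1, h2⟩ := this hg
    rw [cj_inf, cj_Q, cj_Q, show g • x = x from h1, show g • y = y from h2]
  obtain ⟨z, hz, hz1, hzp, hzc⟩ := exists_central hp (inf_le_left.trans le_sup_left) hn hne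
  refine ⟨x, y, hxy, fun hb => hz1 ?_⟩
  rw [← Subgroup.mem_bot, ← hb]
  exact ⟨⟨hz.1, hzp, fun q hq => hzc q (Subgroup.mem_sup_left hq)⟩,
    ⟨hz.2, hzp, fun q hq => hzc q (Subgroup.mem_sup_right hq)⟩⟩

theorem NT.cent (h : S.NT p) {x : V} {c : G} (hx : c • x = x)
    (hc : ∀ z ∈ S.Z p x, c * z = z * c) : c ∈ S.K x := by
  by_contra hK
  obtain ⟨w, hw, hm⟩ := S.moved hx hK
  obtain ⟨u, v, huv, hne⟩ := h.zz
  exact hne (S.triv' (fun x y => S.Z p x ⊓ S.Z p y) (fun g x y => by rw [cj_inf, cj_Z, cj_Z])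
    (fun _ _ _ => inf_comm _ _) (fun x y _ g hg => (S.Q_le_K p x hg.1.1).1) hw hx hm
    (cj_eq_of_comm fun a ha => hc a ha.1) huv)

theorem NT.exists_crit (h : S.NT p) : ∃ n x y, Dn S.adj n x y ∧ ¬ S.Z p x ≤ S.Q p y := by
  by_contra hc
  push Not at hc
  obtain ⟨u, v, _, hne⟩ := h.zz
  refine hne (eq_bot_iff.2 fun g hg => S.faith g fun w => ?_)
  obtain ⟨n, hn⟩ := S.conn u w
  exact (S.Q_le_K p w (hc n u w hn hg.1)).1

variable (S p) in
/-- `n + 1` is the critical distance -/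
def IsB (n : ℕ) : Prop := ∀ m ≤ n, ∀ x y, Dn S.adj m x y → S.Z p x ≤ S.Q p y

variable (S p) in
/-- critical pairs -/
def Crit (n : ℕ) (x y : V) : Prop := Dn S.adj (n + 1) x y ∧ ¬ S.Z p x ≤ S.Q p y

theorem NT.exists_b (h : S.NT p) : ∃ n, S.IsB p n ∧ ∃ x y, S.Crit p n x y := by
  classical
  have hex := h.exists_crit
  have h0 : Nat.find hex ≠ 0 := fun h0 => by
    obtain ⟨x, y, h1, h2⟩ := Nat.find_spec hex
    rw [h0] at h1
    exact h2 (by rw [← show _ = _ from h1]; exact S.Z_le_Q p x)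
  obtain ⟨n, hn⟩ := Nat.exists_eq_succ_of_ne_zero h0
  refine ⟨n, fun m hm x y hxy => ?_, ?_⟩
  · by_contra hc
    exact Nat.find_min hex (show m < Nat.find hex by omega) ⟨x, y, hxy, hc⟩
  · have := Nat.find_spec hex
    rw [hn] at this
    exact this

omit [Fact p.Prime] in
theorem IsB.fix {n : ℕ} (hb : S.IsB p n) {x y : V} (h : Dn S.adj (n + 1) x y) {c : G}
    (hc : c ∈ S.Z p y) : c • x = x := by
  obtain ⟨u, h1, h2⟩ := h
  exact S.Q_fix p h1 (hb n le_rfl y u (S.Dn_symm h2) hc)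

omit [Fact p.Prime] in
theorem Crit.notK {n : ℕ} (hb : S.IsB p n) {x y : V} (h : S.Crit p n x y) :
    ¬ S.Z p x ≤ S.K y := fun hK => by
  obtain ⟨u, h1, h2⟩ := Dn_unsnoc h.1
  exact h.2 ((le_inf (hb n le_rfl x u h1) hK).trans (S.Q_inf_K p (S.symm h2)))

theorem Crit.symm (hn : S.NT p) {n : ℕ} (hb : S.IsB p n) {x y : V} (h : S.Crit p n x y) :
    S.Crit p n y x := by
  refine ⟨S.Dn_symm h.1, fun hle => h.notK hb fun a ha => ?_⟩
  exact hn.cent (hb.fix (S.Dn_symm h.1) ha) fun z hz => (ha.2.2 z (hle hz)).symm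

theorem Crit.mover (hn : S.NT p) {n : ℕ} (hb : S.IsB p n) {x y : V} (h : S.Crit p n x y) :
    ∃ c ∈ S.Z p y, c • x = x ∧ ∃ w, S.adj x w ∧ c • w ≠ w := by
  obtain ⟨c, hc, hK⟩ := SetLike.not_le_iff_exists.1 ((h.symm hn hb).notK hb)
  exact ⟨c, hc, hb.fix h.1 hc, S.moved (hb.fix h.1 hc) hK⟩

variable (S p) in
/-- the commutator condition on critical pairs -/
def Com (n : ℕ) : Prop := ∀ x u y, S.adj x u → Dn S.adj n u y → S.Crit p n x y →
  ∀ t ∈ S.Q p u, t ^ p ∈ S.K x → (∀ c ∈ S.Z p y, t * c * t⁻¹ * c⁻¹ ∈ S.K x) →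
  ∀ z ∈ S.Z p x, z * t * z⁻¹ * t⁻¹ ∈ S.Z p y

theorem shift (hn : S.NT p) {n : ℕ} (hb : S.IsB p n) (h1 : 1 ≤ n) (hcom : S.Com p n)
    {x y y' w : V} (h : S.Crit p n x y) (hy : Dn S.adj n x y') (hy' : S.adj y' y)
    {c : G} (hc : c ∈ S.Z p y) (hw : S.adj x w) (hm : c • w ≠ w) : S.Crit p n w y' := by
  refine ⟨⟨x, S.symm hw, hy⟩, fun hle => ?_⟩
  have key : ∀ c ∈ S.Z p y, ∀ a ∈ S.Z p x ⊔ S.Z p w, c * a * c⁻¹ ∈ S.Z p x ⊔ S.Z p w := by
    intro c hc
    have : S.Z p x ⊔ S.Z p w ≤ cj c⁻¹ (S.Z p x ⊔ S.Z p w) := by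
      refine sup_le (fun a ha => ?_) (fun t ht => ?_)
      · rw [mem_cj, inv_inv]
        refine Subgroup.mem_sup_left (conj_mem_of_cj_eq ?_ ha)
        rw [cj_Z, hb.fix h.1 hc]
      · rw [mem_cj, inv_inv]
        have := hcom y y' x (S.symm hy') (S.Dn_symm hy) (h.symm hn hb) t (hle ht)
          (by rw [ht.2.1]; exact Subgroup.one_mem _) (fun a ha => by
            have : t * a = a * t := ha.2.2 t (hb 1 h1 w x ⟨x, S.symm hw, rfl⟩ ht)
            rw [this]; simp) c hc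
        have e : c * t * c⁻¹ = c * t * c⁻¹ * t⁻¹ * t := by group
        rw [e]
        exact Subgroup.mul_mem _ (Subgroup.mem_sup_left this) (Subgroup.mem_sup_right ht)
    intro a ha
    simpa using mem_cj.1 (this ha)
  have hbot := S.triv' (fun x y => S.Z p x ⊔ S.Z p y) (fun g x y => by rw [cj_sup, cj_Z, cj_Z])
    (fun _ _ _ => sup_comm _ _) (fun x y hxy g hg => by
      have : S.Z p x ⊔ S.Z p y ≤ MulAction.stabilizer G x :=
        sup_le (fun g hg => (S.Q_le_K p x hg.1).1) (fun g hg => S.Q_fix p hxy hg.1)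
      exact this hg) hw (hb.fix h.1 hc) hm
    (cj_eq_of_le (key c hc) (fun a ha => by simpa using key c⁻¹ (Subgroup.inv_mem _ hc) a ha)) hw
  exact h.2 (le_sup_left.trans (hbot.le.trans bot_le))

variable (S p) in
/-- elements of `Q u` acting on the neighbourhood of `x` as elements of `Ω₁ Z` of the image -/
def T (x u : V) : Set G :=
  {t | t ∈ S.Q p u ∧ t ^ p ∈ S.K x ∧ ∀ s ∈ S.Q p u, t * s * t⁻¹ * s⁻¹ ∈ S.K x}

variable (S p) in
/-- the canonical commutator subgroup of an arc -/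
def R (x u : V) : Subgroup G :=
  Subgroup.closure {r | ∃ z ∈ S.Z p x, ∃ t ∈ S.T p x u, r = z * t * z⁻¹ * t⁻¹}

omit [Fact p.Prime] in
theorem T_smul (g : G) {x u : V} {t : G} (h : t ∈ S.T p x u) :
    g * t * g⁻¹ ∈ S.T p (g • x) (g • u) := by
  refine ⟨by rw [← cj_Q]; exact conj_mem_cj.2 h.1, ?_, fun s hs => ?_⟩
  · rw [conj_pow, ← cj_K]; exact conj_mem_cj.2 h.2.1
  · rw [← cj_Q, mem_cj] at hs
    have := h.2.2 _ hs
    rw [← cj_K, mem_cj]
    convert this using 1; group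

omit [Fact p.Prime] in
theorem cj_R (g : G) (x u : V) : S.R p (g • x) (g • u) = cj g (S.R p x u) := by
  rw [R, R, cj_closure]
  congr 1
  ext r
  simp only [Set.mem_ofPred_eq]
  constructor
  · rintro ⟨z, hz, t, ht, rfl⟩
    refine ⟨g⁻¹ * z * g, by rwa [← mem_cj, cj_Z], g⁻¹ * t * g, ?_, by group⟩
    simpa using T_smul g⁻¹ ht
  · rintro ⟨z, hz, t, ht, e⟩
    refine ⟨g * z * g⁻¹, by rw [← cj_Z]; exact conj_mem_cj.2 hz, g * t * g⁻¹, T_smul g ht, ?_⟩
    have : r = g * (g⁻¹ * r * g) * g⁻¹ := by group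
    rw [this, e]; group

omit [Fact p.Prime] in
theorem R_le_Z {x u : V} (h : S.adj x u) : S.R p x u ≤ S.Z p x := by
  rw [R, Subgroup.closure_le]
  rintro _ ⟨z, hz, t, ht, rfl⟩
  have e : z * t * z⁻¹ * t⁻¹ = z * (t * z⁻¹ * t⁻¹) := by group
  rw [e]
  refine (S.Z p x).mul_mem hz (conj_mem_of_cj_eq ?_ (Subgroup.inv_mem _ hz))
  rw [cj_Z, S.Q_fix p h ht.1]

omit [Fact p.Prime] [Finite G] in
theorem R_le_crit {n : ℕ} (hb : S.IsB p n) (hcom : S.Com p n) {x u y : V} (h : S.adj x u)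
    (hu : Dn S.adj n u y) (hc : S.Crit p n x y) : S.R p x u ≤ S.Z p y := by
  rw [R, Subgroup.closure_le]
  rintro _ ⟨z, hz, t, ht, rfl⟩
  exact hcom x u y h hu hc t ht.1 ht.2.1
    (fun c hc => ht.2.2 c (hb n le_rfl y u (S.Dn_symm hu) hc)) z hz

theorem exists_T {x u : V} (h : S.adj x u) (hne : ¬ S.Q p u ≤ S.K x) :
    ∃ t ∈ S.T p x u, t ∉ S.K x := by
  let H := S.Q p u
  let N : Subgroup H := (S.K x).subgroupOf H
  have hN : N.Normal := ⟨fun a ha g => by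
    change ((g * a * g⁻¹ : H) : G) ∈ S.K x
    have : cj (g : G) (S.K x) = S.K x := by rw [cj_K, S.Q_fix p h g.2]
    exact conj_mem_of_cj_eq this ha⟩
  have hp : IsPGroup p (H ⧸ N) := (S.Q_pgroup p u).to_quotient N
  have hp' : IsPGroup p (⊤ : Subgroup (H ⧸ N)) := hp.to_subgroup ⊤
  have hne' : (⊤ : Subgroup (H ⧸ N)) ≠ ⊥ := by
    intro hb
    refine hne fun g hg => ?_
    have : ((⟨g, hg⟩ : H) : H ⧸ N) ∈ (⊥ : Subgroup (H ⧸ N)) := hb ▸ Subgroup.mem_top _
    rw [Subgroup.mem_bot, QuotientGroup.eq_one_iff] at this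
    exact this
  obtain ⟨z, -, hz1, hzp, hzc⟩ := exists_central hp' le_rfl (nrm_self _) hne'
  obtain ⟨t, rfl⟩ := QuotientGroup.mk_surjective z
  refine ⟨t, ⟨t.2, ?_, fun s hs => ?_⟩, fun hK => hz1 ((QuotientGroup.eq_one_iff t).2 hK)⟩
  · have : ((t ^ p : H) : H ⧸ N) = 1 := by rw [QuotientGroup.mk_pow]; exact hzp
    exact ((QuotientGroup.eq_one_iff (N := N) _).1 this :)
  · have h1 := hzc ((⟨s, hs⟩ : H) : H ⧸ N) (Subgroup.mem_top _)
    have : ((t * ⟨s, hs⟩ * t⁻¹ * (⟨s, hs⟩ : H)⁻¹ : H) : H ⧸ N) = 1 := by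
      simp only [QuotientGroup.mk_mul, QuotientGroup.mk_inv]
      rw [← h1]; group
    exact ((QuotientGroup.eq_one_iff (N := N) _).1 this :)

theorem R_ne_bot (hn : S.NT p) {x u : V} (h : S.adj x u) (hne : ¬ S.Q p u ≤ S.K x) :
    S.R p x u ≠ ⊥ := by
  intro hb
  obtain ⟨t, ht, hK⟩ := exists_T h hne
  refine hK (hn.cent (S.Q_fix p h ht.1) fun z hz => ?_)
  have : z * t * z⁻¹ * t⁻¹ ∈ S.R p x u := Subgroup.subset_closure ⟨z, hz, t, ht, rfl⟩
  rw [hb, Subgroup.mem_bot] at this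
  have e : z * t = (z * t * z⁻¹ * t⁻¹) * (t * z) := by group
  rw [e, this, one_mul]

/-- the critical distance is at most two -/
theorem b_le (hn : S.NT p) {n : ℕ} (hb : S.IsB p n) (hcom : S.Com p n) {x y : V}
    (h : S.Crit p n x y) : n ≤ 1 := by
  by_contra hlt
  obtain ⟨m, rfl⟩ : ∃ m, n = m + 2 := ⟨n - 2, by omega⟩
  obtain ⟨y1, hy1, a1⟩ := Dn_unsnoc h.1
  obtain ⟨y2, hy2, a2⟩ := Dn_unsnoc hy1
  obtain ⟨c, hc, hcx, w, hw, hm⟩ := h.mover hn hb
  have c1 : S.Crit p (m + 2) w y1 := shift hn hb (by omega) hcom h hy1 a1 hc hw hm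
  have r1 : S.R p w x ≤ S.Z p y1 := R_le_crit hb hcom (S.symm hw) hy1 c1
  have hc1 : c ∈ S.Q p y1 := hb 1 (by omega) y y1 ⟨y1, S.symm a1, rfl⟩ hc
  have k1 : ∀ u v v', S.adj u v → S.adj u v' → S.R p v u = S.R p v' u := fun u v v' h1 h2 =>
    S.const (fun u v => S.R p v u) (fun g x y => cj_R g y x) hw hcx hm
      (cj_eq_of_comm fun a ha => (r1 ha).2.2 c hc1) h1 h2
  obtain ⟨c', hc', -, w', hw', hm'⟩ := c1.mover hn hb
  have d2 : Dn S.adj (m + 2) w y2 := ⟨x, S.symm hw, hy2⟩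
  have c2 : S.Crit p (m + 2) w' y2 := shift hn hb (by omega) hcom c1 d2 a2 hc' hw' hm'
  have r2 : S.R p w' w ≤ S.Z p y2 := R_le_crit hb hcom (S.symm hw') d2 c2
  have r3 : S.R p x w ≤ S.Q p y := by
    rw [k1 w x w' (S.symm hw) hw']
    exact r2.trans (hb 2 (by omega) y2 y ⟨y1, a2, y, a1, rfl⟩)
  have k2 : ∀ u v v', S.adj u v → S.adj u v' → S.R p u v = S.R p u v' := fun u v v' h1 h2 =>
    S.const (S.R p) cj_R hw hcx hm (cj_eq_of_comm fun a ha => (hc.2.2 a (r3 ha)).symm) h1 h2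
  obtain ⟨u, hu, du⟩ := h.1
  have hbot := S.triv (fun u v => S.R p u v ⊔ S.R p v u) (fun _ _ _ => sup_comm _ _)
    (fun u v v' h1 h2 => by rw [k1 u v v' h1 h2, k2 u v v' h1 h2]) (fun x y hxy g hg => by
      have : S.R p x y ⊔ S.R p y x ≤ MulAction.stabilizer G x :=
        sup_le (fun g hg => (S.Q_le_K p x (R_le_Z hxy hg).1).1)
          (fun g hg => S.Q_fix p hxy (R_le_Z (S.symm hxy) hg).1)
      exact this hg) hu
  refine R_ne_bot hn hu (fun hle => ?_) (eq_bot_iff.2 (le_sup_left.trans hbot.le))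
  exact (h.symm hn hb).notK hb ((hb _ le_rfl y u (S.Dn_symm du)).trans hle)

end Setup

end Pool.Agent.MP_1d62fe_al

end

-- part MP_1d62fe_al.Ball
section

set_option autoImplicit false

namespace Pool.Agent.MP_1d62fe_al

namespace Setup

variable {G V : Type*} [Group G] [MulAction G V] (S : Setup G V)

/-- within distance `k` of the edge -/
def Near (k : ℕ) (x y v : V) : Prop := ∃ m ≤ k, Dn S.adj m x v ∨ Dn S.adj m y v

theorem Near.symm {S : Setup G V} {k : ℕ} {x y v : V} (h : S.Near k x y v) : S.Near k y x v := by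
  obtain ⟨m, hm, h⟩ := h
  exact ⟨m, hm, h.symm⟩

theorem Near.smul {S : Setup G V} {k : ℕ} {x y v : V} (h : S.Near k x y v) (g : G) :
    S.Near k (g • x) (g • y) (g • v) := by
  obtain ⟨m, hm, h⟩ := h
  exact ⟨m, hm, h.imp (S.Dn_smul g) (S.Dn_smul g)⟩

/-- pointwise stabiliser of the `k`-neighbourhood of an edge -/
def W (k : ℕ) (x y : V) : Subgroup G where
  carrier := {g | ∀ v, S.Near k x y v → g • v = v}
  one_mem' := fun _ _ => one_smul _ _
  mul_mem' := fun {a b} ha hb y hy => by rw [mul_smul, hb y hy, ha y hy]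
  inv_mem' := fun {a} ha y hy => by rw [inv_smul_eq_iff, ha y hy]

theorem cj_W {k : ℕ} {x y : V} {g : G} (hx : g • x = x) (hy : g • y = y) :
    cj g (S.W k x y) = S.W k x y := by
  refine cj_eq_of_le (fun a ha v hv => ?_) (fun a ha v hv => ?_)
  · have hx' : g⁻¹ • x = x := by rw [inv_smul_eq_iff, hx]
    have hy' : g⁻¹ • y = y := by rw [inv_smul_eq_iff, hy]
    have := hv.smul g⁻¹
    rw [hx', hy'] at this
    rw [mul_smul, mul_smul, ha _ this, smul_inv_smul]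
  · have := hv.smul g
    rw [hx, hy] at this
    rw [mul_smul, mul_smul, ha _ this, inv_smul_smul]

theorem W_le_K {k : ℕ} {x y v : V} (h : S.Near k x y v) : S.W (k + 1) x y ≤ S.K v := by
  obtain ⟨m, hm, h⟩ := h
  intro g hg
  exact ⟨hg v ⟨m, by omega, h⟩, fun u hu =>
    hg u ⟨m + 1, by omega, h.imp (fun h => Dn_snoc h hu) (fun h => Dn_snoc h hu)⟩⟩

variable [Finite G]

/-- intersection of the groups `Q v` near an edge -/
def DD (p k : ℕ) (x y : V) : Subgroup G := ⨅ v, ⨅ (_ : S.Near k x y v), S.Q p v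

omit [Finite G] in
theorem mem_DD {p k : ℕ} {x y : V} {g : G} :
    g ∈ S.DD p k x y ↔ ∀ v, S.Near k x y v → g ∈ S.Q p v := by
  simp [DD, Subgroup.mem_iInf]

theorem cj_DD (p k : ℕ) (g : G) (x y : V) :
    S.DD p k (g • x) (g • y) = cj g (S.DD p k x y) := by
  ext a
  rw [mem_cj, mem_DD, mem_DD]
  constructor
  · intro h v hv
    rw [← mem_cj, cj_Q]
    exact h _ (hv.smul g)
  · intro h v hv
    have := h (g⁻¹ • v) (by simpa using hv.smul g⁻¹)
    rw [← mem_cj, cj_Q] at this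
    simpa using this

theorem DD_eq_bot {p k : ℕ} [Fact p.Prime]
    (hb : S.NT p → ∀ n, S.IsB p n → ∀ x y, S.Crit p n x y → n + 1 ≤ k) {x y : V}
    (h : S.adj x y) : S.DD p k x y = ⊥ := by
  by_cases hn : S.NT p
  · obtain ⟨n, hB, u, v, hc⟩ := hn.exists_b
    obtain ⟨c, hcz, hcu, w, hw, hm⟩ := hc.mover hn hB
    refine S.triv' (S.DD p k) (S.cj_DD p k) (fun x y _ => ?_) (fun x y _ g hg => ?_) hw hcu hm
      (cj_eq_of_comm fun a ha => ?_) h
    · ext a
      rw [mem_DD, mem_DD]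
      exact ⟨fun h v hv => h v hv.symm, fun h v hv => h v hv.symm⟩
    · exact (S.Q_le_K p x (S.mem_DD.1 hg x ⟨0, Nat.zero_le _, Or.inl rfl⟩)).1
    · exact (hcz.2.2 a (S.mem_DD.1 ha v ⟨n + 1, hb hn n hB u v hc, Or.inl hc.1⟩)).symm
  · by_contra hne
    refine hn ⟨x, y, h, fun hb => hne (eq_bot_iff.2 fun g hg => ?_)⟩
    rw [← hb]
    exact ⟨S.mem_DD.1 hg x ⟨0, Nat.zero_le _, Or.inl rfl⟩,
      S.mem_DD.1 hg y ⟨0, Nat.zero_le _, Or.inr rfl⟩⟩

theorem le_Q_of_walk {p : ℕ} {C : Subgroup G} : ∀ {m : ℕ} {x v : V}, Dn S.adj m x v →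
    C ≤ S.Q p x → (∀ j ≤ m, ∀ u, Dn S.adj j x u → C ≤ S.K u) → C ≤ S.Q p v
  | 0, _, _, h, h1, _ => by rw [← show _ = _ from h]; exact h1
  | m + 1, _, _, ⟨u, a, d⟩, h1, h2 =>
    le_Q_of_walk d ((le_inf h1 (h2 1 (by omega) u ⟨u, a, rfl⟩)).trans (S.Q_inf_K p (S.symm a)))
      (fun j hj w hw => h2 (j + 1) (by omega) w ⟨u, a, hw⟩)

omit [Finite G] in
theorem perfect_case {C : Subgroup G} (hC : ⁅C, C⁆ = C)
    (hs : ∀ N : Subgroup G, N ≤ C → Nrm C N → N = ⊥ ∨ N = C) {x y : V} (h : S.adj x y)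
    (h1 : Sn C (S.K x)) (h2 : C ≤ S.K y) : C = ⊥ := by
  by_contra hne
  have hKK : S.K x ⊓ S.K y ≠ ⊥ := fun hb => hne (eq_bot_iff.2 (hb ▸ le_inf h1.le h2))
  have step : ∀ u w, S.adj u w → Sn C (S.K u) → Sn C (S.K w) := by
    intro u w huw hu
    let X : Subgroup G := MulAction.stabilizer G u ⊓ MulAction.stabilizer G w
    have n1 : Nrm X (S.K u) := fun g hg => by rw [cj_K, show g • u = u from hg.1]
    have n2 : Nrm X (S.K w) := fun g hg => by rw [cj_K, show g • w = w from hg.2]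
    have l1 : S.K u ≤ X := fun g hg => ⟨hg.1, hg.2 w huw⟩
    have l2 : S.K w ≤ X := fun g hg => ⟨hg.2 u (S.symm huw), hg.1⟩
    have hX : Sn C X := Sn.step hu l1 n1
    by_cases hle : C ≤ S.K w
    · exact hX.of_le hle l2
    · exfalso
      have hi : C ⊓ S.K w = ⊥ := by
        refine (hs _ inf_le_left ((nrm_self C).inf (n2.mono hX.le))).resolve_right fun he => ?_
        exact hle (he ▸ inf_le_right)
      have hc := hX.comm hC _ l2 n2 hi
      obtain ⟨c, hcC, hcK⟩ := SetLike.not_le_iff_exists.1 hle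
      have hcw : c • w = w := (hX.le hcC).2
      obtain ⟨v, hv, hm⟩ := S.moved hcw hcK
      refine hKK (S.triv' (fun x y => S.K x ⊓ S.K y) (fun g x y => by rw [cj_inf, cj_K, cj_K])
        (fun _ _ _ => inf_comm _ _) (fun x y _ g hg => hg.1.1) hv hcw hm
        (cj_eq_of_comm fun a ha => ?_) h)
      have := Subgroup.commutator_mem_commutator hcC ha.1
      rw [hc, Subgroup.mem_bot, commutatorElement_eq_one_iff_mul_comm] at this
      exact this
  have all : ∀ n u v, Dn S.adj n u v → Sn C (S.K u) → Sn C (S.K v) := by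
    intro n
    induction n with
    | zero => intro u v h hu; rw [← show _ = _ from h]; exact hu
    | succ n ih => rintro u v ⟨w, a, d⟩ hu; exact ih w v d (step u w a hu)
  refine hne (eq_bot_iff.2 fun g hg => S.faith g fun v => ?_)
  obtain ⟨n, hn⟩ := S.conn x v
  exact ((all n x v hn h1).le hg).1

theorem W_eq_bot {k : ℕ}
    (hb : ∀ p : ℕ, p.Prime → S.NT p → ∀ n, S.IsB p n → ∀ x y, S.Crit p n x y → n + 1 ≤ k)
    {x y : V} (h : S.adj x y) : S.W (k + 1) x y = ⊥ := by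
  by_contra hne
  let X : Subgroup G := MulAction.stabilizer G x ⊓ MulAction.stabilizer G y
  have nx : S.Near k x y x := ⟨0, Nat.zero_le _, Or.inl rfl⟩
  have ny : S.Near k x y y := ⟨0, Nat.zero_le _, Or.inr rfl⟩
  have l1 : S.K x ≤ X := fun g hg => ⟨hg.1, hg.2 y h⟩
  have l2 : S.K y ≤ X := fun g hg => ⟨hg.2 x (S.symm h), hg.1⟩
  have hW : Sn (S.W (k + 1) x y) X :=
    Sn.step Sn.refl ((S.W_le_K nx).trans l1) (fun g hg => S.cj_W hg.1 hg.2)
  have hex : ({C : Subgroup G | C ≤ S.W (k + 1) x y ∧ Sn C X ∧ C ≠ ⊥}).Nonempty :=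
    ⟨_, le_rfl, hW, hne⟩
  obtain ⟨C, ⟨hCW, hCX, hC0⟩, hmin⟩ := (Set.toFinite _).exists_minimal hex
  have hs : ∀ N : Subgroup G, N ≤ C → Nrm C N → N = ⊥ ∨ N = C := by
    intro N h1 h2
    by_cases h0 : N = ⊥
    · exact Or.inl h0
    · exact Or.inr (le_antisymm h1
        (hmin ⟨h1.trans hCW, (Sn.step Sn.refl h1 h2).trans hCX, h0⟩ h1))
  have hCx : Sn C (S.K x) := hCX.of_le (hCW.trans (S.W_le_K nx)) l1
  have hCy : Sn C (S.K y) := hCX.of_le (hCW.trans (S.W_le_K ny)) l2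
  have hcomm : ⁅C, C⁆ ≤ C := Subgroup.commutator_le_self C
  have hncomm : Nrm C ⁅C, C⁆ := fun g hg => by
    rw [cj_eq_map, Subgroup.map_commutator, ← cj_eq_map, cj_eq_self_of_mem hg]
  rcases hs _ hcomm hncomm with h0 | h0
  · have : Nontrivial C := (Subgroup.nontrivial_iff_ne_bot C).2 hC0
    obtain ⟨p, hp, hd⟩ := Nat.exists_prime_and_dvd (Finite.one_lt_card (α := C)).ne'
    have : Fact p.Prime := ⟨hp⟩
    obtain ⟨a, ha⟩ := exists_prime_orderOf_dvd_card' p hd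
    have ha' : orderOf (a : G) = p := by rw [Subgroup.orderOf_coe, ha]
    have hz : Subgroup.zpowers (a : G) = C := by
      refine (hs _ (by simp) fun g hg => cj_eq_of_comm fun b hb => ?_).resolve_left fun hb => ?_
      · have hb' : b ∈ C := (show Subgroup.zpowers (a : G) ≤ C by simp) hb
        have := Subgroup.commutator_mem_commutator hg hb'
        rw [h0, Subgroup.mem_bot, commutatorElement_eq_one_iff_mul_comm] at this
        exact this
      · rw [Subgroup.zpowers_eq_bot] at hb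
        rw [hb, orderOf_one] at ha'
        exact hp.one_lt.ne ha'
    have hP : IsPGroup p C := IsPGroup.of_card (n := 1) (by
      rw [← hz, Nat.card_zpowers, ha', pow_one])
    refine hC0 (eq_bot_iff.2 ?_)
    rw [← S.DD_eq_bot (hb p hp) h]
    intro g hg
    refine S.mem_DD.2 fun v hv => ?_
    obtain ⟨m, hm, hv | hv⟩ := hv
    · exact S.le_Q_of_walk hv (hCx.le_Op hP)
        (fun j hj u hu => hCW.trans (S.W_le_K ⟨j, by omega, Or.inl hu⟩)) hg
    · exact S.le_Q_of_walk hv (hCy.le_Op hP)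
        (fun j hj u hu => hCW.trans (S.W_le_K ⟨j, by omega, Or.inr hu⟩)) hg
  · exact hC0 (S.perfect_case h0 hs h hCx hCy.le)

end Setup

end Pool.Agent.MP_1d62fe_al

end
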