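import Pool.Agent.MP_1d62fe_al.Mg.Ball
import Pool.Agent.MP_1d62fe_al.Defs

-- part MP_1d62fe_al.Off
section

set_option autoImplicit false

namespace Pool.Agent.MP_1d62fe_al

theorem elemAb_sup {H : Type} [Group H] {p : ℕ} {A : Subgroup H} (hA : IsElemAbelian p A) {t : H}
    (ht : t ^ p = 1) (hc : ∀ a ∈ A, t * a = a * t) : IsElemAbelian p (A ⊔ Subgroup.zpowers t) := by
  have h1 : ∀ e ∈ A ⊔ Subgroup.zpowers t, (∀ a ∈ A, a * e = e * a) ∧ t * e = e * t := by
    intro e he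
    have i1 : A ⊔ Subgroup.zpowers t ≤ Subgroup.centralizer (A : Set H) :=
      sup_le (fun b hb a ha => hA.2 a ha b hb)
        (Subgroup.zpowers_le.2 fun a ha => (hc a ha).symm)
    have i2 : A ⊔ Subgroup.zpowers t ≤ Subgroup.centralizer {t} :=
      sup_le (fun b hb => Subgroup.mem_centralizer_singleton_iff.2 (hc b hb).symm)
        (Subgroup.zpowers_le.2 (Subgroup.mem_centralizer_singleton_iff.2 rfl))
    exact ⟨i1 he, (Subgroup.mem_centralizer_singleton_iff.1 (i2 he)).symm⟩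
  have h2 : ∀ a ∈ A ⊔ Subgroup.zpowers t, ∀ b ∈ A ⊔ Subgroup.zpowers t, a * b = b * a := by
    intro a ha b hb
    have : A ⊔ Subgroup.zpowers t ≤ Subgroup.centralizer {b} :=
      sup_le (fun c hc => Subgroup.mem_centralizer_singleton_iff.2 ((h1 b hb).1 c hc))
        (Subgroup.zpowers_le.2 (Subgroup.mem_centralizer_singleton_iff.2 (h1 b hb).2))
    exact Subgroup.mem_centralizer_singleton_iff.1 (this ha)
  refine ⟨fun a ha => ?_, h2⟩
  let U : Subgroup H :=
    { carrier := {a | a ∈ A ⊔ Subgroup.zpowers t ∧ a ^ p = 1}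
      one_mem' := ⟨Subgroup.one_mem _, one_pow _⟩
      mul_mem' := fun {a b} ha hb => ⟨Subgroup.mul_mem _ ha.1 hb.1, by
        have : Commute a b := h2 a ha.1 b hb.1
        rw [this.mul_pow, ha.2, hb.2, one_mul]⟩
      inv_mem' := fun {a} ha => ⟨Subgroup.inv_mem _ ha.1, by rw [inv_pow, ha.2, inv_one]⟩ }
  have : A ⊔ Subgroup.zpowers t ≤ U :=
    sup_le (fun b hb => ⟨Subgroup.mem_sup_left hb, hA.1 b hb⟩)
      (Subgroup.zpowers_le.2 ⟨Subgroup.mem_sup_right (Subgroup.mem_zpowers t), ht⟩)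
  exact (this ha).2

theorem relIndex_cj {G : Type*} [Group G] (g : G) (H K : Subgroup G) :
    (cj g H).relIndex (cj g K) = H.relIndex K := by
  rw [cj_eq_map, cj_eq_map]
  exact Subgroup.relIndex_map_map_of_injective _ _ (MulAut.conj g).injective

namespace Setup

variable {G V : Type} [Group G] [MulAction G V] (S : Setup G V)

/-- the neighbourhood -/
def Nb (x : V) : Set V := {y | S.adj x y}

/-- the local action -/
def loc (x : V) : MulAction.stabilizer G x →* Equiv.Perm (S.Nb x) where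
  toFun g :=
    { toFun := fun u => ⟨(g : G) • (u : V), by
        have := S.inv (g : G) u.2
        rwa [show (g : G) • x = x from g.2] at this⟩
      invFun := fun u => ⟨(g : G)⁻¹ • (u : V), by
        have := S.inv (g : G)⁻¹ u.2
        rwa [show (g : G)⁻¹ • x = x from (g⁻¹).2] at this⟩
      left_inv := fun u => Subtype.ext (inv_smul_smul _ _)
      right_inv := fun u => Subtype.ext (smul_inv_smul _ _) }
  map_one' := Equiv.ext fun u => Subtype.ext (one_smul _ _)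
  map_mul' := fun _ _ => Equiv.ext fun u => Subtype.ext (mul_smul _ _ _)

theorem loc_apply (x : V) (g : MulAction.stabilizer G x) (u : S.Nb x) :
    ((S.loc x g u : S.Nb x) : V) = (g : G) • (u : V) := rfl

theorem loc_eq_one {x : V} {g : MulAction.stabilizer G x} : S.loc x g = 1 ↔ (g : G) ∈ S.K x :=
  ⟨fun h => ⟨g.2, fun y hy => by
      have := congrArg Subtype.val (congrArg (fun σ : Equiv.Perm (S.Nb x) => σ ⟨y, hy⟩) h)
      exact this⟩,
    fun h => Equiv.ext fun u => Subtype.ext (h.2 u u.2)⟩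

theorem ker_loc (x : V) : (S.loc x).ker = (S.K x).subgroupOf (MulAction.stabilizer G x) := by
  ext g; exact S.loc_eq_one

/-- image in the local group -/
def im (x : V) (E : Subgroup G) : Subgroup (Equiv.Perm (S.Nb x)) :=
  (E.subgroupOf (MulAction.stabilizer G x)).map (S.loc x)

theorem card_im {x : V} {E : Subgroup G} (h : E ≤ MulAction.stabilizer G x) :
    Nat.card (S.im x E) = (S.K x).relIndex E := by
  rw [im, ← Subgroup.relIndex_ker, ker_loc, Subgroup.relIndex_subgroupOf h]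

theorem im_mono (x : V) {E F : Subgroup G} (h : E ≤ F) : S.im x E ≤ S.im x F :=
  Subgroup.map_mono (fun _ ha => h ha)

/-- elementary abelian modulo the kernel -/
def EA (p : ℕ) (x : V) (E : Subgroup G) : Prop :=
  (∀ e ∈ E, e ^ p ∈ S.K x) ∧ ∀ e ∈ E, ∀ f ∈ E, e * f * e⁻¹ * f⁻¹ ∈ S.K x

theorem EA_iff {p : ℕ} {x : V} {E : Subgroup G} (h : E ≤ MulAction.stabilizer G x) :
    S.EA p x E ↔ IsElemAbelian p (S.im x E) := by
  constructor
  · rintro ⟨h1, h2⟩
    refine ⟨?_, ?_⟩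
    · rintro _ ⟨a, ha, rfl⟩
      rw [← map_pow, loc_eq_one]
      exact h1 a ha
    · rintro _ ⟨a, ha, rfl⟩ _ ⟨b, hb, rfl⟩
      have : S.loc x (a * b * a⁻¹ * b⁻¹) = 1 := S.loc_eq_one.2 (h2 a ha b hb)
      simp only [map_mul, map_inv] at this
      rw [mul_inv_eq_one, mul_inv_eq_iff_eq_mul] at this
      exact this
  · rintro ⟨h1, h2⟩
    refine ⟨fun e he => ?_, fun e he f hf => ?_⟩
    · have := h1 _ ⟨⟨e, h he⟩, he, rfl⟩
      rw [← map_pow, loc_eq_one] at this
      exact this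
    · have := h2 _ ⟨⟨e, h he⟩, he, rfl⟩ _ ⟨⟨f, h hf⟩, hf, rfl⟩
      have h3 : S.loc x (⟨e, h he⟩ * ⟨f, h hf⟩ * (⟨e, h he⟩ : MulAction.stabilizer G x)⁻¹ *
          (⟨f, h hf⟩ : MulAction.stabilizer G x)⁻¹) = 1 := by
        simp only [map_mul, map_inv]
        rw [this]; group
      exact S.loc_eq_one.1 h3

theorem EA.cj {S : Setup G V} {p : ℕ} {x : V} {E : Subgroup G} (h : S.EA p x E) (g : G) :
    S.EA p (g • x) (cj g E) := by
  refine ⟨fun e he => ?_, fun e he f hf => ?_⟩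
  · rw [← cj_K, mem_cj]
    have := h.1 _ (mem_cj.1 he)
    have e1 : (g⁻¹ * e * g) ^ p = g⁻¹ * e ^ p * g := by
      simpa using conj_pow (a := g⁻¹) (b := e) (i := p)
    rwa [e1] at this
  · rw [← cj_K, mem_cj]
    have := h.2 _ (mem_cj.1 he) _ (mem_cj.1 hf)
    convert this using 1; group

variable [Finite G] {S} {p : ℕ} [Fact p.Prime]

theorem offender_bound (hn : S.NT p) {n : ℕ} (hb : S.IsB p n) {x y y' : V} (h : S.Crit p n x y)
    (hy : Dn S.adj n x y') (hy' : S.adj y y')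
    (hO : OffendersExtremal (S.loc y).range ⟨y', hy'⟩)
    (hle : (S.K x).relIndex (S.Z p y) ≤ (S.K y).relIndex (S.Z p x))
    {E : Subgroup G} (hE : E ≤ S.Q p y') (hEA : S.EA p y E) :
    (S.K y).relIndex E ≤ (S.K x).relIndex (S.Z p y) := by
  have hQ : S.Q p y' ≤ MulAction.stabilizer G y := fun g hg => S.Q_fix p hy' hg
  have hZy : S.Z p y ≤ MulAction.stabilizer G y := fun g hg => (S.Q_le_K p y hg.1).1
  have hZx' : S.Z p x ≤ S.Q p y' := hb n le_rfl x y' hy
  have hZx : S.Z p x ≤ MulAction.stabilizer G y := hZx'.trans hQ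
  obtain ⟨u, hu, du⟩ := h.1
  have hidx : (Subgroup.centralizer
      (((S.Z p x).subgroupOf (MulAction.stabilizer G y) : Subgroup _) :
        Set (MulAction.stabilizer G y))).relIndex
      ((S.Z p y).subgroupOf (MulAction.stabilizer G y)) = (S.K x).relIndex (S.Z p y) := by
    rw [← Subgroup.relIndex_subgroupOf (H := S.K x) hZy, ← Subgroup.inf_relIndex_right,
      ← Subgroup.inf_relIndex_right (H := (S.K x).subgroupOf _)]
    congr 1
    ext z
    simp only [Subgroup.mem_inf, Subgroup.mem_subgroupOf]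
    refine and_congr_left fun hz => ⟨fun hc => ?_, fun hk => ?_⟩
    · refine hn.cent (hb.fix h.1 hz) fun a ha => ?_
      exact (congrArg Subtype.val (hc ⟨a, hZx ha⟩ ha)).symm
    · intro a ha
      have : (z : G) ∈ S.Q p x := S.Q_inf_K p hu ⟨hb n le_rfl y u (S.Dn_symm du) hz, hk⟩
      exact Subtype.ext (ha.2.2 z this).symm
  have := hO p Fact.out (S.im y (S.Q p y')) ?_ ?_ ?_ (MulAction.stabilizer G y) (S.loc y) rfl
    ((S.Z p y).subgroupOf _) ?_ ?_ ?_ ((S.Z p x).subgroupOf _) ?_ ?_ (S.im_mono y hZx') ?_ ?_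
    (S.im y E) (S.im_mono y hE) ((S.EA_iff (hE.trans hQ)).1 hEA)
  · rwa [hidx, S.card_im (hE.trans hQ)] at this
  · rintro _ ⟨a, ha, rfl⟩
    exact ⟨⟨a, rfl⟩, Subtype.ext (S.Q_le_K p y' ha).1⟩
  · exact ((S.Q_pgroup p y').comap_subtype).map _
  · rintro _ ⟨g, rfl⟩ hg _ ⟨a, ha, rfl⟩
    refine ⟨g * a * g⁻¹, ?_, by simp⟩
    have hg' : (g : G) • y' = y' := congrArg Subtype.val hg
    have : cj (g : G) (S.Q p y') = S.Q p y' := by rw [cj_Q, hg']
    exact (conj_mem_of_cj_eq (a := (a : G)) this ha :)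
  · refine ⟨fun a ha g => ?_⟩
    have : cj (g : G) (S.Z p y) = S.Z p y := by rw [cj_Z, show (g : G) • y = y from g.2]
    exact (conj_mem_of_cj_eq (a := (a : G)) this ha :)
  · exact ⟨fun a ha => Subtype.ext ha.2.1, fun a ha b hb => Subtype.ext (hb.2.2 a ha.1)⟩
  · intro g hg
    exact S.loc_eq_one.2 (hn.cent g.2 fun z hz =>
      (congrArg Subtype.val (hg ⟨z, hZy hz⟩ hz)).symm)
  · exact ⟨fun a ha => Subtype.ext ha.2.1, fun a ha b hb => Subtype.ext (hb.2.2 a ha.1)⟩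
  · intro h0
    refine h.notK hb fun a ha => ?_
    have : S.loc y ⟨a, hZx ha⟩ ∈ ((S.Z p x).subgroupOf (MulAction.stabilizer G y)).map (S.loc y) :=
      ⟨_, ha, rfl⟩
    rw [h0, Subgroup.mem_bot] at this
    exact S.loc_eq_one.1 this
  · have i1 : ⁅(S.Z p y).subgroupOf (MulAction.stabilizer G y),
        (S.Z p x).subgroupOf (MulAction.stabilizer G y)⁆ ≤
        (S.Z p x).subgroupOf (MulAction.stabilizer G y) := by
      rw [Subgroup.commutator_le]
      intro c hc a ha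
      have : cj (c : G) (S.Z p x) = S.Z p x := by rw [cj_Z, hb.fix (c := (c : G)) h.1 hc]
      exact (S.Z p x).mul_mem (conj_mem_of_cj_eq (a := (a : G)) this ha) ((S.Z p x).inv_mem ha)
    rw [eq_bot_iff, Subgroup.commutator_le]
    intro r hr a ha
    rw [Subgroup.mem_bot, commutatorElement_eq_one_iff_mul_comm]
    exact Subtype.ext (ha.2.2 r (i1 hr).1)
  · rw [hidx]
    exact hle.trans (S.card_im hZx).ge

theorem com_of_off (hn : S.NT p) {n : ℕ} (hb : S.IsB p n)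
    (hO : ∀ x u (h : S.adj x u), OffendersExtremal (S.loc x).range ⟨u, h⟩) : S.Com p n := by
  intro x u y hu du h t ht htp htc z hz
  obtain ⟨y', dy, hy'⟩ := Dn_unsnoc h.1
  have hQ : S.Q p u ≤ MulAction.stabilizer G x := fun g hg => S.Q_fix p hu hg
  have hZy : S.Z p y ≤ S.Q p u := hb n le_rfl y u (S.Dn_symm du)
  have hE : S.Z p y ⊔ Subgroup.zpowers t ≤ S.Q p u := sup_le hZy (Subgroup.zpowers_le.2 ht)
  have him : S.im x (S.Z p y ⊔ Subgroup.zpowers t) =
      S.im x (S.Z p y) ⊔ Subgroup.zpowers (S.loc x ⟨t, hQ ht⟩) := by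
    rw [im, Subgroup.subgroupOf_sup (hZy.trans hQ) (Subgroup.zpowers_le.2 (hQ ht)),
      Subgroup.map_sup, ← MonoidHom.map_zpowers]
    congr 2
    ext a
    simp only [Subgroup.mem_subgroupOf, Subgroup.mem_zpowers_iff]
    exact exists_congr fun k => by rw [Subtype.ext_iff]; simp
  have hEA : S.EA p x (S.Z p y ⊔ Subgroup.zpowers t) := by
    rw [S.EA_iff (hE.trans hQ), him]
    refine elemAb_sup ((S.EA_iff (hZy.trans hQ)).1 ⟨fun e he => ?_, fun e he f hf => ?_⟩) ?_ ?_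
    · rw [he.2.1]; exact Subgroup.one_mem _
    · rw [hf.2.2 e he.1]; simp
    · rw [← map_pow, loc_eq_one]; exact htp
    · rintro _ ⟨a, ha, rfl⟩
      have : S.loc x (⟨t, hQ ht⟩ * a * (⟨t, hQ ht⟩ : MulAction.stabilizer G x)⁻¹ * a⁻¹) = 1 :=
        S.loc_eq_one.2 (htc a ha)
      simp only [map_mul, map_inv] at this
      rw [mul_inv_eq_one, mul_inv_eq_iff_eq_mul] at this
      exact this
  have key : (S.K x).relIndex (S.Z p y ⊔ Subgroup.zpowers t) ≤ (S.K x).relIndex (S.Z p y) := by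
    rcases le_total ((S.K x).relIndex (S.Z p y)) ((S.K y).relIndex (S.Z p x)) with hle | hle
    · obtain ⟨g, hg1, hg2⟩ := S.arc x u y y' hu (S.symm hy')
      have i1 := offender_bound hn hb h dy (S.symm hy') (hO _ _ _) hle
        (E := cj g (S.Z p y ⊔ Subgroup.zpowers t)) (by rw [← hg2, ← cj_Q]; exact cj_mono g hE)
        (by have := hEA.cj g; rwa [hg1] at this)
      have i2 := relIndex_cj g (S.K x) (S.Z p y ⊔ Subgroup.zpowers t)
      rw [cj_K, hg1] at i2
      exact i2 ▸ i1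
    · exact (offender_bound hn hb (h.symm hn hb) (S.Dn_symm du) hu (hO _ _ _) hle hE hEA).trans hle
  rw [← S.card_im (hE.trans hQ), ← S.card_im (hZy.trans hQ)] at key
  have hfin : Finite (S.im x (S.Z p y ⊔ Subgroup.zpowers t)) :=
    Finite.of_surjective _ (MonoidHom.subgroupMap_surjective _ _)
  have heq := Subgroup.eq_of_le_of_card_ge (S.im_mono x (le_sup_left)) key
  have hmem : S.loc x ⟨t, hQ ht⟩ ∈ S.im x (S.Z p y) := by
    rw [heq, him]
    exact Subgroup.mem_sup_right (Subgroup.mem_zpowers _)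
  obtain ⟨c, hc, hct⟩ := hmem
  have hk : (c : G)⁻¹ * t ∈ S.K x := by
    have : S.loc x (c⁻¹ * ⟨t, hQ ht⟩) = 1 := by rw [map_mul, map_inv, hct, inv_mul_cancel]
    exact S.loc_eq_one.1 this
  have hq : (c : G)⁻¹ * t ∈ S.Q p x :=
    S.Q_inf_K p hu ⟨Subgroup.mul_mem _ (Subgroup.inv_mem _ (hZy hc)) ht, hk⟩
  have e1 := (Subgroup.inv_mem _ hz).2.2 _ hq
  have e2 : z * t * z⁻¹ * t⁻¹ = z * c * z⁻¹ * (c : G)⁻¹ := by
    have : z * t * z⁻¹ * t⁻¹ = z * c * ((c : G)⁻¹ * t * z⁻¹) * t⁻¹ := by group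
    rw [this, e1]; group
  rw [e2]
  have : cj z (S.Z p y) = S.Z p y := by rw [cj_Z, hb.fix (S.Dn_symm h.1) hz]
  exact (S.Z p y).mul_mem (conj_mem_of_cj_eq this hc) ((S.Z p y).inv_mem hc)

theorem W_three (S : Setup G V)
    (hO : ∀ x u (h : S.adj x u), OffendersExtremal (S.loc x).range ⟨u, h⟩) {x y : V}
    (h : S.adj x y) : S.W 3 x y = ⊥ :=
  S.W_eq_bot (k := 2) (fun p hp hn n hb u v hc => by
    have : Fact p.Prime := ⟨hp⟩
    have := b_le hn hb (com_of_off hn hb hO) hc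
    omega) h

end Setup

end Pool.Agent.MP_1d62fe_al

end

-- part MP_1d62fe_al.Main
section

set_option autoImplicit false

namespace Pool.Agent.MP_1d62fe_al

theorem Dn_of_walk {V : Type} {Γ : SimpleGraph V} {x y : V} (w : Γ.Walk x y) :
    Dn Γ.Adj w.length x y := by
  induction w with
  | nil => rfl
  | cons h _ ih => exact ⟨_, h, ih⟩

/-- the abstract set-up attached to a graph and a group of automorphisms -/
def mkSetup {V : Type} (Γ : SimpleGraph V) (G : Subgroup (Γ ≃g Γ)) (hc : Γ.Connected)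
    (harc : ∀ u v u' v' : V, Γ.Adj u v → Γ.Adj u' v' → ∃ g ∈ G, g u = u' ∧ g v = v')
    (hprim : ∀ α : V, ∀ B : Set V, B ⊆ Γ.neighborSet α →
      (∀ g ∈ G, g α = α → ((⇑g) '' B = B ∨ Disjoint ((⇑g) '' B) B)) →
      B.Subsingleton ∨ B = Γ.neighborSet α) : Setup G V where
  adj := Γ.Adj
  symm := fun h => h.symm
  inv := fun g _ _ h => (g : Γ ≃g Γ).map_rel_iff.2 h
  conn := fun x y => by
    obtain ⟨w⟩ := hc.preconnected x y
    exact ⟨_, Dn_of_walk w⟩
  faith := fun g h => Subtype.ext (RelIso.ext h)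
  arc := fun x y x' y' h h' => by
    obtain ⟨g, hg, h1, h2⟩ := harc x y x' y' h h'
    exact ⟨⟨g, hg⟩, h1, h2⟩
  prim := fun x F hF y y' h h' hne he z z' hz hz' => by
    have hinv : ∀ g : G, g • x = x → ∀ u, Γ.Adj x u → Γ.Adj x (g • u) := fun g hg u hu => by
      have : Γ.Adj (g • x) (g • u) := (g : Γ ≃g Γ).map_rel_iff.2 hu
      rwa [hg] at this
    rcases hprim x {u | Γ.Adj x u ∧ F u = F y} (fun u hu => hu.1) (fun g hg hx => by
      let g' : G := ⟨g, hg⟩
      have hx' : g' • x = x := hx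
      by_cases hc : cj g' (F y) = F y
      · left
        ext u
        constructor
        · rintro ⟨v, ⟨h1, h2⟩, rfl⟩
          exact ⟨hinv g' hx' v h1, by rw [← hc, ← h2]; exact hF g' hx' v⟩
        · rintro ⟨h1, h2⟩
          have hx'' : g'⁻¹ • x = x := by rw [inv_smul_eq_iff, hx']
          refine ⟨g'⁻¹ • u, ⟨hinv _ hx'' u h1, ?_⟩, smul_inv_smul g' u⟩
          rw [hF _ hx'', h2]
          conv_lhs => rw [← hc]
          exact cj_inv_cj _ _
      · right
        rw [Set.disjoint_left]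
        rintro _ ⟨v, ⟨_, h2⟩, rfl⟩ ⟨_, h4⟩
        exact hc (by rw [← h2, ← hF g' hx' v, h2]; exact h4)) with hs | hs
    · exact absurd (hs ⟨h, rfl⟩ ⟨h', he.symm⟩) hne
    · have h1 : z ∈ {u | Γ.Adj x u ∧ F u = F y} := by rw [hs]; exact hz
      have h2 : z' ∈ {u | Γ.Adj x u ∧ F u = F y} := by rw [hs]; exact hz'
      rw [h1.2, h2.2]

theorem range_loc {V : Type} (Γ : SimpleGraph V) (G : Subgroup (Γ ≃g Γ)) (hc : Γ.Connected)
    (harc : ∀ u v u' v' : V, Γ.Adj u v → Γ.Adj u' v' → ∃ g ∈ G, g u = u' ∧ g v = v')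
    (hprim : ∀ α : V, ∀ B : Set V, B ⊆ Γ.neighborSet α →
      (∀ g ∈ G, g α = α → ((⇑g) '' B = B ∨ Disjoint ((⇑g) '' B) B)) →
      B.Subsingleton ∨ B = Γ.neighborSet α) (x : V) :
    ((mkSetup Γ G hc harc hprim).loc x).range = localGroup Γ G x := by
  ext σ
  constructor
  · rintro ⟨g, rfl⟩
    exact ⟨(g : G), (g : G).2, g.2, fun _ => rfl⟩
  · rintro ⟨g, hg, h1, h2⟩
    exact ⟨⟨⟨g, hg⟩, h1⟩, Equiv.ext fun u => Subtype.ext (h2 u).symm⟩

theorem ball_card {V : Type} [Finite V] (Γ : SimpleGraph V) (d : ℕ)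
    (hd : ∀ v : V, (Γ.neighborSet v).ncard = d) (x : V) (k : ℕ) :
    {v | ∃ m ≤ k, Dn Γ.Adj m x v}.ncard ≤ (d + 1) ^ k := by
  induction k with
  | zero =>
    have : {v | ∃ m ≤ 0, Dn Γ.Adj m x v} ⊆ {x} := by
      rintro v ⟨m, hm, h⟩
      obtain rfl : m = 0 := by omega
      exact Eq.symm h
    simpa using Set.ncard_le_ncard this
  | succ k ih =>
    classical
    let B := {v | ∃ m ≤ k, Dn Γ.Adj m x v}
    have hsub : {v | ∃ m ≤ k + 1, Dn Γ.Adj m x v} ⊆
        ↑((Set.toFinite B).toFinset.biUnion fun u =>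
          insert u (Set.toFinite (Γ.neighborSet u)).toFinset) := by
      rintro v ⟨m, hm, h⟩
      simp only [Finset.coe_biUnion, Set.mem_iUnion, Finset.mem_coe, Set.Finite.mem_toFinset,
        Finset.mem_insert]
      rcases m with _ | m
      · exact ⟨v, ⟨0, Nat.zero_le _, h⟩, Or.inl rfl⟩
      · obtain ⟨u, h1, h2⟩ := Dn_unsnoc h
        exact ⟨u, ⟨m, by omega, h1⟩, Or.inr h2⟩
    refine (Set.ncard_le_ncard hsub).trans ?_
    rw [Set.ncard_coe_finset]
    refine (Finset.card_biUnion_le_card_mul _ _ (d + 1) fun u _ => ?_).trans ?_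
    · refine (Finset.card_insert_le _ _).trans ?_
      rw [← Set.ncard_eq_toFinset_card, hd]
    · rw [← Set.ncard_eq_toFinset_card, pow_succ]
      exact Nat.mul_le_mul_right _ ih

theorem card_le_of_fix {V : Type} [Finite V] (Γ : SimpleGraph V) (G : Subgroup (Γ ≃g Γ)) (d : ℕ)
    (hd : ∀ v : V, (Γ.neighborSet v).ncard = d) (x : V) (k : ℕ)
    (hfix : ∀ g ∈ G, (∀ m ≤ k, ∀ v, Dn Γ.Adj m x v → g v = v) → g = 1) :
    Nat.card {g : Γ ≃g Γ // g ∈ G ∧ g x = x} ≤ ((d + 1) ^ k).factorial := by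
  let B := {v | ∃ m ≤ k, Dn Γ.Adj m x v}
  have hD : ∀ (g : Γ ≃g Γ) (m : ℕ) (u v : V), Dn Γ.Adj m u v → Dn Γ.Adj m (g u) (g v) := by
    intro g m
    induction m with
    | zero => intro u v h; exact congrArg g h
    | succ m ih => rintro u v ⟨w, h1, h2⟩; exact ⟨g w, g.map_rel_iff.2 h1, ih _ _ h2⟩
  have hB : ∀ g : Γ ≃g Γ, g x = x → ∀ v ∈ B, g v ∈ B := by
    rintro g hg v ⟨m, hm, h⟩
    exact ⟨m, hm, hg ▸ hD g m x v h⟩
  let f : {g : Γ ≃g Γ // g ∈ G ∧ g x = x} → (B ↪ B) := fun g =>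
    ⟨fun v => ⟨g.1 v, hB g.1 g.2.2 v v.2⟩, fun u v h =>
      Subtype.ext (g.1.injective (congrArg Subtype.val h))⟩
  have hf : Function.Injective f := by
    intro g h e
    have : h.1⁻¹ * g.1 = 1 := hfix _ (G.mul_mem (G.inv_mem h.2.1) g.2.1) fun m hm v hv => by
      have : g.1 v = h.1 v :=
        congrArg Subtype.val (congrArg (fun φ : B ↪ B => φ ⟨v, m, hm, hv⟩) e)
      rw [RelIso.mul_apply, this, RelIso.inv_apply_self]
    exact Subtype.ext (inv_mul_eq_one.1 this).symm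
  refine (Nat.card_le_card_of_injective f hf).trans ?_
  have := Fintype.ofFinite B
  classical
  rw [Nat.card_eq_fintype_card, Fintype.card_embedding_eq, Nat.descFactorial_self]
  refine Nat.factorial_le ?_
  rw [← Nat.card_eq_fintype_card, Nat.card_coe_set_eq]
  exact ball_card Γ d hd x k

theorem fix_of_W {G V : Type} [Group G] [MulAction G V] (S : Setup G V) {k : ℕ}
    (hW : ∀ x y, S.adj x y → S.W k x y = ⊥) (x : V) (g : G)
    (hg : ∀ m ≤ k + 1, ∀ v, Dn S.adj m x v → g • v = v) : g = 1 := by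
  by_cases hx : ∃ y, S.adj x y
  · obtain ⟨y, hy⟩ := hx
    rw [← Subgroup.mem_bot, ← hW x y hy]
    rintro v ⟨m, hm, h | h⟩
    · exact hg m (by omega) v h
    · exact hg (m + 1) (by omega) v ⟨y, hy, h⟩
  · refine S.faith g fun v => ?_
    obtain ⟨n, hn⟩ := S.conn x v
    rcases n with _ | n
    · exact hg 0 (by omega) v hn
    · obtain ⟨u, h, _⟩ := hn
      exact absurd ⟨u, h⟩ hx

theorem finite_aut {V : Type} [Finite V] (Γ : SimpleGraph V) : Finite (Γ ≃g Γ) :=
  Finite.of_injective (fun g : Γ ≃g Γ => (g : V → V)) fun _ _ h => RelIso.ext (congrFun h)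

end Pool.Agent.MP_1d62fe_al

end
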